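import Pool.Agent.SchurTwoRow.Alternative
import Pool.Agent.SchurTwoRow.Analytic

/-!
# Schur partition maps of two-row shapes: definitions

`hh m l` is the number of weakly increasing words of length `m` in `l` letters, `AA a b k l` is
the coefficient of the power sum `p_k` in the `k`-th moment of the Schur polynomial of shape
`(a, b)` in `l` variables, `Exc a b` is the set of lengths `l` for which one of the coefficients
`AA a b k l`, `2 ≤ k ≤ l`, vanishes.
-/

namespace Pool.Agent.Lib.H70S

open Pool.Agent.SchurTwoRow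

/-- The number of weakly increasing words of length `m` in `l` letters, `0` for `m < 0`. -/
def hh (m : ℤ) (l : ℕ) : ℤ := if m < 0 then 0 else ((l + m.toNat - 1).choose m.toNat : ℤ)

/-- `h_(a-j) h_b + h_a h_(b-j) - h_(a+1-j) h_(b-1) - h_(a+1) h_(b-1-j)` at `(1, …, 1)`. -/
def coef (a b j l : ℕ) : ℤ :=
  hh ((a : ℤ) - j) l * hh b l + hh a l * hh ((b : ℤ) - j) l -
    hh ((a : ℤ) + 1 - j) l * hh ((b : ℤ) - 1) l - hh ((a : ℤ) + 1) l * hh ((b : ℤ) - 1 - j) l

/-- `∑_(j = 1)^(a + 1) j ^ (k - 1) (h_(a-j) h_b + h_a h_(b-j) - h_(a+1-j) h_(b-1)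
- h_(a+1) h_(b-1-j))`, all complete symmetric polynomials taken at `l` ones. -/
def AA (a b k l : ℕ) : ℤ := ∑ j ∈ Finset.Icc 1 (a + 1), (j : ℤ) ^ (k - 1) * coef a b j l

/-- The exceptional lengths of the shape `(a, b)`. -/
def Exc (a b : ℕ) : Set ℕ := {l | ∃ k, 2 ≤ k ∧ k ≤ l ∧ AA a b k l = 0}

/-- The multiset of the products over all semistandard tableaux, as a function of the multiset
of the parts (sorted in nonincreasing order). -/
noncomputable def PRS (a b : ℕ) (M : Multiset ℕ) : Multiset ℕ :=
  prsFun a b (M.sort (fun x y => y ≤ x)).get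

open Classical in
/-- The elements of `M` whose `r`-adic valuation is least. -/
noncomputable def minFace (r : ℕ) (M : Multiset ℕ) : Multiset ℕ :=
  M.filter fun x => ∀ y ∈ M, padicValNat r x ≤ padicValNat r y

open Classical in
/-- The elements of `M` whose `r`-adic valuation is greatest. -/
noncomputable def maxFace (r : ℕ) (M : Multiset ℕ) : Multiset ℕ :=
  M.filter fun x => ∀ y ∈ M, padicValNat r y ≤ padicValNat r x

theorem prs_eq_PRS {n : ℕ} (a b : ℕ) (p : n.Partition) : prs a b p = PRS a b p.parts := rfl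

end Pool.Agent.Lib.H70S
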