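import Pool.Agent.Lib.H70S.Defs

/-! # Chunk F1 (M): the two largest elements of `prsFun` for nonincreasing entries -/

namespace Pool.Agent.Lib.H70S

open Pool.Agent.SchurTwoRow

/-- Let `T` be a tableau different from `T₀` (first row all `0`, second row all `1`). Either the
last entry of the second row is `≥ 2`, or the second row is all `1`; in the second case the
first `b` entries of the first row are `0` (strict columns), the first row is not all `0`, so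
`b < a` and its last entry is `≥ 1`. -/
theorem tableau_cases {a b l : ℕ} (hb : 1 ≤ b) (hab : b ≤ a)
    {T : (Fin a → Fin (l + 2)) × (Fin b → Fin (l + 2))} (hT : T ∈ tableaux a b (l + 2))
    (hne : T ≠ (fun _ => 0, fun _ => 1)) :
    2 ≤ (T.2 ⟨b - 1, by omega⟩).val ∨
      (b < a ∧ (∀ j, T.2 j = 1) ∧ 1 ≤ (T.1 ⟨a - 1, by omega⟩).val) := by
  rw [mem_tableaux] at hT
  obtain ⟨h1, h2, h3⟩ := hT
  by_cases hlast : 2 ≤ (T.2 ⟨b - 1, by omega⟩).val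
  · exact Or.inl hlast
  · right
    have hv1 : ((1 : Fin (l + 2)) : ℕ) = 1 := rfl
    have hT2 : ∀ j, T.2 j = 1 := by
      intro j
      have h4 : T.2 j ≤ T.2 ⟨b - 1, by omega⟩ := h2 j _ (by
        rw [Fin.le_def]
        have := j.2
        show j.val ≤ b - 1
        omega)
      have h5 : T.1 ⟨j.val, by omega⟩ < T.2 j := h3 _ _ rfl
      rw [Fin.le_def] at h4
      rw [Fin.lt_def] at h5
      apply Fin.ext
      rw [hv1]
      omega
    have h6 : ∃ i, T.1 i ≠ 0 := by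
      by_contra hno
      push Not at hno
      apply hne
      apply Prod.ext
      · funext i
        exact hno i
      · funext j
        exact hT2 j
    obtain ⟨i, hi⟩ := h6
    have hib : b ≤ i.val := by
      by_contra hlt
      push Not at hlt
      apply hi
      have h5 : T.1 i < T.2 ⟨i.val, hlt⟩ := h3 _ _ rfl
      rw [hT2, Fin.lt_def, hv1] at h5
      apply Fin.ext
      show (T.1 i).val = 0
      omega
    refine ⟨lt_of_le_of_lt hib i.2, hT2, ?_⟩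
    have h4 : T.1 i ≤ T.1 ⟨a - 1, by omega⟩ := h1 i _ (by
      rw [Fin.le_def]
      have := i.2
      show i.val ≤ a - 1
      omega)
    rw [Fin.le_def] at h4
    have h5 : (T.1 i).val ≠ 0 := fun h => hi (Fin.ext h)
    omega

theorem f1_v1 (k : ℕ) : ((1 : Fin (k + 3)) : ℕ) = 1 := rfl

theorem f1_v2 (k : ℕ) : ((2 : Fin (k + 3)) : ℕ) = 2 := rfl

theorem f1_prod {n : ℕ} {f : Fin n → ℕ} {c d : ℕ} (i0 : Fin n) (h : ∀ i, f i ≤ c) (h0 : f i0 ≤ d) :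
    ∏ i, f i ≤ c ^ (n - 1) * d := by
  rw [← Finset.mul_prod_erase Finset.univ f (Finset.mem_univ i0), mul_comm]
  have h1 : ∏ i ∈ Finset.univ.erase i0, f i ≤ c ^ (Finset.univ.erase i0).card :=
    Finset.prod_le_pow_card _ _ _ (fun i _ => h i)
  rw [Finset.card_erase_of_mem (Finset.mem_univ i0), Finset.card_univ, Fintype.card_fin] at h1
  exact Nat.mul_le_mul h1 h0

theorem f1_bound {a b k : ℕ} (hb : 1 ≤ b) (hab : b ≤ a) {x : Fin (k + 3) → ℕ}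
    (hx : ∀ i j, i ≤ j → x j ≤ x i) {T : (Fin a → Fin (k + 3)) × (Fin b → Fin (k + 3))}
    (hT : T ∈ tableaux a b (k + 3)) (hne : T ≠ (fun _ => 0, fun _ => 1)) :
    (∏ i, x (T.1 i)) * ∏ j, x (T.2 j) ≤ x 0 ^ a * x 1 ^ (b - 1) * x 2 ∨
      (b < a ∧ (∏ i, x (T.1 i)) * ∏ j, x (T.2 j) ≤ x 0 ^ (a - 1) * x 1 ^ (b + 1)) := by
  have hv2 : ((2 : Fin (k + 3)) : ℕ) = 2 := f1_v2 k
  have hv1 : ((1 : Fin (k + 3)) : ℕ) = 1 := f1_v1 k
  have h0 : ∀ i, x (T.1 i) ≤ x 0 := fun i => hx _ _ (Fin.zero_le _)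
  rcases tableau_cases (l := k + 1) hb hab hT hne with h | ⟨h1, h2, h3⟩
  · left
    have h4 : ∏ i, x (T.1 i) ≤ x 0 ^ a := by
      have := Finset.prod_le_pow_card Finset.univ (fun i => x (T.1 i)) (x 0) (fun i _ => h0 i)
      rwa [Finset.card_univ, Fintype.card_fin] at this
    have h5 : ∏ j, x (T.2 j) ≤ x 1 ^ (b - 1) * x 2 := by
      apply f1_prod ⟨b - 1, by omega⟩
      · intro j
        apply hx
        have h6 : T.1 ⟨j.val, by omega⟩ < T.2 j := ((mem_tableaux.mp hT).2.2 _ _ rfl)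
        rw [Fin.lt_def] at h6
        rw [Fin.le_def, hv1]
        omega
      · apply hx
        rw [Fin.le_def, hv2]
        exact h
    calc (∏ i, x (T.1 i)) * ∏ j, x (T.2 j) ≤ x 0 ^ a * (x 1 ^ (b - 1) * x 2) := Nat.mul_le_mul h4 h5
      _ = x 0 ^ a * x 1 ^ (b - 1) * x 2 := by ring
  · right
    refine ⟨h1, ?_⟩
    have h4 : ∏ i, x (T.1 i) ≤ x 0 ^ (a - 1) * x 1 := by
      apply f1_prod ⟨a - 1, by omega⟩ h0
      apply hx
      rw [Fin.le_def, hv1]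
      exact h3
    have h5 : ∏ j, x (T.2 j) = x 1 ^ b := by
      rw [Finset.prod_congr rfl (fun j _ => by rw [h2 j] : ∀ j ∈ Finset.univ, x (T.2 j) = x 1), Finset.prod_const,
        Finset.card_univ, Fintype.card_fin]
    rw [h5]
    calc (∏ i, x (T.1 i)) * x 1 ^ b ≤ (x 0 ^ (a - 1) * x 1) * x 1 ^ b := Nat.mul_le_mul_right _ h4
      _ = x 0 ^ (a - 1) * x 1 ^ (b + 1) := by ring

theorem f1_T0 {a b k : ℕ} : ((fun _ => 0, fun _ => 1) : (Fin a → Fin (k + 3)) × (Fin b → Fin (k + 3))) ∈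
    tableaux a b (k + 3) := by
  rw [mem_tableaux]
  refine ⟨fun _ _ _ => le_rfl, fun _ _ _ => le_rfl, fun _ _ _ => ?_⟩
  rw [Fin.lt_def]
  have hv1 : ((1 : Fin (k + 3)) : ℕ) = 1 := f1_v1 k
  have hv0 : ((0 : Fin (k + 3)) : ℕ) = 0 := rfl
  show ((0 : Fin (k + 3)) : ℕ) < ((1 : Fin (k + 3)) : ℕ)
  omega

theorem f1_T1 {a b k : ℕ} (hab : b < a) :
    ((fun i => if i.val = a - 1 then 1 else 0, fun _ => 1) : (Fin a → Fin (k + 3)) × (Fin b → Fin (k + 3))) ∈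
    tableaux a b (k + 3) := by
  have hv1 : ((1 : Fin (k + 3)) : ℕ) = 1 := f1_v1 k
  have hv0 : ((0 : Fin (k + 3)) : ℕ) = 0 := rfl
  rw [mem_tableaux]
  refine ⟨fun i j hij => ?_, fun _ _ _ => le_rfl, fun i j hij => ?_⟩
  · show (if i.val = a - 1 then (1 : Fin (k + 3)) else 0) ≤ (if j.val = a - 1 then (1 : Fin (k + 3)) else 0)
    rw [Fin.le_def] at hij
    have hi := i.2
    have hj := j.2
    by_cases h : i.val = a - 1
    · rw [if_pos h, if_pos (by omega)]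
    · rw [if_neg h]
      exact Fin.zero_le _
  · show (if i.val = a - 1 then (1 : Fin (k + 3)) else 0) < 1
    have hj := j.2
    rw [if_neg (by omega), Fin.lt_def, hv1, hv0]
    exact zero_lt_one

theorem f1_T2 {a b k : ℕ} :
    ((fun _ => 0, fun j => if j.val = b - 1 then 2 else 1) : (Fin a → Fin (k + 3)) × (Fin b → Fin (k + 3))) ∈
    tableaux a b (k + 3) := by
  have hv1 : ((1 : Fin (k + 3)) : ℕ) = 1 := f1_v1 k
  have hv2 : ((2 : Fin (k + 3)) : ℕ) = 2 := f1_v2 k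
  have hv0 : ((0 : Fin (k + 3)) : ℕ) = 0 := rfl
  rw [mem_tableaux]
  refine ⟨fun _ _ _ => le_rfl, fun i j hij => ?_, fun i j _ => ?_⟩
  · show (if i.val = b - 1 then (2 : Fin (k + 3)) else 1) ≤ (if j.val = b - 1 then (2 : Fin (k + 3)) else 1)
    rw [Fin.le_def] at hij ⊢
    have hi := i.2
    have hj := j.2
    split_ifs <;> omega
  · show (0 : Fin (k + 3)) < (if j.val = b - 1 then (2 : Fin (k + 3)) else 1)
    rw [Fin.lt_def]
    split_ifs <;> omega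

theorem f1_ite {n : ℕ} (hn : 1 ≤ n) (c d : ℕ) : ∏ i : Fin n, (if i.val = n - 1 then d else c) = c ^ (n - 1) * d := by
  obtain ⟨m, rfl⟩ : ∃ m, n = m + 1 := ⟨n - 1, by omega⟩
  rw [Fin.prod_univ_castSucc, Nat.add_sub_cancel]
  rw [Fin.val_last, if_pos rfl]
  congr 1
  rw [Finset.prod_congr rfl (fun i _ => by
    have := i.2
    rw [Fin.val_castSucc, if_neg (by omega)] : ∀ i ∈ (Finset.univ : Finset (Fin m)),
      (if (Fin.castSucc i).val = m then d else c) = c), Finset.prod_const, Finset.card_univ, Fintype.card_fin]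

theorem f1_split {a b k : ℕ} (x : Fin (k + 3) → ℕ) : ∃ S : Multiset ℕ, prsFun a b x = (x 0 ^ a * x 1 ^ b) ::ₘ S ∧
    (∀ z, z ∈ S ↔ ∃ T ∈ tableaux a b (k + 3), T ≠ (fun _ => 0, fun _ => 1) ∧
      z = (∏ i, x (T.1 i)) * ∏ j, x (T.2 j)) := by
  classical
  obtain ⟨T₀, hT₀⟩ : ∃ T₀ : (Fin a → Fin (k + 3)) × (Fin b → Fin (k + 3)), T₀ = (fun _ => 0, fun _ => 1) := ⟨_, rfl⟩
  have hmem : T₀ ∈ tableaux a b (k + 3) := by
    rw [hT₀]
    exact f1_T0
  refine ⟨((tableaux a b (k + 3)).erase T₀).val.map fun T => (∏ i, x (T.1 i)) * ∏ j, x (T.2 j), ?_, ?_⟩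
  · unfold prsFun
    have h1 : (tableaux a b (k + 3)).val = T₀ ::ₘ ((tableaux a b (k + 3)).erase T₀).val := by
      rw [Finset.erase_val]
      exact (Multiset.cons_erase hmem).symm
    have h2 : x 0 ^ a * x 1 ^ b = (∏ i, x (T₀.1 i)) * ∏ j, x (T₀.2 j) := by
      rw [hT₀]
      simp
    rw [h2]
    conv_lhs => rw [h1]
    rw [Multiset.map_cons]
  · intro z
    rw [Multiset.mem_map]
    constructor
    · rintro ⟨T, hT, rfl⟩
      rw [Finset.mem_val, Finset.mem_erase] at hT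
      exact ⟨T, hT.2, hT₀ ▸ hT.1, rfl⟩
    · rintro ⟨T, hT, hne, rfl⟩
      refine ⟨T, ?_, rfl⟩
      rw [Finset.mem_val, Finset.mem_erase]
      exact ⟨hT₀ ▸ hne, hT⟩

theorem f1_mem2 {a b k : ℕ} (hb : 1 ≤ b) (x : Fin (k + 3) → ℕ) :
    ∃ T ∈ tableaux a b (k + 3), T ≠ (fun _ => 0, fun _ => 1) ∧
      x 0 ^ a * x 1 ^ (b - 1) * x 2 = (∏ i, x (T.1 i)) * ∏ j, x (T.2 j) := by
  refine ⟨_, f1_T2, ?_, ?_⟩
  · intro h
    have h1 := congrFun (congrArg Prod.snd h) ⟨b - 1, by omega⟩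
    have h2 : (if (⟨b - 1, by omega⟩ : Fin b).val = b - 1 then (2 : Fin (k + 3)) else 1) = 1 := h1
    rw [if_pos rfl] at h2
    have h3 := congrArg Fin.val h2
    have hv1 : ((1 : Fin (k + 3)) : ℕ) = 1 := f1_v1 k
    have hv2 : ((2 : Fin (k + 3)) : ℕ) = 2 := f1_v2 k
    rw [hv1, hv2] at h3
    exact absurd h3 (by norm_num)
  · have h1 : ∏ j : Fin b, x (if j.val = b - 1 then 2 else 1) = x 1 ^ (b - 1) * x 2 := by
      rw [← f1_ite hb]
      apply Finset.prod_congr rfl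
      intro j _
      split_ifs <;> rfl
    show x 0 ^ a * x 1 ^ (b - 1) * x 2 = (∏ i : Fin a, x 0) * ∏ j : Fin b, x (if j.val = b - 1 then 2 else 1)
    rw [h1, Finset.prod_const, Finset.card_univ, Fintype.card_fin, mul_assoc]

theorem f1_mem1 {a b k : ℕ} (hab : b < a) (x : Fin (k + 3) → ℕ) :
    ∃ T ∈ tableaux a b (k + 3), T ≠ (fun _ => 0, fun _ => 1) ∧
      x 0 ^ (a - 1) * x 1 ^ (b + 1) = (∏ i, x (T.1 i)) * ∏ j, x (T.2 j) := by
  refine ⟨_, f1_T1 hab, ?_, ?_⟩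
  · intro h
    have h1 := congrFun (congrArg Prod.fst h) ⟨a - 1, by omega⟩
    have h2 : (if (⟨a - 1, by omega⟩ : Fin a).val = a - 1 then (1 : Fin (k + 3)) else 0) = 0 := h1
    rw [if_pos rfl] at h2
    have h3 := congrArg Fin.val h2
    have hv1 : ((1 : Fin (k + 3)) : ℕ) = 1 := f1_v1 k
    rw [hv1] at h3
    exact absurd h3 (by norm_num)
  · have h1 : ∏ i : Fin a, x (if i.val = a - 1 then 1 else 0) = x 0 ^ (a - 1) * x 1 := by
      rw [← f1_ite (by omega)]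
      apply Finset.prod_congr rfl
      intro j _
      split_ifs <;> rfl
    show x 0 ^ (a - 1) * x 1 ^ (b + 1) = (∏ i : Fin a, x (if i.val = a - 1 then 1 else 0)) * ∏ j : Fin b, x 1
    rw [h1, Finset.prod_const, Finset.card_univ, Fintype.card_fin]
    ring

theorem f1_le2 {a b k : ℕ} (hb : 1 ≤ b) {x : Fin (k + 3) → ℕ} (hx : ∀ i j, i ≤ j → x j ≤ x i) :
    x 0 ^ a * x 1 ^ (b - 1) * x 2 ≤ x 0 ^ a * x 1 ^ b := by
  have hv1 : ((1 : Fin (k + 3)) : ℕ) = 1 := f1_v1 k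
  have hv2 : ((2 : Fin (k + 3)) : ℕ) = 2 := f1_v2 k
  have h1 : x 2 ≤ x 1 := hx 1 2 (by
    rw [Fin.le_def, hv1, hv2]
    norm_num)
  obtain ⟨m, rfl⟩ : ∃ m, b = m + 1 := ⟨b - 1, by omega⟩
  rw [Nat.add_sub_cancel, pow_succ, mul_assoc]
  exact Nat.mul_le_mul_left _ (Nat.mul_le_mul_left _ h1)

theorem f1_le1 {a b k : ℕ} (hab : b < a) {x : Fin (k + 3) → ℕ} (hx : ∀ i j, i ≤ j → x j ≤ x i) :
    x 0 ^ (a - 1) * x 1 ^ (b + 1) ≤ x 0 ^ a * x 1 ^ b := by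
  have h1 : x 1 ≤ x 0 := hx 0 1 (Fin.zero_le _)
  obtain ⟨m, rfl⟩ : ∃ m, a = m + 1 := ⟨a - 1, by omega⟩
  rw [Nat.add_sub_cancel, pow_succ, pow_succ, mul_assoc, mul_comm (x 0) (x 1 ^ b)]
  exact Nat.mul_le_mul_left _ (Nat.mul_le_mul_left _ h1)

/-- `b < a`. The tableau `T₀` gives the largest element `x 0 ^ a * x 1 ^ b`; all others are at
most the maximum below (`tableau_cases`; all entries of the second row are `≥ 1`), and both
values are attained: first row `0, …, 0, 1` and second row `1, …, 1`; first row `0, …, 0` and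
second row `1, …, 1, 2`. -/
theorem top_two {a b k : ℕ} (hb : 1 ≤ b) (hab : b < a) {x : Fin (k + 3) → ℕ}
    (hx : ∀ i j, i ≤ j → x j ≤ x i) (hx0 : ∀ i, 0 < x i) :
    ∃ S : Multiset ℕ, prsFun a b x = (x 0 ^ a * x 1 ^ b) ::ₘ S ∧
      max (x 0 ^ (a - 1) * x 1 ^ (b + 1)) (x 0 ^ a * x 1 ^ (b - 1) * x 2) ∈ S ∧
      (∀ z ∈ S, z ≤ max (x 0 ^ (a - 1) * x 1 ^ (b + 1)) (x 0 ^ a * x 1 ^ (b - 1) * x 2)) ∧
      max (x 0 ^ (a - 1) * x 1 ^ (b + 1)) (x 0 ^ a * x 1 ^ (b - 1) * x 2) ≤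
        x 0 ^ a * x 1 ^ b := by
  obtain ⟨S, hS, hmem⟩ := f1_split (a := a) (b := b) x
  refine ⟨S, hS, ?_, ?_, max_le (f1_le1 hab hx) (f1_le2 hb hx)⟩
  · rcases max_cases (x 0 ^ (a - 1) * x 1 ^ (b + 1)) (x 0 ^ a * x 1 ^ (b - 1) * x 2) with ⟨h, -⟩ | ⟨h, -⟩
    · rw [h, hmem]
      exact f1_mem1 hab x
    · rw [h, hmem]
      exact f1_mem2 hb x
  · intro z hz
    obtain ⟨T, hT, hne, rfl⟩ := (hmem z).mp hz
    rcases f1_bound hb hab.le hx hT hne with h | ⟨-, h⟩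
    · exact h.trans (le_max_right _ _)
    · exact h.trans (le_max_left _ _)

/-- `a = b`. -/
theorem top_two_rect {b k : ℕ} (hb : 1 ≤ b) {x : Fin (k + 3) → ℕ}
    (hx : ∀ i j, i ≤ j → x j ≤ x i) (hx0 : ∀ i, 0 < x i) :
    ∃ S : Multiset ℕ, prsFun b b x = (x 0 ^ b * x 1 ^ b) ::ₘ S ∧
      x 0 ^ b * x 1 ^ (b - 1) * x 2 ∈ S ∧
      (∀ z ∈ S, z ≤ x 0 ^ b * x 1 ^ (b - 1) * x 2) ∧
      x 0 ^ b * x 1 ^ (b - 1) * x 2 ≤ x 0 ^ b * x 1 ^ b := by
  obtain ⟨S, hS, hmem⟩ := f1_split (a := b) (b := b) x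
  refine ⟨S, hS, ?_, ?_, f1_le2 hb hx⟩
  · rw [hmem]
    exact f1_mem2 hb x
  · intro z hz
    obtain ⟨T, hT, hne, rfl⟩ := (hmem z).mp hz
    rcases f1_bound hb le_rfl hx hT hne with h | ⟨h1, -⟩
    · exact h
    · exact absurd h1 (lt_irrefl _)

end Pool.Agent.Lib.H70S
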