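import Pool.Agent.Lib.H70S.F1

/-! # Chunk F2 (S/M): the two smallest elements of `prsFun` for nondecreasing entries -/

namespace Pool.Agent.Lib.H70S

open Pool.Agent.SchurTwoRow

theorem f2_val_two {k : ℕ} : ((2 : Fin (k + 3)) : ℕ) = 2 := by
  have : ((2 : Fin (k + 3)) : ℕ) = 2 % (k + 3) := rfl
  rw [this]
  exact Nat.mod_eq_of_lt (by omega)

theorem f2_row2 {a b l : ℕ} (hab : b ≤ a)
    {T : (Fin a → Fin (l + 2)) × (Fin b → Fin (l + 2))} (hT : T ∈ tableaux a b (l + 2))
    (j : Fin b) : (1 : Fin (l + 2)) ≤ T.2 j := by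
  have h := (mem_tableaux.1 hT).2.2 ⟨j.val, by omega⟩ j rfl
  rw [Fin.le_def]
  rw [Fin.lt_def] at h
  have : ((1 : Fin (l + 2)) : ℕ) = 1 := by simp
  omega

theorem f2_T0 {a b l : ℕ} :
    ((fun _ => 0, fun _ => 1) : (Fin a → Fin (l + 2)) × (Fin b → Fin (l + 2))) ∈
      tableaux a b (l + 2) := by
  rw [mem_tableaux]
  refine ⟨fun _ _ _ => le_rfl, fun _ _ _ => le_rfl, fun _ _ _ => ?_⟩
  rw [Fin.lt_def]
  simp

theorem f2_prod_ge {n : ℕ} (hn : 1 ≤ n) (f : Fin n → ℕ) (c d : ℕ) (h : ∀ i, c ≤ f i)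
    (hl : d ≤ f ⟨n - 1, by omega⟩) : c ^ (n - 1) * d ≤ ∏ i, f i := by
  obtain ⟨m, rfl⟩ : ∃ m, n = m + 1 := ⟨n - 1, by omega⟩
  rw [Fin.prod_univ_castSucc, Nat.add_sub_cancel]
  refine Nat.mul_le_mul ?_ hl
  calc c ^ m = ∏ _i : Fin m, c := by simp
    _ ≤ _ := Finset.prod_le_prod (fun _ _ => Nat.zero_le _) (fun i _ => h _)

theorem f2_prod_eq {n : ℕ} (hn : 1 ≤ n) (f : Fin n → ℕ) (c d : ℕ)
    (h : ∀ i : Fin n, i.val ≠ n - 1 → f i = c)
    (hl : f ⟨n - 1, by omega⟩ = d) : ∏ i, f i = c ^ (n - 1) * d := by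
  obtain ⟨m, rfl⟩ : ∃ m, n = m + 1 := ⟨n - 1, by omega⟩
  rw [Fin.prod_univ_castSucc, Nat.add_sub_cancel]
  congr 1
  calc _ = ∏ _i : Fin m, c := by
        refine Finset.prod_congr rfl (fun i _ => h _ ?_)
        have := i.isLt
        simp only [Fin.val_castSucc]
        omega
    _ = _ := by simp

theorem f2_prod_const_ge {n : ℕ} (f : Fin n → ℕ) (c : ℕ) (h : ∀ i, c ≤ f i) :
    c ^ n ≤ ∏ i, f i := by
  calc c ^ n = ∏ _i : Fin n, c := by simp
    _ ≤ _ := Finset.prod_le_prod (fun _ _ => Nat.zero_le _) (fun i _ => h _)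

theorem f2_prod_const_le {n : ℕ} (f : Fin n → ℕ) (c : ℕ) (h : ∀ i, f i ≤ c) :
    ∏ i, f i ≤ c ^ n := by
  calc _ ≤ ∏ _i : Fin n, c := Finset.prod_le_prod (fun _ _ => Nat.zero_le _) (fun i _ => h _)
    _ = _ := by simp

/-- The same as `top_two` with all inequalities reversed. -/
theorem bot_two {a b k : ℕ} (hb : 1 ≤ b) (hab : b < a) {x : Fin (k + 3) → ℕ}
    (hx : ∀ i j, i ≤ j → x i ≤ x j) (hx0 : ∀ i, 0 < x i) :
    ∃ S : Multiset ℕ, prsFun a b x = (x 0 ^ a * x 1 ^ b) ::ₘ S ∧
      min (x 0 ^ (a - 1) * x 1 ^ (b + 1)) (x 0 ^ a * x 1 ^ (b - 1) * x 2) ∈ S ∧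
      (∀ z ∈ S, min (x 0 ^ (a - 1) * x 1 ^ (b + 1)) (x 0 ^ a * x 1 ^ (b - 1) * x 2) ≤ z) ∧
      x 0 ^ a * x 1 ^ b ≤
        min (x 0 ^ (a - 1) * x 1 ^ (b + 1)) (x 0 ^ a * x 1 ^ (b - 1) * x 2) := by
  classical
  set F : (Fin a → Fin (k + 3)) × (Fin b → Fin (k + 3)) → ℕ :=
    fun T => (∏ i, x (T.1 i)) * ∏ j, x (T.2 j) with hF
  set T0 : (Fin a → Fin (k + 3)) × (Fin b → Fin (k + 3)) := (fun _ => 0, fun _ => 1) with hT0
  have hT0m : T0 ∈ tableaux a b (k + 3) := f2_T0 (l := k + 1)
  have hv0 : F T0 = x 0 ^ a * x 1 ^ b := by simp [hF, hT0]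
  have h12 : (1 : Fin (k + 3)) ≤ 2 := by
    rw [Fin.le_def, f2_val_two]
    simp
  have h01 : (0 : Fin (k + 3)) < 1 := by
    rw [Fin.lt_def]
    simp
  have h02 : (0 : Fin (k + 3)) < 2 := lt_of_lt_of_le h01 h12
  have x01 : x 0 ≤ x 1 := hx _ _ h01.le
  have x12 : x 1 ≤ x 2 := hx _ _ h12
  refine ⟨((tableaux a b (k + 3)).erase T0).val.map F, ?_, ?_, ?_, ?_⟩
  · rw [← hv0, ← Multiset.map_cons]
    unfold prsFun
    congr 1
    rw [Finset.erase_val, Multiset.cons_erase]
    exact hT0m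
  · have m1 : x 0 ^ (a - 1) * x 1 ^ (b + 1) ∈ ((tableaux a b (k + 3)).erase T0).val.map F := by
      rw [Multiset.mem_map]
      refine ⟨(fun i => if i.val = a - 1 then 1 else 0, fun _ => 1), ?_, ?_⟩
      · rw [Finset.mem_val, Finset.mem_erase]
        constructor
        · intro h
          have h1 := congrFun (congrArg Prod.fst h) (⟨a - 1, by omega⟩ : Fin a)
          simp only [hT0, if_true] at h1
          exact h01.ne' h1
        · rw [mem_tableaux]
          refine ⟨?_, fun _ _ _ => le_rfl, ?_⟩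
          · intro i j hij
            dsimp only
            by_cases hi : i.val = a - 1
            · have hj : j.val = a - 1 := by
                have := j.isLt
                rw [Fin.le_def] at hij
                omega
              rw [if_pos hi, if_pos hj]
            · rw [if_neg hi]
              exact Fin.zero_le _
          · intro i j hij
            have : i.val ≠ a - 1 := by
              have := j.isLt
              omega
            dsimp only
            rw [if_neg this]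
            exact h01
      · simp only [hF]
        rw [f2_prod_eq (by omega : 1 ≤ a) (fun i : Fin a => x (if i.val = a - 1 then 1 else 0))
          (x 0) (x 1)]
        · simp only [Finset.prod_const, Finset.card_univ, Fintype.card_fin]
          rw [pow_succ]
          ring
        · intro i hi
          rw [if_neg hi]
        · rw [if_pos rfl]
    have m2 : x 0 ^ a * x 1 ^ (b - 1) * x 2 ∈ ((tableaux a b (k + 3)).erase T0).val.map F := by
      rw [Multiset.mem_map]
      refine ⟨(fun _ => 0, fun j => if j.val = b - 1 then 2 else 1), ?_, ?_⟩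
      · rw [Finset.mem_val, Finset.mem_erase]
        constructor
        · intro h
          have h1 := congrFun (congrArg Prod.snd h) (⟨b - 1, by omega⟩ : Fin b)
          simp only [hT0, if_true] at h1
          have h2 := congrArg Fin.val h1
          rw [f2_val_two] at h2
          simp at h2
        · rw [mem_tableaux]
          refine ⟨fun _ _ _ => le_rfl, ?_, ?_⟩
          · intro i j hij
            dsimp only
            by_cases hi : i.val = b - 1
            · have hj : j.val = b - 1 := by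
                have := j.isLt
                rw [Fin.le_def] at hij
                omega
              rw [if_pos hi, if_pos hj]
            · rw [if_neg hi]
              split_ifs
              · exact h12
              · exact le_rfl
          · intro i j _
            dsimp only
            split_ifs
            · exact h02
            · exact h01
      · simp only [hF]
        rw [f2_prod_eq hb (fun i : Fin b => x (if i.val = b - 1 then 2 else 1))
          (x 1) (x 2)]
        · simp only [Finset.prod_const, Finset.card_univ, Fintype.card_fin]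
          ring
        · intro i hi
          rw [if_neg hi]
        · rw [if_pos rfl]
    rcases min_choice (x 0 ^ (a - 1) * x 1 ^ (b + 1)) (x 0 ^ a * x 1 ^ (b - 1) * x 2) with h | h
    · rw [h]; exact m1
    · rw [h]; exact m2
  · intro z hz
    rw [Multiset.mem_map] at hz
    obtain ⟨T, hT, rfl⟩ := hz
    rw [Finset.mem_val, Finset.mem_erase] at hT
    have r2 := f2_row2 (l := k + 1) hab.le hT.2
    rcases tableau_cases (l := k + 1) hb hab.le hT.2 hT.1 with h | ⟨_, h1, h2⟩
    · refine (min_le_right _ _).trans ?_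
      have p1 : x 0 ^ a ≤ ∏ i, x (T.1 i) :=
        f2_prod_const_ge _ _ (fun i => hx _ _ (Fin.zero_le _))
      have p2 : x 1 ^ (b - 1) * x 2 ≤ ∏ j, x (T.2 j) := by
        refine f2_prod_ge hb _ _ _ (fun j => hx _ _ (r2 j)) (hx _ _ ?_)
        rw [Fin.le_def, f2_val_two]
        exact h
      rw [mul_assoc]
      exact Nat.mul_le_mul p1 p2
    · refine (min_le_left _ _).trans ?_
      have p1 : x 0 ^ (a - 1) * x 1 ≤ ∏ i, x (T.1 i) := by
        refine f2_prod_ge (by omega) _ _ _ (fun j => hx _ _ (Fin.zero_le _)) (hx _ _ ?_)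
        rw [Fin.le_def]
        have : ((1 : Fin (k + 3)) : ℕ) = 1 := by simp
        rw [this]
        exact h2
      have p2 : x 1 ^ b = ∏ j, x (T.2 j) := by
        have : (fun j => x (T.2 j)) = fun _ : Fin b => x 1 := by
          funext j
          rw [h1 j]
        rw [this]
        simp
      calc x 0 ^ (a - 1) * x 1 ^ (b + 1) = (x 0 ^ (a - 1) * x 1) * x 1 ^ b := by
            rw [pow_succ]; ring
        _ ≤ _ := by
          show _ ≤ (∏ i, x (T.1 i)) * ∏ j, x (T.2 j)
          rw [← p2]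
          exact Nat.mul_le_mul_right _ p1
  · refine le_min ?_ ?_
    · obtain ⟨m, rfl⟩ : ∃ m, a = m + 1 := ⟨a - 1, by omega⟩
      rw [Nat.add_sub_cancel, pow_succ, pow_succ]
      calc x 0 ^ m * x 0 * x 1 ^ b ≤ x 0 ^ m * x 1 * x 1 ^ b :=
            Nat.mul_le_mul_right _ (Nat.mul_le_mul_left _ x01)
        _ = _ := by ring
    · obtain ⟨m, rfl⟩ : ∃ m, b = m + 1 := ⟨b - 1, by omega⟩
      rw [Nat.add_sub_cancel, pow_succ, ← mul_assoc]
      exact Nat.mul_le_mul_left _ x12

/-- The smallest element, for `b ≤ a` and nondecreasing entries. -/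
theorem bot_one {a b k : ℕ} (hb : 1 ≤ b) (hab : b ≤ a) {x : Fin (k + 2) → ℕ}
    (hx : ∀ i j, i ≤ j → x i ≤ x j) (hx0 : ∀ i, 0 < x i) :
    x 0 ^ a * x 1 ^ b ∈ prsFun a b x ∧ ∀ z ∈ prsFun a b x, x 0 ^ a * x 1 ^ b ≤ z := by
  constructor
  · unfold prsFun
    rw [Multiset.mem_map]
    exact ⟨(fun _ => 0, fun _ => 1), f2_T0, by simp⟩
  · intro z hz
    unfold prsFun at hz
    rw [Multiset.mem_map] at hz
    obtain ⟨T, hT, rfl⟩ := hz
    exact Nat.mul_le_mul (f2_prod_const_ge _ _ (fun i => hx _ _ (Fin.zero_le _)))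
      (f2_prod_const_ge _ _ (fun j => hx _ _ (f2_row2 hab hT j)))

/-- The largest element, for `b ≤ a` and nonincreasing entries. -/
theorem top_one {a b k : ℕ} (hb : 1 ≤ b) (hab : b ≤ a) {x : Fin (k + 2) → ℕ}
    (hx : ∀ i j, i ≤ j → x j ≤ x i) (hx0 : ∀ i, 0 < x i) :
    x 0 ^ a * x 1 ^ b ∈ prsFun a b x ∧ ∀ z ∈ prsFun a b x, z ≤ x 0 ^ a * x 1 ^ b := by
  constructor
  · unfold prsFun
    rw [Multiset.mem_map]
    exact ⟨(fun _ => 0, fun _ => 1), f2_T0, by simp⟩
  · intro z hz
    unfold prsFun at hz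
    rw [Multiset.mem_map] at hz
    obtain ⟨T, hT, rfl⟩ := hz
    exact Nat.mul_le_mul (f2_prod_const_le _ _ (fun i => hx _ _ (Fin.zero_le _)))
      (f2_prod_const_le _ _ (fun j => hx _ _ (f2_row2 hab hT j)))

end Pool.Agent.Lib.H70S
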