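import Pool.Agent.Lib.H70S.JDefs

/-! # Chunk N1 (S/M): Newton's identities over a commutative ring -/

namespace Pool.Agent.Lib.H70S

open Pool.Agent.SchurTwoRow

variable {R : Type*} [CommRing R]

theorem hR_zero {l : ℕ} (u : Fin l → R) : hR 0 u = 1 := by
  unfold hR
  have : words 0 l = Finset.univ := by
    ext r
    simp only [mem_words, Finset.mem_univ, iff_true]
    intro i; exact i.elim0
  rw [this]
  simp

theorem n1_succ_empty (m : ℕ) (u : Fin 0 → R) : hR (m + 1) u = 0 := by
  unfold hR
  have : words (m + 1) 0 = ∅ := by
    ext r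
    exact (r 0).elim0
  rw [this]; simp

theorem n1_succ (m : ℕ) {l : ℕ} (u : Fin (l + 1) → R) :
    hR (m + 1) u = u 0 * hR m u + hR (m + 1) (fun i : Fin l => u i.succ) := by
  classical
  unfold hR
  rw [← Finset.sum_filter_add_sum_filter_not (words (m + 1) (l + 1)) (fun r => r 0 = 0)]
  congr 1
  · rw [Finset.mul_sum]
    refine Finset.sum_nbij' (fun r => Fin.tail r) (fun r => (Fin.cons 0 r : Fin (m + 1) → Fin (l + 1)))
      ?_ ?_ ?_ ?_ ?_
    · intro r hr
      simp only [Finset.mem_filter, mem_words] at hr ⊢
      intro i j hij
      exact hr.1 (Fin.succ_le_succ_iff.2 hij)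
    · intro r hr
      simp only [Finset.mem_filter, mem_words] at hr ⊢
      exact ⟨monotone_cons_zero r hr, by simp⟩
    · intro r hr
      simp only [Finset.mem_filter, mem_words] at hr
      have := Fin.cons_self_tail r
      rw [hr.2] at this
      exact this
    · intro r hr
      simp
    · intro r hr
      simp only [Finset.mem_filter, mem_words] at hr
      rw [Fin.prod_univ_succ, hr.2]
      rfl
  · have key : ∀ r : Fin (m + 1) → Fin (l + 1), Monotone r → r 0 ≠ 0 → ∀ i, r i ≠ 0 := by
      intro r hr h0 i hi
      apply h0
      have := hr (Fin.zero_le i)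
      rw [hi] at this
      exact le_antisymm this (Fin.zero_le _)
    symm
    refine Finset.sum_bij (fun r _ => fun i => (r i).succ) ?_ ?_ ?_ ?_
    · intro r hr
      simp only [Finset.mem_filter, mem_words] at hr ⊢
      exact ⟨fun i j hij => Fin.succ_le_succ_iff.2 (hr hij), Fin.succ_ne_zero _⟩
    · intro r hr r' hr' h
      funext i
      exact Fin.succ_injective _ (congrFun h i)
    · intro r hr
      simp only [Finset.mem_filter, mem_words] at hr
      have h := key r hr.1 hr.2
      refine ⟨fun i => (r i).pred (h i), ?_, ?_⟩
      · simp only [mem_words]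
        intro i j hij
        exact Fin.pred_le_pred_iff.2 (hr.1 hij)
      · funext i; simp
    · intro r hr
      rfl

open PowerSeries in
/-- Generating function of the complete homogeneous sums. -/
noncomputable def n1_hgen {l : ℕ} (u : Fin l → R) : PowerSeries R := PowerSeries.mk fun m => hR m u

/-- Generating function of the power sums of positive degree. -/
noncomputable def n1_pgen {l : ℕ} (u : Fin l → R) : PowerSeries R :=
  PowerSeries.mk fun k => if k = 0 then 0 else pR k u

theorem n1_hgen_zero (u : Fin 0 → R) : n1_hgen u = 1 := by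
  ext m
  cases m with
  | zero => simp [n1_hgen, hR_zero]
  | succ m => simp [n1_hgen, n1_succ_empty, PowerSeries.coeff_one]

theorem n1_hgen_succ {l : ℕ} (u : Fin (l + 1) → R) :
    (1 - PowerSeries.C (u 0) * PowerSeries.X) * n1_hgen u = n1_hgen (fun i : Fin l => u i.succ) := by
  ext m
  rw [sub_mul, one_mul, map_sub, mul_assoc, PowerSeries.coeff_C_mul]
  cases m with
  | zero => simp [n1_hgen, hR_zero]
  | succ m =>
    rw [PowerSeries.coeff_succ_X_mul]
    simp only [n1_hgen, PowerSeries.coeff_mk]
    rw [n1_succ]; ring

theorem n1_pgen_succ {l : ℕ} (u : Fin (l + 1) → R) :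
    (1 - PowerSeries.C (u 0) * PowerSeries.X) * (n1_pgen u - n1_pgen (fun i : Fin l => u i.succ)) =
      PowerSeries.C (u 0) * PowerSeries.X := by
  have h1 : n1_pgen u - n1_pgen (fun i : Fin l => u i.succ) =
      PowerSeries.mk (fun k => if k = 0 then 0 else u 0 ^ k) := by
    ext k
    simp only [n1_pgen, map_sub, PowerSeries.coeff_mk, pR]
    split_ifs
    · simp
    · rw [Fin.sum_univ_succ]; ring
  rw [h1]
  ext m
  rw [sub_mul, one_mul, map_sub, mul_assoc, PowerSeries.coeff_C_mul, PowerSeries.coeff_C_mul]
  cases m with
  | zero => simp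
  | succ m =>
    rw [PowerSeries.coeff_succ_X_mul]
    simp only [PowerSeries.coeff_mk, PowerSeries.coeff_X]
    cases m with
    | zero => simp
    | succ m => simp [pow_succ]; ring

theorem n1_gen {l : ℕ} (u : Fin l → R) :
    PowerSeries.X * PowerSeries.derivative R (n1_hgen u) = n1_hgen u * n1_pgen u := by
  induction l with
  | zero =>
    rw [n1_hgen_zero]
    have : n1_pgen u = 0 := by
      ext k; simp [n1_pgen, pR]
    rw [this]; simp
  | succ l ih =>
    set v : Fin l → R := fun i => u i.succ with hv
    have e1 := n1_hgen_succ u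
    have e2 := n1_pgen_succ u
    have e3 := ih v
    rw [← hv] at e1 e2
    set c : PowerSeries R := PowerSeries.C (u 0) * PowerSeries.X with hc
    have dc : PowerSeries.derivative R c = PowerSeries.C (u 0) := by
      rw [hc]; simp
    have e4 : PowerSeries.derivative R (n1_hgen v) =
        -(PowerSeries.C (u 0)) * n1_hgen u + (1 - c) * PowerSeries.derivative R (n1_hgen u) := by
      rw [← e1, Derivation.leibniz]
      simp only [map_sub, dc, smul_eq_mul]
      simp
      ring
    have hne : IsUnit (1 - c) := by
      rw [PowerSeries.isUnit_iff_constantCoeff, hc]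
      simp
    apply hne.mul_left_cancel
    rw [e4, ← e1] at e3
    have e5 : PowerSeries.X * PowerSeries.C (u 0) = c := by rw [hc]; ring
    calc (1 - c) * (PowerSeries.X * PowerSeries.derivative R (n1_hgen u))
        = PowerSeries.X * (-(PowerSeries.C (u 0)) * n1_hgen u +
            (1 - c) * PowerSeries.derivative R (n1_hgen u)) +
            (PowerSeries.X * PowerSeries.C (u 0)) * n1_hgen u := by ring
      _ = (1 - c) * n1_hgen u * n1_pgen v + c * n1_hgen u := by rw [e3, e5]
      _ = (1 - c) * (n1_hgen u * n1_pgen u) := by
          linear_combination (-(n1_hgen u)) * e2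

/-- Newton's identity `m h_m = ∑_(i < m) p_(i+1) h_(m-1-i)`: the proof of `newton` in
`SchurTwoRow/HSum.lean` (theorems `hsum_zero` to `newton`) word for word, with `R` in place of the
real numbers. (In `newton_gen` the factor `1 - c` has constant coefficient `1`; over a ring with
zero divisors use that it is a unit, `PowerSeries.isUnit_iff_constantCoeff`, or multiply the
identity by the inverse power series.) -/
theorem newtonR (m : ℕ) {l : ℕ} (u : Fin l → R) :
    (m : R) * hR m u = ∑ i ∈ Finset.range m, pR (i + 1) u * hR (m - 1 - i) u := by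
  cases m with
  | zero => simp
  | succ m =>
    have h := congrArg (PowerSeries.coeff (m + 1)) (n1_gen u)
    rw [PowerSeries.coeff_succ_X_mul, mul_comm (n1_hgen u), PowerSeries.coeff_mul,
      Finset.Nat.sum_antidiagonal_eq_sum_range_succ_mk, Finset.sum_range_succ'] at h
    rw [PowerSeries.coeff_derivative] at h
    simp only [n1_hgen, n1_pgen, PowerSeries.coeff_mk] at h
    simp only [Nat.add_eq_zero_iff, one_ne_zero, and_false, if_false] at h
    simp only [if_true, zero_mul, add_zero] at h
    rw [mul_comm]
    push_cast
    rw [h]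
    apply Finset.sum_congr rfl
    intro i hi
    rw [Finset.mem_range] at hi
    congr 2
    omega

end Pool.Agent.Lib.H70S
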