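import Pool.Agent.Lib.H70S.J3
import Pool.Agent.Lib.H70S.N1

/-! # Chunk V0 (M): `prsFun` is symmetric -/

namespace Pool.Agent.Lib.H70S

open Pool.Agent.SchurTwoRow

/-- Over the real numbers the complete symmetric polynomials are determined by the power sums
(strong induction on `m` with `newtonR`, division by `m`). -/
theorem hR_congr {l l' : ℕ} {u : Fin l → ℝ} {v : Fin l' → ℝ} (h : ∀ k, 1 ≤ k → pR k u = pR k v)
    (m : ℕ) : hR m u = hR m v := by
  induction m using Nat.strong_induction_on with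
  | _ m ih =>
    rcases Nat.eq_zero_or_pos m with hm | hm
    · subst hm
      rw [hR_zero, hR_zero]
    · have h1 := newtonR m u
      have h2 := newtonR m v
      have h3 : ∑ i ∈ Finset.range m, pR (i + 1) u * hR (m - 1 - i) u =
          ∑ i ∈ Finset.range m, pR (i + 1) v * hR (m - 1 - i) v := by
        refine Finset.sum_congr rfl fun i hi => ?_
        rw [Finset.mem_range] at hi
        rw [h (i + 1) (by omega), ih (m - 1 - i) (by omega)]
      rw [← h1, ← h2] at h3
      have hm' : (m : ℝ) ≠ 0 := by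
        have : (0 : ℝ) < m := by exact_mod_cast hm
        exact this.ne'
      exact mul_left_cancel₀ hm' h3

theorem v0_pos {a b l : ℕ} {x : Fin l → ℕ} (hx : ∀ i, 0 < x i) :
    ∀ z ∈ prsFun a b x, 0 < z := by
  intro z hz
  unfold prsFun at hz
  rw [Multiset.mem_map] at hz
  obtain ⟨T, _, rfl⟩ := hz
  exact Nat.mul_pos (Finset.prod_pos fun i _ => hx _) (Finset.prod_pos fun i _ => hx _)

theorem v0_sum {a b l : ℕ} (x : Fin l → ℕ) (k : ℕ) :
    ((prsFun a b x).map fun z : ℕ => (z : ℝ) ^ (k + 1)).sum =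
      sR a b (fun i => (x i : ℝ) ^ (k + 1)) := by
  unfold prsFun sR
  rw [Multiset.map_map]
  show (Finset.sum (tableaux a b l) _) = _
  refine Finset.sum_congr rfl fun T _ => ?_
  simp only [Function.comp]
  push_cast
  rw [mul_pow, ← Finset.prod_pow, ← Finset.prod_pow]

theorem v0_pR {l : ℕ} (x : Fin l → ℕ) (k j : ℕ) :
    pR j (fun i => (x i : ℝ) ^ (k + 1)) =
      ((Finset.univ.val.map x).map fun z : ℕ => ((z : ℝ) ^ (k + 1)) ^ j).sum := by
  unfold pR
  rw [Multiset.map_map]
  rfl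

/-- By `eq_of_pow_sums` it is enough to compare `∑ z ^ (k+1)` over the two multisets `prsFun`;
these sums are `sR a b u` with `u i = x i ^ (k+1)` (`Finset.prod_pow`), so `jacobi_trudi` and
`hR_congr` apply. -/
theorem prsFun_congr {a b : ℕ} (hb : 1 ≤ b) (hab : b ≤ a) {l l' : ℕ} {x : Fin l → ℕ}
    {y : Fin l' → ℕ} (hx : ∀ i, 0 < x i) (hy : ∀ i, 0 < y i)
    (h : (Finset.univ.val.map x) = (Finset.univ.val.map y)) :
    prsFun a b x = prsFun a b y := by
  refine eq_of_pow_sums (v0_pos hx) (v0_pos hy) fun k => ?_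
  rw [v0_sum, v0_sum, jacobi_trudi hb hab, jacobi_trudi hb hab]
  have hp : ∀ j, 1 ≤ j → pR j (fun i => (x i : ℝ) ^ (k + 1)) = pR j (fun i => (y i : ℝ) ^ (k + 1)) := by
    intro j _
    rw [v0_pR, v0_pR, h]
  rw [hR_congr hp a, hR_congr hp b, hR_congr hp (a + 1), hR_congr hp (b - 1)]

/-- `PRS` in terms of any ordering of the elements. -/
theorem PRS_map {a b : ℕ} (hb : 1 ≤ b) (hab : b ≤ a) {l : ℕ} {x : Fin l → ℕ}
    (hx : ∀ i, 0 < x i) : PRS a b (Finset.univ.val.map x) = prsFun a b x := by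
  unfold PRS
  set L := (Finset.univ.val.map x).sort (fun x y => y ≤ x) with hL
  have h1 : (Finset.univ.val.map L.get) = Finset.univ.val.map x := by
    rw [Fin.univ_val_map, List.ofFn_get, hL, Multiset.sort_eq]
  refine prsFun_congr hb hab ?_ hx h1
  intro i
  have h2 : L.get i ∈ Finset.univ.val.map x := by
    rw [← h1, Multiset.mem_map]
    exact ⟨i, Finset.mem_univ_val i, rfl⟩
  rw [Multiset.mem_map] at h2
  obtain ⟨j, _, hj⟩ := h2
  rw [← hj]
  exact hx j

end Pool.Agent.Lib.H70S
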