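import Pool.Agent.Lib.H70S.F2
import Pool.Agent.Lib.H70S.V0

/-! # Chunk F3 (M): relations between the logarithms -/

namespace Pool.Agent.Lib.H70S

open Pool.Agent.SchurTwoRow

theorem f3_log {a b u v : ℕ} (hu : 0 < u) (hv : 0 < v) :
    Real.log ((u ^ a * v ^ b : ℕ) : ℝ) = (a : ℝ) * Real.log u + b * Real.log v := by
  have hu' : (u : ℝ) ≠ 0 := by exact_mod_cast hu.ne'
  have hv' : (v : ℝ) ≠ 0 := by exact_mod_cast hv.ne'
  push_cast
  rw [Real.log_mul (pow_ne_zero _ hu') (pow_ne_zero _ hv'), Real.log_pow, Real.log_pow]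

theorem f3_rev {a b l : ℕ} (hb : 1 ≤ b) (hab : b ≤ a) {x : Fin l → ℕ} (hx : ∀ i, 0 < x i) :
    prsFun a b (x ∘ Fin.rev) = prsFun a b x := by
  refine prsFun_congr hb hab (fun i => hx _) hx ?_
  rw [← Multiset.map_map]
  congr 1
  have h1 := congrArg Finset.val (Finset.map_univ_equiv (Fin.revPerm : Equiv.Perm (Fin l)))
  rw [Finset.map_val] at h1
  exact h1

/-- `top_one`: the largest elements of the two multisets agree; take logarithms. -/
theorem top_rel {a b k : ℕ} (hb : 1 ≤ b) (hab : b ≤ a) {x y : Fin (k + 2) → ℕ}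
    (hx : ∀ i j, i ≤ j → x j ≤ x i) (hy : ∀ i j, i ≤ j → y j ≤ y i) (hx0 : ∀ i, 0 < x i)
    (hy0 : ∀ i, 0 < y i) (h : prsFun a b x = prsFun a b y) :
    (a : ℝ) * Real.log (x 0) + b * Real.log (x 1) =
      (a : ℝ) * Real.log (y 0) + b * Real.log (y 1) := by
  obtain ⟨h1, h2⟩ := top_one hb hab hx hx0
  obtain ⟨h3, h4⟩ := top_one hb hab hy hy0
  rw [h] at h1 h2
  have h5 : x 0 ^ a * x 1 ^ b = y 0 ^ a * y 1 ^ b := le_antisymm (h4 _ h1) (h2 _ h3)
  rw [← f3_log (hx0 0) (hx0 1), ← f3_log (hy0 0) (hy0 1), h5]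

/-- `bot_one` for the reversed functions `x ∘ Fin.rev`, `y ∘ Fin.rev` (`prsFun_congr`). -/
theorem bot_rel {a b k : ℕ} (hb : 1 ≤ b) (hab : b ≤ a) {x y : Fin (k + 2) → ℕ}
    (hx : ∀ i j, i ≤ j → x j ≤ x i) (hy : ∀ i j, i ≤ j → y j ≤ y i) (hx0 : ∀ i, 0 < x i)
    (hy0 : ∀ i, 0 < y i) (h : prsFun a b x = prsFun a b y) :
    (a : ℝ) * Real.log (x (Fin.last (k + 1))) + b * Real.log (x (Fin.last k).castSucc) =
      (a : ℝ) * Real.log (y (Fin.last (k + 1))) + b * Real.log (y (Fin.last k).castSucc) := by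
  have hrev : ∀ {z : Fin (k + 2) → ℕ}, (∀ i j, i ≤ j → z j ≤ z i) →
      ∀ i j, i ≤ j → (z ∘ Fin.rev) i ≤ (z ∘ Fin.rev) j :=
    fun hz i j hij => hz _ _ (Fin.rev_le_rev.2 hij)
  obtain ⟨h1, h2⟩ := bot_one hb hab (hrev hx) (fun i => hx0 _)
  obtain ⟨h3, h4⟩ := bot_one hb hab (hrev hy) (fun i => hy0 _)
  rw [f3_rev hb hab hx0, h] at h1 h2
  rw [f3_rev hb hab hy0] at h3 h4
  have h5 := le_antisymm (h2 _ h3) (h4 _ h1)
  have e0 : (Fin.rev 0 : Fin (k + 2)) = Fin.last (k + 1) := Fin.rev_zero _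
  have e1 : (Fin.rev 1 : Fin (k + 2)) = (Fin.last k).castSucc := by
    ext
    simp [Fin.rev, Fin.last]
  simp only [Function.comp, e0, e1] at h5
  rw [← f3_log (hx0 _) (hx0 _), ← f3_log (hy0 _) (hy0 _), h5]

theorem f3_min {u v p q : ℝ} (c : ℝ) : min (c - u - p) (c - v - q) = c - max (u + p) (v + q) := by
  rcases le_total (u + p) (v + q) with h | h
  · rw [max_eq_right h, min_eq_right (by linarith)]
    ring
  · rw [max_eq_left h, min_eq_left (by linarith)]
    ring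

/-- the multisets without their largest elements have the same largest elements -/
theorem f3_top {S S' : Multiset ℕ} {t t' m m' : ℕ} (h : t ::ₘ S = t' ::ₘ S') (hm : m ∈ S)
    (hm' : m' ∈ S') (h1 : ∀ z ∈ S, z ≤ m) (h1' : ∀ z ∈ S', z ≤ m') (h2 : m ≤ t) (h2' : m' ≤ t') :
    t = t' ∧ m = m' := by
  have ht : t = t' := by
    apply le_antisymm
    · have h3 : t ∈ t' ::ₘ S' := by
        rw [← h]
        exact Multiset.mem_cons_self _ _
      rcases Multiset.mem_cons.1 h3 with h3 | h3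
      · exact h3.le
      · exact (h1' _ h3).trans h2'
    · have h3 : t' ∈ t ::ₘ S := by
        rw [h]
        exact Multiset.mem_cons_self _ _
      rcases Multiset.mem_cons.1 h3 with h3 | h3
      · exact h3.le
      · exact (h1 _ h3).trans h2
  subst ht
  have hS : S = S' := (Multiset.cons_inj_right _).1 h
  subst hS
  exact ⟨rfl, le_antisymm (h1' _ hm) (h1 _ hm')⟩

theorem f3_bot {S S' : Multiset ℕ} {t t' m m' : ℕ} (h : t ::ₘ S = t' ::ₘ S') (hm : m ∈ S)
    (hm' : m' ∈ S') (h1 : ∀ z ∈ S, m ≤ z) (h1' : ∀ z ∈ S', m' ≤ z) (h2 : t ≤ m) (h2' : t' ≤ m') :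
    t = t' ∧ m = m' := by
  have ht : t = t' := by
    apply le_antisymm
    · have h3 : t' ∈ t ::ₘ S := by
        rw [h]
        exact Multiset.mem_cons_self _ _
      rcases Multiset.mem_cons.1 h3 with h3 | h3
      · exact h3.ge
      · exact h2.trans (h1 _ h3)
    · have h3 : t ∈ t' ::ₘ S' := by
        rw [← h]
        exact Multiset.mem_cons_self _ _
      rcases Multiset.mem_cons.1 h3 with h3 | h3
      · exact h3.ge
      · exact h2'.trans (h1' _ h3)
  subst ht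
  have hS : S = S' := (Multiset.cons_inj_right _).1 h
  subst hS
  exact ⟨rfl, le_antisymm (h1 _ hm') (h1' _ hm)⟩

theorem f3_logmax {u v : ℕ} (hu : 0 < u) (hv : 0 < v) :
    Real.log ((max u v : ℕ) : ℝ) = max (Real.log u) (Real.log v) := by
  have hu' : (0 : ℝ) < u := by exact_mod_cast hu
  have hv' : (0 : ℝ) < v := by exact_mod_cast hv
  rcases le_total u v with h | h
  · rw [max_eq_right h, max_eq_right (Real.log_le_log hu' (by exact_mod_cast h))]
  · rw [max_eq_left h, max_eq_left (Real.log_le_log hv' (by exact_mod_cast h))]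

theorem f3_logmin {u v : ℕ} (hu : 0 < u) (hv : 0 < v) :
    Real.log ((min u v : ℕ) : ℝ) = min (Real.log u) (Real.log v) := by
  have hu' : (0 : ℝ) < u := by exact_mod_cast hu
  have hv' : (0 : ℝ) < v := by exact_mod_cast hv
  rcases le_total u v with h | h
  · rw [min_eq_left h, min_eq_left (Real.log_le_log hu' (by exact_mod_cast h))]
  · rw [min_eq_right h, min_eq_right (Real.log_le_log hv' (by exact_mod_cast h))]

theorem f3_log3 {a b u v w : ℕ} (hu : 0 < u) (hv : 0 < v) (hw : 0 < w) :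
    Real.log ((u ^ a * v ^ b * w : ℕ) : ℝ) = (a : ℝ) * Real.log u + b * Real.log v + Real.log w := by
  have h1 : 0 < u ^ a * v ^ b := Nat.mul_pos (Nat.pow_pos hu) (Nat.pow_pos hv)
  have h1' : ((u ^ a * v ^ b : ℕ) : ℝ) ≠ 0 := by exact_mod_cast h1.ne'
  have hw' : (w : ℝ) ≠ 0 := by exact_mod_cast hw.ne'
  rw [Nat.cast_mul (u ^ a * v ^ b) w, Real.log_mul h1' hw', f3_log hu hv]

/-- the quotient of the largest by the second largest element -/
theorem f3_quot {a b u v w : ℕ} (hb : 1 ≤ b) (hab : b < a) (hu : 0 < u) (hv : 0 < v)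
    (hw : 0 < w) : Real.log ((u ^ a * v ^ b : ℕ) : ℝ) -
      Real.log ((max (u ^ (a - 1) * v ^ (b + 1)) (u ^ a * v ^ (b - 1) * w) : ℕ) : ℝ) =
      min (Real.log u - Real.log v) (Real.log v - Real.log w) := by
  rw [f3_logmax (Nat.mul_pos (Nat.pow_pos hu) (Nat.pow_pos hv))
    (Nat.mul_pos (Nat.mul_pos (Nat.pow_pos hu) (Nat.pow_pos hv)) hw), f3_log hu hv, f3_log hu hv,
    f3_log3 hu hv hw, Nat.cast_sub (by omega), Nat.cast_sub hb]
  push_cast
  generalize Real.log u = U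
  generalize Real.log v = Y
  generalize Real.log w = Z
  rcases le_total (U - Y) (Y - Z) with h | h
  · rw [min_eq_left h, max_eq_left (by nlinarith)]
    ring
  · rw [min_eq_right h, max_eq_right (by nlinarith)]
    ring

theorem f3_quot' {a b u v w : ℕ} (hb : 1 ≤ b) (hab : b < a) (hu : 0 < u) (hv : 0 < v)
    (hw : 0 < w) : Real.log ((min (u ^ (a - 1) * v ^ (b + 1)) (u ^ a * v ^ (b - 1) * w) : ℕ) : ℝ) -
      Real.log ((u ^ a * v ^ b : ℕ) : ℝ) =
      min (Real.log v - Real.log u) (Real.log w - Real.log v) := by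
  rw [f3_logmin (Nat.mul_pos (Nat.pow_pos hu) (Nat.pow_pos hv))
    (Nat.mul_pos (Nat.mul_pos (Nat.pow_pos hu) (Nat.pow_pos hv)) hw), f3_log hu hv, f3_log hu hv,
    f3_log3 hu hv hw, Nat.cast_sub (by omega), Nat.cast_sub hb]
  push_cast
  generalize Real.log u = U
  generalize Real.log v = Y
  generalize Real.log w = Z
  rcases le_total (Y - U) (Z - Y) with h | h
  · rw [min_eq_left h, min_eq_left (by nlinarith)]
    ring
  · rw [min_eq_right h, min_eq_right (by nlinarith)]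
    ring

/-- Four parts, `b < a`: `top_two` and `bot_two` (for the reversed functions). The largest
elements agree, hence the multisets without them, hence their largest elements; the logarithm of
the quotient of the largest by the second largest element is
`min (log x₀ - log x₁) (log x₁ - log x₂)`. -/
theorem second_rel {a b : ℕ} (hb : 1 ≤ b) (hab : b < a) {x y : Fin 4 → ℕ}
    (hx : ∀ i j, i ≤ j → x j ≤ x i) (hy : ∀ i j, i ≤ j → y j ≤ y i) (hx0 : ∀ i, 0 < x i)
    (hy0 : ∀ i, 0 < y i) (h : prsFun a b x = prsFun a b y) :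
    min (Real.log (x 0) - Real.log (x 1)) (Real.log (x 1) - Real.log (x 2)) =
      min (Real.log (y 0) - Real.log (y 1)) (Real.log (y 1) - Real.log (y 2)) ∧
    min (Real.log (x 2) - Real.log (x 3)) (Real.log (x 1) - Real.log (x 2)) =
      min (Real.log (y 2) - Real.log (y 3)) (Real.log (y 1) - Real.log (y 2)) := by
  constructor
  · obtain ⟨S, h1, h2, h3, h4⟩ := top_two (k := 1) hb hab hx hx0
    obtain ⟨S', h1', h2', h3', h4'⟩ := top_two (k := 1) hb hab hy hy0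
    rw [h1, h1'] at h
    obtain ⟨h5, h6⟩ := f3_top h h2 h2' h3 h3' h4 h4'
    rw [← f3_quot hb hab (hx0 0) (hx0 1) (hx0 2), ← f3_quot hb hab (hy0 0) (hy0 1) (hy0 2), h5, h6]
  · have hrev : ∀ {z : Fin 4 → ℕ}, (∀ i j, i ≤ j → z j ≤ z i) →
        ∀ i j, i ≤ j → (z ∘ Fin.rev) i ≤ (z ∘ Fin.rev) j :=
      fun hz i j hij => hz _ _ (Fin.rev_le_rev.2 hij)
    obtain ⟨S, h1, h2, h3, h4⟩ := bot_two (k := 1) hb hab (hrev hx) (fun i => hx0 _)
    obtain ⟨S', h1', h2', h3', h4'⟩ := bot_two (k := 1) hb hab (hrev hy) (fun i => hy0 _)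
    rw [f3_rev hb hab.le hx0, h] at h1
    rw [f3_rev hb hab.le hy0] at h1'
    rw [h1'] at h1
    obtain ⟨h5, h6⟩ := f3_bot h1.symm h2 h2' h3 h3' h4 h4'
    have h7 := f3_quot' hb hab (hx0 (Fin.rev 0)) (hx0 (Fin.rev 1)) (hx0 (Fin.rev 2))
    have h8 := f3_quot' hb hab (hy0 (Fin.rev 0)) (hy0 (Fin.rev 1)) (hy0 (Fin.rev 2))
    have h9 : min (Real.log (x (Fin.rev 1)) - Real.log (x (Fin.rev 0)))
        (Real.log (x (Fin.rev 2)) - Real.log (x (Fin.rev 1))) =
        min (Real.log (y (Fin.rev 1)) - Real.log (y (Fin.rev 0)))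
        (Real.log (y (Fin.rev 2)) - Real.log (y (Fin.rev 1))) := by
      rw [← h7, ← h8]
      simp only [Function.comp] at h5 h6
      rw [h5, h6]
    exact h9

/-- Four parts, `a = b`: `top_two_rect`. -/
theorem second_rel_rect {b : ℕ} (hb : 1 ≤ b) {x y : Fin 4 → ℕ}
    (hx : ∀ i j, i ≤ j → x j ≤ x i) (hy : ∀ i j, i ≤ j → y j ≤ y i) (hx0 : ∀ i, 0 < x i)
    (hy0 : ∀ i, 0 < y i) (h : prsFun b b x = prsFun b b y) :
    Real.log (x 1) - Real.log (x 2) = Real.log (y 1) - Real.log (y 2) := by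
  obtain ⟨S, h1, h2, h3, h4⟩ := top_two_rect (k := 1) hb hx hx0
  obtain ⟨S', h1', h2', h3', h4'⟩ := top_two_rect (k := 1) hb hy hy0
  rw [h1, h1'] at h
  obtain ⟨h5, h6⟩ := f3_top h h2 h2' h3 h3' h4 h4'
  have key : ∀ {u v w : ℕ}, 0 < u → 0 < v → 0 < w → Real.log ((u ^ b * v ^ b : ℕ) : ℝ) -
      Real.log ((u ^ b * v ^ (b - 1) * w : ℕ) : ℝ) = Real.log v - Real.log w := by
    intro u v w hu hv hw
    rw [f3_log hu hv, f3_log3 hu hv hw, Nat.cast_sub hb]
    push_cast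
    ring
  rw [← key (hx0 0) (hx0 1) (hx0 2), ← key (hy0 0) (hy0 1) (hy0 2), h5, h6]

end Pool.Agent.Lib.H70S
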