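import Mathlib

/-! # Chunk F4 (S/M): three real numbers -/

namespace Pool.Agent.Lib.H70S

theorem f4_uvw {u v w : ℝ} (h1 : u * v * w = 1) (h2 : u + v + w = v * w + u * w + u * v) :
    u = 1 ∨ v = 1 ∨ w = 1 := by
  have h : (u - 1) * ((v - 1) * (w - 1)) = 0 := by linarith [h1, h2, (by ring :
    (u - 1) * ((v - 1) * (w - 1)) = u * v * w - (v * w + u * w + u * v) + (u + v + w) - 1)]
  rcases mul_eq_zero.1 h with h | h
  · exact Or.inl (by linarith)
  · rcases mul_eq_zero.1 h with h | h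
    · exact Or.inr (Or.inl (by linarith))
    · exact Or.inr (Or.inr (by linarith))

/-- Let `t = X1 - Y1`. By the first two hypotheses `X0 - Y0 = X2 - Y2 = -(b/a) t`, and
`h1` gives `t (1 - 2 b / a) = 0`. If `a ≠ 2 b` then `t = 0` and we are done. If `a = 2 b` put
`α = t / 2`: `Y0 = X0 + α`, `Y1 = X1 - 2 α`, `Y2 = X2 + α`; `h2` gives
`6 α ^ 2 = 2 α (2 X1 - X0 - X2)`. Suppose `α ≠ 0`; then `α = X1 - c`, `c = (X0 + X1 + X2) / 3`.
With `u = exp (X0 - c)`, `v = exp (X1 - c)`, `w = exp (X2 - c)`, `u v w = 1`, the numbers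
`exp (Y_i - c)` are `1 / w`, `1 / v`, `1 / u`, so `he` says `u + v + w = v w + u w + u v`, that is
`(u - 1) (v - 1) (w - 1) = 0`. If `v = 1` then `α = 0`. If `u = 1` (or `w = 1`) then
`X0 = c ≥ X1 ≥ X2` has mean `c`, so `X1 = c` again, `α = 0`, a contradiction. -/
theorem three_real {a b : ℝ} (hb : 0 < b) (hab : b ≤ a) {X0 X1 X2 Y0 Y1 Y2 : ℝ}
    (hX1 : X1 ≤ X0) (hX2 : X2 ≤ X1)
    (ht : a * X0 + b * X1 = a * Y0 + b * Y1) (hbt : a * X2 + b * X1 = a * Y2 + b * Y1)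
    (h1 : X0 + X1 + X2 = Y0 + Y1 + Y2)
    (h2 : X0 ^ 2 + X1 ^ 2 + X2 ^ 2 = Y0 ^ 2 + Y1 ^ 2 + Y2 ^ 2)
    (he : Real.exp X0 + Real.exp X1 + Real.exp X2 = Real.exp Y0 + Real.exp Y1 + Real.exp Y2) :
    X0 = Y0 ∧ X1 = Y1 ∧ X2 = Y2 := by
  have ha : 0 < a := hb.trans_le hab
  have e1 : Y0 - X0 = Y2 - X2 := by
    have : a * (Y0 - X0) = a * (Y2 - X2) := by linarith
    exact mul_left_cancel₀ ha.ne' this
  obtain ⟨α, hα⟩ : ∃ α, α = Y0 - X0 := ⟨_, rfl⟩
  have hY0 : Y0 = X0 + α := by linarith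
  have hY2 : Y2 = X2 + α := by linarith
  have hY1 : Y1 = X1 - 2 * α := by linarith
  by_cases h0 : α = 0
  · subst h0
    exact ⟨by linarith, by linarith, by linarith⟩
  exfalso
  subst hY0 hY2 hY1
  have e2 : α * (3 * α - (2 * X1 - X0 - X2)) = 0 := by nlinarith [h2]
  have e3 : 3 * α = 2 * X1 - X0 - X2 := by
    rcases mul_eq_zero.1 e2 with h | h
    · exact absurd h h0
    · linarith
  obtain ⟨c, hc⟩ : ∃ c, c = (X0 + X1 + X2) / 3 := ⟨_, rfl⟩
  have e4 : α = X1 - c := by rw [hc]; linarith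
  have euvw : Real.exp (X0 - c) * Real.exp (X1 - c) * Real.exp (X2 - c) = 1 := by
    rw [← Real.exp_add, ← Real.exp_add, ← Real.exp_zero]
    congr 1
    rw [hc]
    ring
  have ey0 : Real.exp (X0 + α - c) = Real.exp (X0 - c) * Real.exp (X1 - c) := by
    rw [← Real.exp_add]
    congr 1
    rw [e4]
    ring
  have ey2 : Real.exp (X2 + α - c) = Real.exp (X1 - c) * Real.exp (X2 - c) := by
    rw [← Real.exp_add]
    congr 1
    rw [e4]
    ring
  have ey1 : Real.exp (X1 - 2 * α - c) = Real.exp (X0 - c) * Real.exp (X2 - c) := by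
    rw [← Real.exp_add]
    congr 1
    rw [e4, hc]
    ring
  have e5 : Real.exp (X0 - c) + Real.exp (X1 - c) + Real.exp (X2 - c) =
      Real.exp (X0 + α - c) + Real.exp (X1 - 2 * α - c) + Real.exp (X2 + α - c) := by
    simp only [sub_eq_add_neg _ c, Real.exp_add _ (-c)]
    rw [← add_mul, ← add_mul, he, add_mul, add_mul]
  rw [ey0, ey1, ey2] at e5
  have e6 : Real.exp (X0 - c) + Real.exp (X1 - c) + Real.exp (X2 - c) =
      Real.exp (X1 - c) * Real.exp (X2 - c) + Real.exp (X0 - c) * Real.exp (X2 - c) +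
        Real.exp (X0 - c) * Real.exp (X1 - c) := by linarith
  rcases f4_uvw euvw e6 with h | h | h
  · have h' : X0 - c = 0 := Real.exp_eq_one_iff _ |>.1 h
    apply h0
    rw [e4]
    have h3 : X0 + X1 + X2 = 3 * c := by rw [hc]; ring
    linarith
  · have h' : X1 - c = 0 := Real.exp_eq_one_iff _ |>.1 h
    exact h0 (e4.trans h')
  · have h' : X2 - c = 0 := Real.exp_eq_one_iff _ |>.1 h
    apply h0
    rw [e4]
    have h3 : X0 + X1 + X2 = 3 * c := by rw [hc]; ring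
    linarith

end Pool.Agent.Lib.H70S
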