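import Mathlib

/-! # Chunk F5 (M): four real numbers, `b < a` -/

namespace Pool.Agent.Lib.H70S

theorem f5_pow {A B A' B' : ℝ} (h : A + B = A' + B') (hB' : 0 ≤ B') (hBB : B' < B)
    (hAB : B ≤ A) (n : ℕ) : A ^ n + B ^ n ≤ A' ^ n + B' ^ n := by
  have hA' : A < A' := by linarith
  induction n with
  | zero => simp
  | succ n ih =>
    have h1 : 0 ≤ B ^ n - B' ^ n := sub_nonneg.mpr (pow_le_pow_left₀ hB' hBB.le n)
    have h2 : B ^ n - B' ^ n ≤ A' ^ n - A ^ n := by linarith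
    have h3 : B' ^ n ≤ A ^ n := pow_le_pow_left₀ hB' (by linarith) n
    have h4 : 0 ≤ B' ^ n := pow_nonneg hB' n
    have h5 : B * (B ^ n - B' ^ n) ≤ A' * (A' ^ n - A ^ n) :=
      mul_le_mul (by linarith) h2 h1 (by linarith)
    have h6 : B' ^ n * (B - B') ≤ A ^ n * (A' - A) := by
      have : B - B' = A' - A := by linarith
      rw [this]
      exact mul_le_mul_of_nonneg_right h3 (by linarith)
    rw [pow_succ, pow_succ, pow_succ, pow_succ]
    nlinarith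

/-- `cosh p + cosh q < cosh p' + cosh q'` if `p ^ 2 + q ^ 2 = p' ^ 2 + q' ^ 2` and
`0 ≤ q' < q ≤ p` (so `p < p'`, `p' > 0`). Compare the series
`cosh r = ∑ r ^ (2 n) / (2 n)!` (`Real.hasSum_cosh`, `hasSum_lt`): with `A = p ^ 2`, `B = q ^ 2`,
`A' = p' ^ 2`, `B' = q' ^ 2` we have `A + B = A' + B'`, `A' > A ≥ B > B' ≥ 0`, so
`A ^ n + B ^ n ≤ A' ^ n + B' ^ n` (convexity of `z ^ n`: `A' ^ n - A ^ n ≥ (A' - A) n A ^ (n-1)
≥ (B - B') n B ^ (n-1) ≥ B ^ n - B' ^ n`, or induction on `n`), strictly for `n = 2`. -/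
theorem cosh_spread {p q p' q' : ℝ} (h : p ^ 2 + q ^ 2 = p' ^ 2 + q' ^ 2) (hq' : 0 ≤ q')
    (hqq : q' < q) (hqp : q ≤ p) (hp' : 0 ≤ p') :
    Real.cosh p + Real.cosh q < Real.cosh p' + Real.cosh q' := by
  have hB' : 0 ≤ q' ^ 2 := sq_nonneg _
  have hBB : q' ^ 2 < q ^ 2 := by nlinarith
  have hAB : q ^ 2 ≤ p ^ 2 := by nlinarith
  have s1 := (Real.hasSum_cosh p).add (Real.hasSum_cosh q)
  have s2 := (Real.hasSum_cosh p').add (Real.hasSum_cosh q')
  refine hasSum_lt (i := 2) ?_ ?_ s1 s2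
  · intro n
    have := f5_pow h hB' hBB hAB n
    simp only [pow_mul]
    rw [← add_div, ← add_div]
    exact div_le_div_of_nonneg_right this (Nat.cast_nonneg _)
  · simp only [pow_mul]
    rw [← add_div, ← add_div]
    refine div_lt_div_of_pos_right ?_ (Nat.cast_pos.mpr (Nat.factorial_pos _))
    nlinarith [mul_pos (sub_pos.mpr hBB) (sub_pos.mpr (show q ^ 2 - (q' ^ 2 - q ^ 2) > q' ^ 2 by
      linarith)), mul_nonneg (sub_nonneg.mpr hAB) (sub_nonneg.mpr hBB.le)]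

theorem f5_pos {a b : ℝ} (hb : 0 < b) (hab : b < a) {X0 X1 X2 X3 Y0 Y1 Y2 Y3 : ℝ}
    (hX1 : X1 ≤ X0) (hX2 : X2 ≤ X1) (hX3 : X3 ≤ X2)
    (ht : a * X0 + b * X1 = a * Y0 + b * Y1) (hbt : a * X3 + b * X2 = a * Y3 + b * Y2)
    (h1 : X0 + X1 + X2 + X3 = Y0 + Y1 + Y2 + Y3)
    (h2 : X0 ^ 2 + X1 ^ 2 + X2 ^ 2 + X3 ^ 2 = Y0 ^ 2 + Y1 ^ 2 + Y2 ^ 2 + Y3 ^ 2)
    (he : Real.exp X0 + Real.exp X1 + Real.exp X2 + Real.exp X3 =
      Real.exp Y0 + Real.exp Y1 + Real.exp Y2 + Real.exp Y3)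
    (hm : min (X0 - X1) (X1 - X2) = min (Y0 - Y1) (Y1 - Y2))
    (hm' : min (X2 - X3) (X1 - X2) = min (Y2 - Y3) (Y1 - Y2)) (hpos : Y1 < X1) : False := by
  have ha : 0 < a := by linarith
  obtain ⟨t, ht0⟩ : ∃ t, t = X1 - Y1 := ⟨_, rfl⟩
  obtain ⟨r, hr⟩ : ∃ r, r = b / a := ⟨_, rfl⟩
  have hbr : b = r * a := by rw [hr]; field_simp
  have hr0 : 0 < r := by rw [hr]; positivity
  have hr1 : r < 1 := by rw [hr, div_lt_one ha]; exact hab
  have htp : 0 < t := by linarith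
  have e1 : Y1 = X1 - t := by linarith
  have e0 : Y0 = X0 + r * t := by
    have : a * (Y0 - (X0 + r * t)) = 0 := by
      rw [hbr] at ht
      rw [e1] at ht
      linear_combination -ht
    rcases mul_eq_zero.mp this with h | h
    · linarith
    · linarith
  obtain ⟨s, hs⟩ : ∃ s, s = X2 - Y2 := ⟨_, rfl⟩
  have e2' : Y2 = X2 - s := by linarith
  have e3' : Y3 = X3 + r * s := by
    have : a * (Y3 - (X3 + r * s)) = 0 := by
      rw [hbr] at hbt
      rw [e2'] at hbt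
      linear_combination -hbt
    rcases mul_eq_zero.mp this with h | h
    · linarith
    · linarith
  have hst : s = -t := by
    have : (1 - r) * (s + t) = 0 := by
      rw [e0, e1, e2', e3'] at h1
      linear_combination h1
    rcases mul_eq_zero.mp this with h | h
    · linarith
    · linarith
  have e2 : Y2 = X2 + t := by rw [e2', hst]; ring
  have e3 : Y3 = X3 - r * t := by rw [e3', hst]; ring
  have hrt : 0 < r * t := mul_pos hr0 htp
  have key : ∀ g g1 : ℝ, min g g1 = min (g + (1 + r) * t) (g1 - 2 * t) → g = g1 - 2 * t := by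
    intro g g1 hgg
    rcases le_total g1 g with hc | hc
    · rw [min_eq_right hc] at hgg
      have := min_le_right (g + (1 + r) * t) (g1 - 2 * t)
      linarith
    · rw [min_eq_left hc] at hgg
      rcases le_total (g + (1 + r) * t) (g1 - 2 * t) with hd | hd
      · rw [min_eq_left hd] at hgg
        nlinarith
      · rw [min_eq_right hd] at hgg
        exact hgg
  have k0 : X0 - X1 = (X1 - X2) - 2 * t := by
    apply key
    rw [hm, e0, e1, e2]
    congr 1 <;> ring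
  have k2 : X2 - X3 = (X1 - X2) - 2 * t := by
    apply key
    rw [hm', e1, e2, e3]
    congr 1 <;> ring
  obtain ⟨c, hc⟩ : ∃ c, c = (X1 + X2) / 2 := ⟨_, rfl⟩
  obtain ⟨q, hq⟩ : ∃ q, q = (X1 - X2) / 2 := ⟨_, rfl⟩
  obtain ⟨p, hp⟩ : ∃ p, p = q + (X0 - X1) := ⟨_, rfl⟩
  have x1 : X1 = c + q := by rw [hc, hq]; ring
  have x2 : X2 = c - q := by rw [hc, hq]; ring
  have x0 : X0 = c + p := by linarith
  have x3 : X3 = c - p := by linarith
  have y0 : Y0 = c + (p + r * t) := by linarith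
  have y1 : Y1 = c + (q - t) := by linarith
  have y2 : Y2 = c - (q - t) := by linarith
  have y3 : Y3 = c - (p + r * t) := by linarith
  have hlt := cosh_spread (p := p) (q := q) (p' := p + r * t) (q' := q - t)
    (by rw [x0, x1, x2, x3, y0, y1, y2, y3] at h2; linear_combination h2 / 2)
    (by linarith) (by linarith) (by linarith) (by linarith)
  have ex : ∀ z : ℝ, Real.exp (c + z) + Real.exp (c - z) = 2 * Real.exp c * Real.cosh z := by
    intro z
    rw [Real.cosh_eq, Real.exp_add, sub_eq_add_neg, Real.exp_add]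
    ring
  rw [x0, x1, x2, x3, y0, y1, y2, y3] at he
  have f1 := ex p
  have f2 := ex q
  have f3 := ex (p + r * t)
  have f4 := ex (q - t)
  have : 2 * Real.exp c * (Real.cosh p + Real.cosh q) =
      2 * Real.exp c * (Real.cosh (p + r * t) + Real.cosh (q - t)) := by
    linear_combination he - f1 - f2 + f3 + f4
  have h3 : Real.cosh p + Real.cosh q = Real.cosh (p + r * t) + Real.cosh (q - t) :=
    mul_left_cancel₀ (by positivity) this
  linarith

/-- Let `t = X1 - Y1`. The first two hypotheses and `h1` give (`b < a`) `X0 - Y0 = -(b/a) t`,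
`X2 - Y2 = -t`, `X3 - Y3 = (b/a) t`. Suppose `t > 0` (the case `t < 0` follows by exchanging `X`
and `Y`). With the gaps `g0 = X0 - X1`, `g1 = X1 - X2`, `g2 = X2 - X3` the gaps of `Y` are
`g0 + (1 + b/a) t`, `g1 - 2 t`, `g2 + (1 + b/a) t`. `hm` gives `g0 = g1 - 2 t` (if
`g1 ≤ g0` then `min g0 g1 = g1 > g1 - 2 t`; so the minimum is `g0 < g1`, and
`g0 + (1 + b/a) t ≠ g0`), `hm'` gives `g2 = g1 - 2 t`. So with `c` the mean of `X`
(and of `Y`), `X0 - c = p`, `X1 - c = q`, `X2 - c = -q`, `X3 - c = -p`, `q = g1 / 2`,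
`p = g0 + g1 / 2`, and for `Y` the same with `p' = p + (b/a) t`, `q' = q - t = g0 / 2 ≥ 0`. Now
`h2` says `p ^ 2 + q ^ 2 = p' ^ 2 + q' ^ 2` (use `h1`) and `he` says
`2 exp c (cosh p + cosh q) = 2 exp c (cosh p' + cosh q')`, contrary to `cosh_spread`. -/
theorem four_real {a b : ℝ} (hb : 0 < b) (hab : b < a) {X0 X1 X2 X3 Y0 Y1 Y2 Y3 : ℝ}
    (hX1 : X1 ≤ X0) (hX2 : X2 ≤ X1) (hX3 : X3 ≤ X2) (hY1 : Y1 ≤ Y0) (hY2 : Y2 ≤ Y1)
    (hY3 : Y3 ≤ Y2)
    (ht : a * X0 + b * X1 = a * Y0 + b * Y1) (hbt : a * X3 + b * X2 = a * Y3 + b * Y2)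
    (h1 : X0 + X1 + X2 + X3 = Y0 + Y1 + Y2 + Y3)
    (h2 : X0 ^ 2 + X1 ^ 2 + X2 ^ 2 + X3 ^ 2 = Y0 ^ 2 + Y1 ^ 2 + Y2 ^ 2 + Y3 ^ 2)
    (he : Real.exp X0 + Real.exp X1 + Real.exp X2 + Real.exp X3 =
      Real.exp Y0 + Real.exp Y1 + Real.exp Y2 + Real.exp Y3)
    (hm : min (X0 - X1) (X1 - X2) = min (Y0 - Y1) (Y1 - Y2))
    (hm' : min (X2 - X3) (X1 - X2) = min (Y2 - Y3) (Y1 - Y2)) :
    X0 = Y0 ∧ X1 = Y1 ∧ X2 = Y2 ∧ X3 = Y3 := by
  rcases lt_trichotomy Y1 X1 with h | h | h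
  · exact (f5_pos hb hab hX1 hX2 hX3 ht hbt h1 h2 he hm hm' h).elim
  · have ha : 0 < a := by linarith
    rw [h] at ht
    have e0 : X0 = Y0 := mul_left_cancel₀ ha.ne' (by linarith)
    have e23 : (a - b) * (X3 - Y3) = 0 := by
      have : X2 = Y2 + Y3 - X3 := by linarith
      rw [this] at hbt
      linear_combination hbt
    rcases mul_eq_zero.mp e23 with h' | h'
    · linarith
    · exact ⟨e0, h.symm, by linarith, by linarith⟩
  · exact (f5_pos hb hab hY1 hY2 hY3 ht.symm hbt.symm h1.symm h2.symm he.symm hm.symm hm'.symm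
      h).elim

end Pool.Agent.Lib.H70S
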