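import Mathlib

/-! # Chunk F6 (S/M): four real numbers, `a = b` -/

namespace Pool.Agent.Lib.H70S

theorem f6_prod {x0 x1 x2 x3 : ℝ} (hs : x0 + x1 + x2 + x3 = 0)
    (he : Real.exp x0 + Real.exp x1 + Real.exp x2 + Real.exp x3 =
      Real.exp (-x3) + Real.exp (-x2) + Real.exp (-x1) + Real.exp (-x0)) :
    x0 + x1 = 0 ∨ x0 + x2 = 0 ∨ x0 + x3 = 0 := by
  set u0 := Real.exp x0 with hu0
  set u1 := Real.exp x1 with hu1
  set u2 := Real.exp x2 with hu2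
  set u3 := Real.exp x3 with hu3
  have p0 : 0 < u0 := Real.exp_pos _
  have p1 : 0 < u1 := Real.exp_pos _
  have p2 : 0 < u2 := Real.exp_pos _
  have p3 : 0 < u3 := Real.exp_pos _
  have hprod : u0 * u1 * u2 * u3 = 1 := by
    rw [hu0, hu1, hu2, hu3, ← Real.exp_add, ← Real.exp_add, ← Real.exp_add, hs, Real.exp_zero]
  have e0 : Real.exp (-x0) = u1 * u2 * u3 := by
    rw [Real.exp_neg, ← hu0]
    field_simp
    linarith
  have e1 : Real.exp (-x1) = u0 * u2 * u3 := by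
    rw [Real.exp_neg, ← hu1]
    field_simp
    linarith
  have e2 : Real.exp (-x2) = u0 * u1 * u3 := by
    rw [Real.exp_neg, ← hu2]
    field_simp
    linarith
  have e3 : Real.exp (-x3) = u0 * u1 * u2 := by
    rw [Real.exp_neg, ← hu3]
    field_simp
    linarith
  rw [e0, e1, e2, e3] at he
  have key : (u0 * u1 - 1) * (u0 * u2 - 1) * (u0 * u3 - 1) = 0 := by
    have : (u0 * u1 - 1) * (u0 * u2 - 1) * (u0 * u3 - 1)
        = u0 * ((u0 + u1 + u2 + u3) - (u0 * u1 * u2 + u0 * u1 * u3 + u0 * u2 * u3 + u1 * u2 * u3))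
          + (u0 ^ 2 + 1) * (u0 * u1 * u2 * u3 - 1) := by ring
    rw [this, he, hprod]
    ring
  have conv : ∀ s t : ℝ, Real.exp s * Real.exp t - 1 = 0 → s + t = 0 := by
    intro s t h
    have : Real.exp (s + t) = Real.exp 0 := by
      rw [Real.exp_add, Real.exp_zero]; linarith
    exact Real.exp_injective this
  rcases mul_eq_zero.mp key with h | h
  · rcases mul_eq_zero.mp h with h | h
    · left; exact conv _ _ h
    · right; left; exact conv _ _ h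
  · right; right; exact conv _ _ h

/-- Let `α = X1 - Y1`. By `ht`, `hs`, `hbt`: `X2 - Y2 = α`, `X0 - Y0 = -α`, `X3 - Y3 = -α`.
`h2` gives `4 α ^ 2 = 2 α (X1 + X2 - X0 - X3)`. Suppose `α ≠ 0`. Then
`2 α = X1 + X2 - X0 - X3`; let `c` be the mean of `X` and `x_i = X_i - c`; then `α = x1 + x2` and
`Y0 - c = -x3`, `Y1 - c = -x2`, `Y2 - c = -x1`, `Y3 - c = -x0`. With `u_i = exp x_i`,
`u0 u1 u2 u3 = 1`, `he` says `u0 + u1 + u2 + u3 = 1/u0 + 1/u1 + 1/u2 + 1/u3`. Since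
`(u0 u1 - 1) (u0 u2 - 1) (u0 u3 - 1) = u0 (e1 - e3)` (`e1`, `e3` the elementary symmetric
functions, `e3 = ∑ 1/u_i`), this product is `0`, so `x0 + x1 = 0`, `x0 + x2 = 0` or
`x0 + x3 = 0`. As `x0 ≥ x1 ≥ x2 ≥ x3` and the sum is `0`: in the third case `x1 + x2 = 0 = α`; in
the first case `x1 = -x0 ≤ 0`, `x2 ≤ 0`, `x2 = -x3 ≥ 0`, so `x2 = x3 = 0`, `x1 ≥ 0`,
`x0 = x1 = 0`; in the second case `x3 = -x1 ≤ x2 = -x0`, so `x0 = x1`, `x1 + x2 = 0`. In all cases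
`α = 0`, a contradiction. -/
theorem four_real_rect {X0 X1 X2 X3 Y0 Y1 Y2 Y3 : ℝ}
    (hX1 : X1 ≤ X0) (hX2 : X2 ≤ X1) (hX3 : X3 ≤ X2)
    (ht : X0 + X1 = Y0 + Y1) (hbt : X3 + X2 = Y3 + Y2) (hs : X1 - X2 = Y1 - Y2)
    (h2 : X0 ^ 2 + X1 ^ 2 + X2 ^ 2 + X3 ^ 2 = Y0 ^ 2 + Y1 ^ 2 + Y2 ^ 2 + Y3 ^ 2)
    (he : Real.exp X0 + Real.exp X1 + Real.exp X2 + Real.exp X3 =
      Real.exp Y0 + Real.exp Y1 + Real.exp Y2 + Real.exp Y3) :
    X0 = Y0 ∧ X1 = Y1 ∧ X2 = Y2 ∧ X3 = Y3 := by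
  obtain ⟨α, hα⟩ : ∃ α, α = X1 - Y1 := ⟨_, rfl⟩
  have y1 : Y1 = X1 - α := by linarith
  have y2 : Y2 = X2 - α := by linarith
  have y0 : Y0 = X0 + α := by linarith
  have y3 : Y3 = X3 + α := by linarith
  by_cases h0 : α = 0
  · rw [h0] at y0 y1 y2 y3
    refine ⟨?_, ?_, ?_, ?_⟩ <;> linarith
  exfalso
  have hq : 2 * α = X1 + X2 - X0 - X3 := by
    have : α * (2 * α - (X1 + X2 - X0 - X3)) = 0 := by
      rw [y0, y1, y2, y3] at h2
      nlinarith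
    rcases mul_eq_zero.mp this with h | h
    · exact absurd h h0
    · linarith
  obtain ⟨c, hc⟩ : ∃ c, c = (X0 + X1 + X2 + X3) / 4 := ⟨_, rfl⟩
  have key := f6_prod (x0 := X0 - c) (x1 := X1 - c) (x2 := X2 - c) (x3 := X3 - c)
    (by rw [hc]; ring) (by
      have z0 : -(X3 - c) = Y0 - c := by rw [y0]; linarith
      have z1 : -(X2 - c) = Y1 - c := by rw [y1]; linarith
      have z2 : -(X1 - c) = Y2 - c := by rw [y2]; linarith
      have z3 : -(X0 - c) = Y3 - c := by rw [y3]; linarith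
      rw [z0, z1, z2, z3]
      simp only [Real.exp_sub]
      rw [← add_div, ← add_div, ← add_div, ← add_div, ← add_div, ← add_div, he])
  apply h0
  rcases key with h | h | h
  · linarith
  · linarith
  · linarith

end Pool.Agent.Lib.H70S
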