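import Pool.Agent.Lib.H70S.S5

/-! # Chunk F7 (M): the second coefficient for three and four letters -/

namespace Pool.Agent.Lib.H70S

open Pool.Agent.SchurTwoRow

theorem f7_choose_two (n : ℕ) : 2 * ((n + 2).choose 2 : ℤ) = ((n : ℤ) + 1) * (n + 2) := by
  induction n with
  | zero => norm_num
  | succ n ih =>
    have e : (n + 1 + 2).choose 2 = (n + 2).choose 1 + (n + 2).choose 2 := rfl
    rw [e, Nat.choose_one_right]
    push_cast
    linarith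

theorem f7_choose_three (n : ℕ) :
    6 * ((n + 3).choose 3 : ℤ) = ((n : ℤ) + 1) * (n + 2) * (n + 3) := by
  induction n with
  | zero => norm_num
  | succ n ih =>
    have e : (n + 1 + 3).choose 3 = (n + 3).choose 2 + (n + 3).choose 3 := rfl
    have h2 := f7_choose_two (n + 1)
    rw [e]
    push_cast at h2 ⊢
    have e2 : (n + 1 + 2) = n + 3 := rfl
    rw [e2] at h2
    nlinarith

theorem f7_hh3 (n : ℕ) : 2 * hh (n : ℤ) 3 = ((n : ℤ) + 1) * (n + 2) := by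
  have e : hh (n : ℤ) 3 = ((n + 2).choose 2 : ℤ) := by
    rw [hh, if_neg (by omega), Int.toNat_natCast]
    have e1 : 3 + n - 1 = n + 2 := by omega
    rw [e1, ← Nat.choose_symm_of_eq_add (show n + 2 = n + 2 from rfl)]
  rw [e, f7_choose_two]

theorem f7_hh4 (n : ℕ) : 6 * hh (n : ℤ) 4 = ((n : ℤ) + 1) * (n + 2) * (n + 3) := by
  have e : hh (n : ℤ) 4 = ((n + 3).choose 3 : ℤ) := by
    rw [hh, if_neg (by omega), Int.toNat_natCast]
    have e1 : 4 + n - 1 = n + 3 := by omega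
    rw [e1, ← Nat.choose_symm_of_eq_add (show n + 3 = n + 3 from rfl)]
  rw [e, f7_choose_three]

theorem f7_sum3 (M : ℤ) (n : ℕ) :
    12 * ∑ j ∈ Finset.Icc 1 n, (j : ℤ) * ((M - j + 1) * (M - j + 2)) =
      6 * (M + 1) * (M + 2) * n * (n + 1) - 2 * (2 * M + 3) * n * (n + 1) * (2 * n + 1) +
        3 * n ^ 2 * (n + 1) ^ 2 := by
  induction n with
  | zero => simp
  | succ n ih =>
    rw [Finset.sum_Icc_succ_top (by omega), mul_add, ih]
    push_cast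
    ring

theorem f7_sum4 (M : ℤ) (n : ℕ) :
    60 * ∑ j ∈ Finset.Icc 1 n, (j : ℤ) * ((M - j + 1) * (M - j + 2) * (M - j + 3)) =
      30 * ((M + 1) * (M + 2) * (M + 3)) * n * (n + 1) -
        10 * (3 * M ^ 2 + 12 * M + 11) * n * (n + 1) * (2 * n + 1) +
        15 * (3 * M + 6) * n ^ 2 * (n + 1) ^ 2 -
        2 * n * (n + 1) * (2 * n + 1) * (3 * n ^ 2 + 3 * n - 1) := by
  induction n with
  | zero => simp
  | succ n ih =>
    rw [Finset.sum_Icc_succ_top (by omega), mul_add, ih]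
    push_cast
    ring

/-- `DD 2 m l = ∑_(j=1)^m j hh (m - j) l = C(l + m, m - 1)` for `m ≥ 1`; for `l = 3`, `4`:
`24 DD 2 m 3 = m (m+1) (m+2) (m+3)`, `120 DD 2 m 4 = m (m+1) (m+2) (m+3) (m+4)` (induction on `m`,
using `∑_(i ≤ m) hh i l = hh m (l+1)`, or directly from the polynomial form of `hh`). -/
theorem DD_two_three (m : ℕ) :
    24 * DD 2 m 3 = (m : ℤ) * (m + 1) * (m + 2) * (m + 3) := by
  have e : 2 * DD 2 m 3 =
      ∑ j ∈ Finset.Icc 1 m, (j : ℤ) * (((m : ℤ) - j + 1) * ((m : ℤ) - j + 2)) := by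
    rw [DD, Finset.mul_sum]
    refine Finset.sum_congr rfl fun j hj => ?_
    rw [Finset.mem_Icc] at hj
    obtain ⟨i, hi⟩ : ∃ i : ℕ, m = j + i := ⟨m - j, by omega⟩
    have e2 : (m : ℤ) - j = (i : ℤ) := by rw [hi]; push_cast; ring
    rw [e2, ← f7_hh3]
    norm_num
    ring
  have h := f7_sum3 m m
  rw [← e] at h
  linarith

theorem DD_two_four (m : ℕ) :
    120 * DD 2 m 4 = (m : ℤ) * (m + 1) * (m + 2) * (m + 3) * (m + 4) := by
  have e : 6 * DD 2 m 4 = ∑ j ∈ Finset.Icc 1 m,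
      (j : ℤ) * (((m : ℤ) - j + 1) * ((m : ℤ) - j + 2) * ((m : ℤ) - j + 3)) := by
    rw [DD, Finset.mul_sum]
    refine Finset.sum_congr rfl fun j hj => ?_
    rw [Finset.mem_Icc] at hj
    obtain ⟨i, hi⟩ : ∃ i : ℕ, m = j + i := ⟨m - j, by omega⟩
    have e2 : (m : ℤ) - j = (i : ℤ) := by rw [hi]; push_cast; ring
    rw [e2, ← f7_hh4]
    norm_num
    ring
  have h := f7_sum4 m m
  rw [← e] at h
  have e3 : 3 * (120 * DD 2 m 4) = 3 * ((m : ℤ) * (m + 1) * (m + 2) * (m + 3) * (m + 4)) := by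
    linarith
  linarith

/-- `2 hh m 3 = (m+1) (m+2)`, `6 hh m 4 = (m+1) (m+2) (m+3)`. With `AA_eq` (and `b = b' + 1`, so
that `b - 1 = b'`) one gets
`24 AA a b 2 3 = (a-b+1) (b+1) (a+2) (a^2 - a b + b^2 + 3 a)`
(checked numerically). All factors are positive. -/
theorem AA_two_three {a b : ℕ} (hb : 1 ≤ b) (hab : b ≤ a) : 0 < AA a b 2 3 := by
  obtain ⟨c, rfl⟩ : ∃ c, b = c + 1 := ⟨b - 1, by omega⟩
  obtain ⟨d, rfl⟩ : ∃ d, a = c + 1 + d := ⟨a - (c + 1), by omega⟩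
  have e := AA_eq hb hab 2 3
  rw [Nat.add_sub_cancel] at e
  have a1 := DD_two_three (c + 1 + d)
  have a2 := DD_two_three (c + 1)
  have a3 := DD_two_three (c + 1 + d + 1)
  have a4 := DD_two_three c
  have b1 := f7_hh3 (c + 1)
  have b2 := f7_hh3 (c + 1 + d)
  have b3 := f7_hh3 c
  have b4 := f7_hh3 (c + 1 + d + 1)
  have key : 48 * AA (c + 1 + d) (c + 1) 2 3 =
      (24 * DD 2 (c + 1 + d) 3) * (2 * hh ((c + 1 : ℕ) : ℤ) 3) +
      (2 * hh ((c + 1 + d : ℕ) : ℤ) 3) * (24 * DD 2 (c + 1) 3) -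
      (24 * DD 2 (c + 1 + d + 1) 3) * (2 * hh ((c : ℕ) : ℤ) 3) -
      (2 * hh ((c + 1 + d + 1 : ℕ) : ℤ) 3) * (24 * DD 2 c 3) := by
    rw [e]
    ring
  rw [a1, a2, a3, a4, b1, b2, b3, b4] at key
  push_cast at key
  have key2 : 48 * AA (c + 1 + d) (c + 1) 2 3 =
      2 * (((d : ℤ) + 1) * (c + 2) * (c + d + 3) *
        ((c : ℤ) ^ 2 + c * d + d ^ 2 + 5 * c + 4 * d + 4)) := by
    rw [key]
    ring
  have hc : (0 : ℤ) ≤ c := Int.natCast_nonneg c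
  have hd : (0 : ℤ) ≤ d := Int.natCast_nonneg d
  have pos : (0 : ℤ) < ((d : ℤ) + 1) * (c + 2) * (c + d + 3) *
        ((c : ℤ) ^ 2 + c * d + d ^ 2 + 5 * c + 4 * d + 4) := by positivity
  linarith

/-- In the same way
`720 AA a b 2 4 = (a-b+1) (a+2) (a+3) (b+1) (b+2) (3 a^2 + 3 b^2 - 2 a b + 12 a + 4 b)`. -/
theorem AA_two_four {a b : ℕ} (hb : 1 ≤ b) (hab : b ≤ a) : 0 < AA a b 2 4 := by
  obtain ⟨c, rfl⟩ : ∃ c, b = c + 1 := ⟨b - 1, by omega⟩
  obtain ⟨d, rfl⟩ : ∃ d, a = c + 1 + d := ⟨a - (c + 1), by omega⟩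
  have e := AA_eq hb hab 2 4
  rw [Nat.add_sub_cancel] at e
  have a1 := DD_two_four (c + 1 + d)
  have a2 := DD_two_four (c + 1)
  have a3 := DD_two_four (c + 1 + d + 1)
  have a4 := DD_two_four c
  have b1 := f7_hh4 (c + 1)
  have b2 := f7_hh4 (c + 1 + d)
  have b3 := f7_hh4 c
  have b4 := f7_hh4 (c + 1 + d + 1)
  have key : 720 * AA (c + 1 + d) (c + 1) 2 4 =
      (120 * DD 2 (c + 1 + d) 4) * (6 * hh ((c + 1 : ℕ) : ℤ) 4) +
      (6 * hh ((c + 1 + d : ℕ) : ℤ) 4) * (120 * DD 2 (c + 1) 4) -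
      (120 * DD 2 (c + 1 + d + 1) 4) * (6 * hh ((c : ℕ) : ℤ) 4) -
      (6 * hh ((c + 1 + d + 1 : ℕ) : ℤ) 4) * (120 * DD 2 c 4) := by
    rw [e]
    ring
  rw [a1, a2, a3, a4, b1, b2, b3, b4] at key
  push_cast at key
  have key2 : 720 * AA (c + 1 + d) (c + 1) 2 4 =
      (((d : ℤ) + 1) * (c + d + 3) * (c + d + 4) * (c + 2) * (c + 3) *
        (4 * (c : ℤ) ^ 2 + 4 * c * d + 3 * d ^ 2 + 24 * c + 16 * d + 20)) := by
    rw [key]
    ring
  have hc : (0 : ℤ) ≤ c := Int.natCast_nonneg c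
  have hd : (0 : ℤ) ≤ d := Int.natCast_nonneg d
  have pos : (0 : ℤ) < ((d : ℤ) + 1) * (c + d + 3) * (c + d + 4) * (c + 2) * (c + 3) *
        (4 * (c : ℤ) ^ 2 + 4 * c * d + 3 * d ^ 2 + 24 * c + 16 * d + 20) := by positivity
  linarith

end Pool.Agent.Lib.H70S
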