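import Mathlib

/-! # Chunk S6 (M): the first `l` power sums determine `l` real numbers -/

namespace Pool.Agent.Lib.H70S

open Finset in
theorem s6_esymm {l : ℕ} (x y : Fin l → ℝ)
    (h : ∀ k, 1 ≤ k → k ≤ l → ∑ i, x i ^ k = ∑ i, y i ^ k) (k : ℕ) (hk : k ≤ l) :
    MvPolynomial.aeval x (MvPolynomial.esymm (Fin l) ℝ k) =
      MvPolynomial.aeval y (MvPolynomial.esymm (Fin l) ℝ k) := by
  induction k using Nat.strong_induction_on with
  | _ k ih =>
    rcases Nat.eq_zero_or_pos k with rfl | hpos
    · simp [MvPolynomial.esymm_zero]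
    have key := MvPolynomial.mul_esymm_eq_sum (Fin l) ℝ k
    have kx := congrArg (MvPolynomial.aeval x) key
    have ky := congrArg (MvPolynomial.aeval y) key
    have hk0 : (k : ℝ) ≠ 0 := by positivity
    have e : (k : ℝ) * MvPolynomial.aeval x (MvPolynomial.esymm (Fin l) ℝ k) =
        (k : ℝ) * MvPolynomial.aeval y (MvPolynomial.esymm (Fin l) ℝ k) := by
      simp only [map_mul, map_natCast, map_sum, map_pow, map_neg, map_one] at kx ky
      rw [kx, ky]
      congr 1
      refine Finset.sum_congr rfl fun a ha => ?_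
      rw [Finset.mem_filter, Finset.HasAntidiagonal.mem_antidiagonal] at ha
      obtain ⟨ha1, ha2⟩ := ha
      have e1 := ih a.1 ha2 (by omega)
      have e2 : MvPolynomial.aeval x (MvPolynomial.psum (Fin l) ℝ a.2) =
          MvPolynomial.aeval y (MvPolynomial.psum (Fin l) ℝ a.2) := by
        simp only [MvPolynomial.psum, map_sum, map_pow, MvPolynomial.aeval_X]
        exact h a.2 (by omega) (by omega)
      rw [e1, e2]
    exact mul_left_cancel₀ hk0 e

/-- Newton's identities (`MvPolynomial.mul_esymm_eq_sum` or `Multiset` versions) show that the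
elementary symmetric functions `e_k`, `k ≤ l`, agree, so the polynomials `∏ (X - x i)` and
`∏ (X - y i)` agree (`Multiset.prod_X_sub_C_coeff` and similar), hence their roots. -/
theorem eq_of_psums {l : ℕ} (x y : Fin l → ℝ)
    (h : ∀ k, 1 ≤ k → k ≤ l → ∑ i, x i ^ k = ∑ i, y i ^ k) :
    (Finset.univ.val.map x) = (Finset.univ.val.map y) := by
  have hc : ∀ z : Fin l → ℝ, Multiset.card (Finset.univ.val.map z) = l := by
    intro z; simp
  have hp : ((Finset.univ.val.map x).map fun t => Polynomial.X - Polynomial.C t).prod =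
      ((Finset.univ.val.map y).map fun t => Polynomial.X - Polynomial.C t).prod := by
    rw [Multiset.prod_X_sub_X_eq_sum_esymm, Multiset.prod_X_sub_X_eq_sum_esymm, hc x, hc y]
    refine Finset.sum_congr rfl fun j hj => ?_
    rw [Finset.mem_range] at hj
    have := s6_esymm x y h j (by omega)
    rw [MvPolynomial.aeval_esymm_eq_multiset_esymm,
      MvPolynomial.aeval_esymm_eq_multiset_esymm] at this
    rw [this]
  have hr := congrArg Polynomial.roots hp
  rwa [Polynomial.roots_multiset_prod_X_sub_C, Polynomial.roots_multiset_prod_X_sub_C] at hr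

end Pool.Agent.Lib.H70S
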