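import Pool.Agent.Lib.H70S.S5
import Pool.Agent.Lib.H70S.S6

/-! # Chunk S7 (S/M): the map is injective for non-exceptional lengths, without any condition on
the sums -/

namespace Pool.Agent.Lib.H70S

open Pool.Agent.SchurTwoRow

/-- Equal multisets `prsFun` give equal power sums of the logarithms in all degrees `k` for which
no coefficient `AA a b n l`, `1 ≤ n ≤ k`, vanishes. Strong induction with `sR_EE`,
`AA_mul_eq_zero`. -/
theorem psum_eq_of_prsFun {a b : ℕ} (hb : 1 ≤ b) (hab : b ≤ a) {l : ℕ} {x y : Fin l → ℕ}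
    (hx : ∀ i, 0 < x i) (hy : ∀ i, 0 < y i) (h : prsFun a b x = prsFun a b y) (k : ℕ)
    (hk : ∀ n, 1 ≤ n → n ≤ k → AA a b n l ≠ 0) :
    ∀ n ≤ k, ∑ i, Real.log (x i) ^ n = ∑ i, Real.log (y i) ^ n := by
  have hS : sR a b (fun i => EE (Real.log (x i))) = sR a b (fun i => EE (Real.log (y i))) := by
    rw [sR_EE a b x hx, sR_EE a b y hy, h]
  intro n
  induction n using Nat.strong_induction_on with
  | _ n ih =>
    intro hn
    rcases Nat.eq_zero_or_pos n with h0 | h0
    · subst h0
      simp only [pow_zero]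
    · have h1 := AA_mul_eq_zero hb hab (fun i => Real.log (x i)) (fun i => Real.log (y i)) hS n h0
        (fun m hm => ih m hm (hm.le.trans hn))
      rcases mul_eq_zero.mp h1 with h2 | h2
      · exact absurd (by exact_mod_cast h2) (hk n h0 hn)
      · exact sub_eq_zero.mp h2

theorem s7_map {l : ℕ} {x : Fin l → ℕ} (hx : ∀ i, 0 < x i) :
    (Finset.univ.val.map (fun i => Real.log (x i))).map (fun t => ⌊Real.exp t⌋₊)
      = Finset.univ.val.map x := by
  rw [Multiset.map_map]
  refine Multiset.map_congr rfl ?_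
  intro i _
  show ⌊Real.exp (Real.log (x i))⌋₊ = x i
  rw [Real.exp_log (Nat.cast_pos.mpr (hx i)), Nat.floor_natCast]

/-- For `l ≥ 2` not in `Exc a b` (`AA_one_pos`, `eq_of_psums`, `Real.exp_log` or injectivity of
the logarithm on positive numbers). -/
theorem eq_of_not_exc {a b : ℕ} (hb : 1 ≤ b) (hab : b ≤ a) {l : ℕ} (hl : 2 ≤ l)
    (hE : l ∉ Exc a b) {x y : Fin l → ℕ} (hx : ∀ i, 0 < x i) (hy : ∀ i, 0 < y i)
    (h : prsFun a b x = prsFun a b y) :
    (Finset.univ.val.map x) = (Finset.univ.val.map y) := by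
  have hk : ∀ n, 1 ≤ n → n ≤ l → AA a b n l ≠ 0 := by
    intro n h1 h2 h0
    rcases (by omega : n = 1 ∨ 2 ≤ n) with h3 | h3
    · subst h3
      exact (AA_one_pos hb hab hl).ne' h0
    · exact hE ⟨n, h3, h2, h0⟩
  have hps := psum_eq_of_prsFun hb hab hx hy h l hk
  have hm := eq_of_psums (fun i => Real.log (x i)) (fun i => Real.log (y i))
    (fun k _ hkl => hps k hkl)
  rw [← s7_map hx, ← s7_map hy, hm]

end Pool.Agent.Lib.H70S
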