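import Pool.Agent.Lib.H70S.V0
import Pool.Agent.Lib.H70S.S7

/-! # Chunk V1 (M): multisets -/

namespace Pool.Agent.Lib.H70S

open Pool.Agent.SchurTwoRow

theorem v1_map_get (L : List ℕ) : (Finset.univ.val.map L.get) = (L : Multiset ℕ) := by
  simp only [Fin.univ_def]
  simp

/-- Every multiset of natural numbers is `univ.val.map x` for some `x : Fin l → ℕ`,
`l = card M` (the sorted list). -/
theorem exists_fun (M : Multiset ℕ) :
    ∃ x : Fin (Multiset.card M) → ℕ, (Finset.univ.val.map x) = M := by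
  induction M using Quotient.inductionOn with
  | h L => exact ⟨L.get, v1_map_get L⟩

theorem v1_exists_fun (M : Multiset ℕ) {l : ℕ} (h : Multiset.card M = l) :
    ∃ x : Fin l → ℕ, (Finset.univ.val.map x) = M := by
  subst h
  exact exists_fun M

/-- Every element of `PRS a b M` is a product of `a + b` elements of `M`. -/
theorem mem_PRS {a b : ℕ} {M : Multiset ℕ} {z : ℕ} (hz : z ∈ PRS a b M) :
    ∃ f : Fin (a + b) → ℕ, (∀ i, f i ∈ M) ∧ z = ∏ i, f i := by
  unfold PRS at hz
  rw [prsFun_eq, Multiset.mem_map] at hz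
  obtain ⟨T, _, hT⟩ := hz
  have hmem : ∀ i, (M.sort (fun x y => y ≤ x)).get i ∈ M := by
    intro i
    have : (M.sort (fun x y => y ≤ x)).get i ∈ M.sort (fun x y => y ≤ x) := List.get_mem _ _
    exact (Multiset.mem_sort (r := fun x y => y ≤ x)).mp this
  refine ⟨Fin.append (fun i => (M.sort (fun x y => y ≤ x)).get (T.1 i))
    (fun j => (M.sort (fun x y => y ≤ x)).get (T.2 j)), ?_, ?_⟩
  · intro i
    refine Fin.addCases (fun i => ?_) (fun i => ?_) i
    · rw [Fin.append_left]; exact hmem _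
    · rw [Fin.append_right]; exact hmem _
  · rw [← hT, Fin.prod_univ_add]
    simp only [Fin.append_left, Fin.append_right]
    rfl

/-- Twisted multiplicative maps: `Φ (∏ f i) = ∏ φ (f i)` for products of `a + b` elements of
`M`. (`PRS_map` for a function `x` with multiset `M` and for `φ ∘ x`.) -/
theorem PRS_map_map {a b : ℕ} (hb : 1 ≤ b) (hab : b ≤ a) {M : Multiset ℕ}
    (hM : ∀ x ∈ M, 0 < x) (φ Φ : ℕ → ℕ) (hφ : ∀ x ∈ M, 0 < φ x)
    (h : ∀ f : Fin (a + b) → ℕ, (∀ i, f i ∈ M) → Φ (∏ i, f i) = ∏ i, φ (f i)) :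
    PRS a b (M.map φ) = (PRS a b M).map Φ := by
  obtain ⟨x, hx⟩ := exists_fun M
  have hmem : ∀ i, x i ∈ M := by
    intro i
    rw [← hx]
    exact Multiset.mem_map_of_mem _ (Finset.mem_univ_val i)
  have e1 : M.map φ = Finset.univ.val.map (fun i => φ (x i)) := by
    conv_lhs => rw [← hx]
    rw [Multiset.map_map]
    rfl
  have e2 : PRS a b M = prsFun a b x := by
    conv_lhs => rw [← hx]
    exact PRS_map hb hab (fun i => hM _ (hmem i))
  rw [e1, PRS_map hb hab (fun i => hφ _ (hmem i)), e2, prsFun_eq, prsFun_eq, Multiset.map_map]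
  refine Multiset.map_congr rfl (fun T _ => ?_)
  have hf := h (Fin.append (fun i => x (T.1 i)) (fun j => x (T.2 j))) (by
    intro i
    refine Fin.addCases (fun i => ?_) (fun i => ?_) i
    · rw [Fin.append_left]; exact hmem _
    · rw [Fin.append_right]; exact hmem _)
  rw [Fin.prod_univ_add, Fin.prod_univ_add] at hf
  simp only [Fin.append_left, Fin.append_right] at hf
  exact hf.symm

theorem v1_length (M : Multiset ℕ) :
    (M.sort (fun x y => y ≤ x)).length = Multiset.card M := Multiset.length_sort _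

/-- Equal `PRS` for multisets with at least two elements: the same number of elements
(`length_eq`). -/
theorem card_eq_of_PRS {a b : ℕ} (hb : 1 ≤ b) {M N : Multiset ℕ}
    (hM : 2 ≤ Multiset.card M) (hN : 2 ≤ Multiset.card N) (h : PRS a b M = PRS a b N) :
    Multiset.card M = Multiset.card N := by
  have := length_eq (x := (M.sort (fun x y => y ≤ x)).get)
    (y := (N.sort (fun x y => y ≤ x)).get) hb (by rw [v1_length]; exact hM)
    (by rw [v1_length]; exact hN) h
  rw [v1_length, v1_length] at this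
  exact this

/-- `eq_of_not_exc` for multisets. -/
theorem PRS_inj {a b : ℕ} (hb : 1 ≤ b) (hab : b ≤ a) {M N : Multiset ℕ}
    (hM0 : ∀ x ∈ M, 0 < x) (hN0 : ∀ x ∈ N, 0 < x) (hM : 2 ≤ Multiset.card M)
    (hN : 2 ≤ Multiset.card N) (hE : Multiset.card M ∉ Exc a b)
    (h : PRS a b M = PRS a b N) : M = N := by
  have hc := card_eq_of_PRS hb hM hN h
  obtain ⟨x, hx⟩ := exists_fun M
  obtain ⟨y, hy⟩ := v1_exists_fun N hc.symm
  have hx0 : ∀ i, 0 < x i := by
    intro i
    have h1 := Multiset.mem_map_of_mem x (Finset.mem_univ_val i)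
    rw [hx] at h1
    exact hM0 _ h1
  have hy0 : ∀ i, 0 < y i := by
    intro i
    have h1 := Multiset.mem_map_of_mem y (Finset.mem_univ_val i)
    rw [hy] at h1
    exact hN0 _ h1
  have e1 : PRS a b M = prsFun a b x := by
    conv_lhs => rw [← hx]
    exact PRS_map hb hab hx0
  have e2 : PRS a b N = prsFun a b y := by
    conv_lhs => rw [← hy]
    exact PRS_map hb hab hy0
  rw [e1, e2] at h
  rw [← hx, ← hy]
  exact eq_of_not_exc hb hab hM hE hx0 hy0 h

theorem v1_tab_small {a b l : ℕ} (hb : 1 ≤ b) (hab : b ≤ a) (hl : l < 2) :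
    tableaux a b l = ∅ := by
  rw [Finset.eq_empty_iff_forall_notMem]
  intro T hT
  rw [mem_tableaux] at hT
  have h3 := hT.2.2 ⟨0, by omega⟩ ⟨0, by omega⟩ rfl
  rw [Fin.lt_def] at h3
  have h4 := (T.2 ⟨0, by omega⟩).isLt
  omega

/-- Fewer than two elements: there is no tableau. -/
theorem PRS_small {a b : ℕ} (hb : 1 ≤ b) (hab : b ≤ a) {M : Multiset ℕ}
    (hM : Multiset.card M < 2) : PRS a b M = 0 := by
  unfold PRS
  rw [prsFun_eq, v1_tab_small hb hab (by rw [v1_length]; exact hM)]
  rfl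

/-- At least two elements: there is a tableau. -/
theorem PRS_ne_zero {a b : ℕ} {M : Multiset ℕ} (hM : 2 ≤ Multiset.card M) : PRS a b M ≠ 0 := by
  unfold PRS
  rw [prsFun_eq]
  intro h0
  rw [Multiset.map_eq_zero] at h0
  have hl : 2 ≤ (M.sort (fun x y => y ≤ x)).length := by rw [v1_length]; exact hM
  generalize (M.sort (fun x y => y ≤ x)).length = l at *
  have hmem : ((fun _ => ⟨0, by omega⟩, fun _ => ⟨1, by omega⟩) :
      (Fin a → Fin l) × (Fin b → Fin l)) ∈ tableaux a b l := by
    rw [mem_tableaux]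
    refine ⟨fun _ _ _ => le_rfl, fun _ _ _ => le_rfl, fun _ _ _ => ?_⟩
    rw [Fin.lt_def]
    show 0 < 1
    omega
  have hmem2 : ((fun _ => ⟨0, by omega⟩, fun _ => ⟨1, by omega⟩) :
      (Fin a → Fin l) × (Fin b → Fin l)) ∈ (tableaux a b l).val := hmem
  rw [h0] at hmem2
  exact Multiset.notMem_zero _ hmem2

end Pool.Agent.Lib.H70S
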