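import Pool.Agent.Lib.H70S.F3
import Pool.Agent.Lib.H70S.F4
import Pool.Agent.Lib.H70S.F5
import Pool.Agent.Lib.H70S.F6
import Pool.Agent.Lib.H70S.F7
import Pool.Agent.Lib.H70S.V1

/-! # Chunk F8 (M): at most four parts -/

namespace Pool.Agent.Lib.H70S

open Pool.Agent.SchurTwoRow

/-- The sorted function of a multiset. -/
theorem f8_fun (M : Multiset ℕ) (l : ℕ) (hl : Multiset.card M = l) :
    ∃ x : Fin l → ℕ, (∀ i j, i ≤ j → x j ≤ x i) ∧ Finset.univ.val.map x = M := by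
  subst hl
  have hlen : (M.sort (fun x y => y ≤ x)).length = Multiset.card M :=
    Multiset.length_sort _
  have hs : (M.sort (fun x y => y ≤ x)).Pairwise (fun x y => y ≤ x) :=
    Multiset.pairwise_sort M (fun x y => y ≤ x)
  rw [← hlen]
  refine ⟨(M.sort (fun x y => y ≤ x)).get, ?_, ?_⟩
  · intro i j hij
    rcases hij.lt_or_eq with h | h
    · exact List.pairwise_iff_get.mp hs i j h
    · rw [h]
  · rw [Fin.univ_val_map, List.ofFn_get]
    exact Multiset.sort_eq M (fun x y => y ≤ x)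

theorem f8_log {m n : ℕ} (hm : 0 < m) (hn : 0 < n) (h : Real.log m = Real.log n) : m = n := by
  have h1 : (m : ℝ) = n :=
    Real.log_injOn_pos (Set.mem_Ioi.mpr (Nat.cast_pos.mpr hm))
      (Set.mem_Ioi.mpr (Nat.cast_pos.mpr hn)) h
  exact_mod_cast h1

theorem f8_le {m n : ℕ} (hm : 0 < m) (h : m ≤ n) : Real.log m ≤ Real.log n :=
  Real.log_le_log (Nat.cast_pos.mpr hm) (Nat.cast_le.mpr h)

theorem f8_exp {l : ℕ} {x y : Fin l → ℕ} (hx : ∀ i, 0 < x i) (hy : ∀ i, 0 < y i)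
    (hs : (Finset.univ.val.map x).sum = (Finset.univ.val.map y).sum) :
    ∑ i, Real.exp (Real.log (x i)) = ∑ i, Real.exp (Real.log (y i)) := by
  have h1 : ∑ i, x i = ∑ i, y i := hs
  have h2 : ∀ i, Real.exp (Real.log (x i)) = (x i : ℝ) := fun i =>
    Real.exp_log (Nat.cast_pos.mpr (hx i))
  have h3 : ∀ i, Real.exp (Real.log (y i)) = (y i : ℝ) := fun i =>
    Real.exp_log (Nat.cast_pos.mpr (hy i))
  rw [Finset.sum_congr rfl (fun i _ => h2 i), Finset.sum_congr rfl (fun i _ => h3 i)]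
  exact_mod_cast h1

/-- two parts -/
theorem f8_two {a b : ℕ} (hb : 1 ≤ b) (hab : b ≤ a) {x y : Fin 2 → ℕ}
    (hx : ∀ i j, i ≤ j → x j ≤ x i) (hy : ∀ i j, i ≤ j → y j ≤ y i) (hx0 : ∀ i, 0 < x i)
    (hy0 : ∀ i, 0 < y i)
    (hs : (Finset.univ.val.map x).sum = (Finset.univ.val.map y).sum)
    (h : prsFun a b x = prsFun a b y) : x = y := by
  have h1 := psum_eq_of_prsFun hb hab hx0 hy0 h 1 (by
    intro n h1 h2
    have : n = 1 := le_antisymm h2 h1
    subst this
    exact (AA_one_pos hb hab le_rfl).ne') 1 le_rfl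
  simp only [pow_one, Fin.sum_univ_two] at h1
  have hsum : ∑ i, x i = ∑ i, y i := hs
  rw [Fin.sum_univ_two, Fin.sum_univ_two] at hsum
  have p0 : (0 : ℝ) < x 0 := Nat.cast_pos.mpr (hx0 0)
  have p1 : (0 : ℝ) < x 1 := Nat.cast_pos.mpr (hx0 1)
  have q0 : (0 : ℝ) < y 0 := Nat.cast_pos.mpr (hy0 0)
  have q1 : (0 : ℝ) < y 1 := Nat.cast_pos.mpr (hy0 1)
  rw [← Real.log_mul p0.ne' p1.ne', ← Real.log_mul q0.ne' q1.ne'] at h1
  have hprod : (x 0 : ℝ) * x 1 = y 0 * y 1 :=
    Real.log_injOn_pos (Set.mem_Ioi.mpr (mul_pos p0 p1)) (Set.mem_Ioi.mpr (mul_pos q0 q1)) h1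
  have hprod' : x 0 * x 1 = y 0 * y 1 := by exact_mod_cast hprod
  have hx01 := hx 0 1 (Fin.zero_le _)
  have hy01 := hy 0 1 (Fin.zero_le _)
  have hz : ((x 0 : ℤ) - y 0) * ((x 0 : ℤ) - y 1) = 0 := by
    have e1 : (x 0 : ℤ) * x 1 = y 0 * y 1 := by exact_mod_cast hprod'
    have e2 : (x 0 : ℤ) + x 1 = y 0 + y 1 := by exact_mod_cast hsum
    have e3 : (x 1 : ℤ) = y 0 + y 1 - x 0 := by linarith
    rw [e3] at e1
    linarith
  have h0 : x 0 = y 0 := by
    rcases mul_eq_zero.mp hz with h | h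
    · omega
    · omega
  funext i
  fin_cases i
  · exact h0
  · show x 1 = y 1
    omega

/-- three parts -/
theorem f8_three {a b : ℕ} (hb : 1 ≤ b) (hab : b ≤ a) {x y : Fin 3 → ℕ}
    (hx : ∀ i j, i ≤ j → x j ≤ x i) (hy : ∀ i j, i ≤ j → y j ≤ y i) (hx0 : ∀ i, 0 < x i)
    (hy0 : ∀ i, 0 < y i)
    (hs : (Finset.univ.val.map x).sum = (Finset.univ.val.map y).sum)
    (h : prsFun a b x = prsFun a b y) : x = y := by
  have hps := psum_eq_of_prsFun hb hab hx0 hy0 h 2 (by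
    intro n h1 h2
    rcases (by omega : n = 1 ∨ n = 2) with rfl | rfl
    · exact (AA_one_pos hb hab (by norm_num)).ne'
    · exact (AA_two_three hb hab).ne')
  have h1 := hps 1 (by norm_num)
  have h2 := hps 2 le_rfl
  have he := f8_exp hx0 hy0 hs
  rw [Fin.sum_univ_three, Fin.sum_univ_three] at h1 h2 he
  simp only [pow_one] at h1
  have ht : (a : ℝ) * Real.log (x 0) + b * Real.log (x 1) =
      (a : ℝ) * Real.log (y 0) + b * Real.log (y 1) := top_rel (k := 1) hb hab hx hy hx0 hy0 h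
  have hbt : (a : ℝ) * Real.log (x 2) + b * Real.log (x 1) =
      (a : ℝ) * Real.log (y 2) + b * Real.log (y 1) := bot_rel (k := 1) hb hab hx hy hx0 hy0 h
  obtain ⟨e0, e1, e2⟩ := three_real (by exact_mod_cast hb) (by exact_mod_cast hab)
    (f8_le (hx0 1) (hx 0 1 (by decide))) (f8_le (hx0 2) (hx 1 2 (by decide)))
    ht hbt h1 h2 he
  funext i
  fin_cases i
  · exact f8_log (hx0 0) (hy0 0) e0
  · exact f8_log (hx0 1) (hy0 1) e1
  · exact f8_log (hx0 2) (hy0 2) e2

/-- four parts -/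
theorem f8_four {a b : ℕ} (hb : 1 ≤ b) (hab : b ≤ a) {x y : Fin 4 → ℕ}
    (hx : ∀ i j, i ≤ j → x j ≤ x i) (hy : ∀ i j, i ≤ j → y j ≤ y i) (hx0 : ∀ i, 0 < x i)
    (hy0 : ∀ i, 0 < y i)
    (hs : (Finset.univ.val.map x).sum = (Finset.univ.val.map y).sum)
    (h : prsFun a b x = prsFun a b y) : x = y := by
  have hps := psum_eq_of_prsFun hb hab hx0 hy0 h 2 (by
    intro n h1 h2
    rcases (by omega : n = 1 ∨ n = 2) with rfl | rfl
    · exact (AA_one_pos hb hab (by norm_num)).ne'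
    · exact (AA_two_four hb hab).ne')
  have h1 := hps 1 (by norm_num)
  have h2 := hps 2 le_rfl
  have he := f8_exp hx0 hy0 hs
  rw [Fin.sum_univ_four, Fin.sum_univ_four] at h1 h2 he
  simp only [pow_one] at h1
  have ht : (a : ℝ) * Real.log (x 0) + b * Real.log (x 1) =
      (a : ℝ) * Real.log (y 0) + b * Real.log (y 1) := top_rel (k := 2) hb hab hx hy hx0 hy0 h
  have hbt : (a : ℝ) * Real.log (x 3) + b * Real.log (x 2) =
      (a : ℝ) * Real.log (y 3) + b * Real.log (y 2) := bot_rel (k := 2) hb hab hx hy hx0 hy0 h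
  have hx1 := f8_le (hx0 1) (hx 0 1 (by decide))
  have hx2 := f8_le (hx0 2) (hx 1 2 (by decide))
  have hx3 := f8_le (hx0 3) (hx 2 3 (by decide))
  have hy1 := f8_le (hy0 1) (hy 0 1 (by decide))
  have hy2 := f8_le (hy0 2) (hy 1 2 (by decide))
  have hy3 := f8_le (hy0 3) (hy 2 3 (by decide))
  have hfin : Real.log (x 0) = Real.log (y 0) ∧ Real.log (x 1) = Real.log (y 1) ∧
      Real.log (x 2) = Real.log (y 2) ∧ Real.log (x 3) = Real.log (y 3) := by
    rcases hab.lt_or_eq with hlt | heq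
    · obtain ⟨hm, hm'⟩ := second_rel hb hlt hx hy hx0 hy0 h
      exact four_real (by exact_mod_cast hb) (by exact_mod_cast hlt) hx1 hx2 hx3 hy1 hy2 hy3
        ht hbt h1 h2 he hm hm'
    · subst heq
      have hsr := second_rel_rect hb hx hy hx0 hy0 h
      have hb0 : (0 : ℝ) < b := by exact_mod_cast hb
      have ht' : Real.log (x 0) + Real.log (x 1) = Real.log (y 0) + Real.log (y 1) := by
        have : (b : ℝ) * (Real.log (x 0) + Real.log (x 1))
            = b * (Real.log (y 0) + Real.log (y 1)) := by linarith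
        exact mul_left_cancel₀ hb0.ne' this
      have hbt' : Real.log (x 3) + Real.log (x 2) = Real.log (y 3) + Real.log (y 2) := by
        have : (b : ℝ) * (Real.log (x 3) + Real.log (x 2))
            = b * (Real.log (y 3) + Real.log (y 2)) := by linarith
        exact mul_left_cancel₀ hb0.ne' this
      exact four_real_rect hx1 hx2 hx3 ht' hbt' hsr h2 he
  obtain ⟨e0, e1, e2, e3⟩ := hfin
  funext i
  fin_cases i
  · exact f8_log (hx0 0) (hy0 0) e0
  · exact f8_log (hx0 1) (hy0 1) e1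
  · exact f8_log (hx0 2) (hy0 2) e2
  · exact f8_log (hx0 3) (hy0 3) e3

/-- Let `x`, `y : Fin l → ℕ` be the sorted functions of `M`, `N` (`card_eq_of_PRS`),
`l = 2, 3, 4`. The power sums of the logarithms agree in degree `1` (`psum_eq_of_prsFun`,
`AA_one_pos`), and for `l = 3, 4` in degree `2` (`AA_two_three`, `AA_two_four`);
`∑ exp (log x_i) = M.sum`.
`l = 2`: the products and the sums agree, hence the two numbers.
`l = 3`: `top_rel`, `bot_rel`, `three_real`.
`l = 4`: `top_rel`, `bot_rel`, `second_rel`, `four_real` for `b < a`, and `top_rel`, `bot_rel`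
(divide by `b`), `second_rel_rect`, `four_real_rect` for `a = b`. -/
theorem eq_of_card_le_four {a b : ℕ} (hb : 1 ≤ b) (hab : b ≤ a) {M N : Multiset ℕ}
    (hM0 : ∀ x ∈ M, 0 < x) (hN0 : ∀ x ∈ N, 0 < x) (hM : 2 ≤ Multiset.card M)
    (hN : 2 ≤ Multiset.card N) (h4 : Multiset.card M ≤ 4) (hsum : M.sum = N.sum)
    (h : PRS a b M = PRS a b N) : M = N := by
  have hcard := card_eq_of_PRS hb hM hN h
  obtain ⟨x, hx, hxM⟩ := f8_fun M (Multiset.card M) rfl
  obtain ⟨y, hy, hyN⟩ := f8_fun N (Multiset.card M) hcard.symm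
  have hx0 : ∀ i, 0 < x i := fun i => hM0 _ (by
    rw [← hxM]
    exact Multiset.mem_map_of_mem _ (Finset.mem_univ i))
  have hy0 : ∀ i, 0 < y i := fun i => hN0 _ (by
    rw [← hyN]
    exact Multiset.mem_map_of_mem _ (Finset.mem_univ i))
  have h' : prsFun a b x = prsFun a b y := by
    rw [← PRS_map hb hab hx0, ← PRS_map hb hab hy0, hxM, hyN, h]
  have hs : (Finset.univ.val.map x).sum = (Finset.univ.val.map y).sum := by
    rw [hxM, hyN, hsum]
  have hxy : x = y := by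
    clear hxM hyN
    generalize Multiset.card M = l at *
    rcases (by omega : l = 2 ∨ l = 3 ∨ l = 4) with rfl | rfl | rfl
    · exact f8_two hb hab hx hy hx0 hy0 hs h'
    · exact f8_three hb hab hx hy hx0 hy0 hs h'
    · exact f8_four hb hab hx hy hx0 hy0 hs h'
  rw [← hxM, ← hyN, hxy]

end Pool.Agent.Lib.H70S
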