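import Pool.Agent.Lib.H70S.JDefs

/-! # Chunk J1 (S/M): recursion for words -/

namespace Pool.Agent.Lib.H70S

open Pool.Agent.SchurTwoRow

variable {R : Type*} [CommRing R]

theorem j1_mono {m l : ℕ} (x : Fin l) (r : Fin m → Fin l) :
    Monotone (Fin.cons x r : Fin (m + 1) → Fin l) ↔ (∀ t, x ≤ r t) ∧ Monotone r := by
  constructor
  · intro h
    refine ⟨fun t => ?_, fun i j hij => ?_⟩
    · have := h (Fin.zero_le t.succ)
      simpa using this
    · have := h (Fin.succ_le_succ_iff.2 hij)
      simpa using this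
  · rintro ⟨h0, h1⟩
    intro i j
    refine Fin.cases ?_ (fun i => ?_) i
    · intro _
      refine Fin.cases ?_ (fun j => ?_) j
      · exact le_rfl
      · simp only [Fin.cons_zero, Fin.cons_succ]
        exact h0 j
    · refine Fin.cases ?_ (fun j => ?_) j
      · intro hij
        exact absurd hij (by simp)
      · intro hij
        simp only [Fin.cons_succ]
        exact h1 (Fin.succ_le_succ_iff.1 hij)

/-- Split off the first letter `x` of the word: sum over `Fin (m+1) → Fin l` as a sum over
`x : Fin l` and `r : Fin m → Fin l` with `Fin.cons x r` (`Fin.consEquiv` or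
`Fin.insertNthEquiv`, `Fintype.sum_equiv`, `Fintype.sum_prod_type`). The word `Fin.cons x r` is
monotone with all letters `≥ i` if and only if `i ≤ x`, `r` is monotone and all letters of `r`
are `≥ x`. The product is `u x * ∏ u (r t)` (`Fin.prod_univ_succ`). (`monotone_cons_iff` in
`SchurTwoRow/HSum.lean` is similar.) -/
theorem HG_succ (m i : ℕ) {l : ℕ} (u : Fin l → R) :
    HG (m + 1) i u = ∑ x : Fin l, if i ≤ x.val then u x * HG m x.val u else 0 := by
  classical
  unfold HG
  rw [← (Fin.consEquiv (fun _ : Fin (m + 1) => Fin l)).sum_comp, Fintype.sum_prod_type]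
  refine Finset.sum_congr rfl fun x _ => ?_
  by_cases hix : i ≤ x.val
  · rw [if_pos hix, Finset.mul_sum]
    refine Finset.sum_congr rfl fun r _ => ?_
    have hc : ((Fin.consEquiv (fun _ : Fin (m + 1) => Fin l)) (x, r) : Fin (m + 1) → Fin l) =
        Fin.cons x r := rfl
    rw [hc]
    have hiff : (Monotone (Fin.cons x r : Fin (m + 1) → Fin l) ∧
        ∀ t, i ≤ ((Fin.cons x r : Fin (m + 1) → Fin l) t).val) ↔
        (Monotone r ∧ ∀ t, x.val ≤ (r t).val) := by
      rw [j1_mono]
      constructor
      · rintro ⟨⟨h1, h2⟩, _⟩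
        exact ⟨h2, fun t => h1 t⟩
      · rintro ⟨h1, h2⟩
        refine ⟨⟨fun t => h2 t, h1⟩, fun t => ?_⟩
        refine Fin.cases ?_ (fun t => ?_) t
        · simpa using hix
        · simp only [Fin.cons_succ]
          exact hix.trans (h2 t)
    by_cases hr : Monotone r ∧ ∀ t, x.val ≤ (r t).val
    · rw [if_pos hr, if_pos (hiff.mpr hr), Fin.prod_univ_succ]
      simp
    · rw [if_neg hr, if_neg fun h => hr (hiff.mp h), mul_zero]
  · rw [if_neg hix]
    refine Finset.sum_eq_zero fun r _ => ?_
    rw [if_neg]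
    rintro ⟨_, h⟩
    exact hix (h 0)

theorem HG_zero (i : ℕ) {l : ℕ} (u : Fin l → R) : HG 0 i u = 1 := by
  classical
  unfold HG
  rw [Fintype.sum_unique, if_pos ⟨fun x => x.elim0, fun t => t.elim0⟩]
  simp

/-- `words m l` is the filter of the monotone functions; `Finset.sum_filter`. -/
theorem hR_eq_HG (m : ℕ) {l : ℕ} (u : Fin l → R) : hR m u = HG m 0 u := by
  classical
  unfold hR HG words
  rw [Finset.sum_filter]
  refine Finset.sum_congr rfl fun r _ => ?_
  by_cases h : Monotone r
  · rw [if_pos h, if_pos ⟨h, fun _ => Nat.zero_le _⟩]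
  · rw [if_neg h, if_neg fun h' => h h'.1]

end Pool.Agent.Lib.H70S
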