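import Pool.Agent.Lib.H70S.JDefs

/-! # Chunk J2 (M): recursion for tableaux -/

namespace Pool.Agent.Lib.H70S

open Pool.Agent.SchurTwoRow

variable {R : Type*} [CommRing R]

theorem j2_cons {a l : ℕ} (F : (Fin (a + 1) → Fin l) → R) :
    ∑ r, F r = ∑ x : Fin l, ∑ r : Fin a → Fin l, F (Fin.cons x r) := by
  rw [← (Fin.consEquiv (fun _ => Fin l)).sum_comp F, Fintype.sum_prod_type]
  rfl

theorem j2_mono {a l : ℕ} (x : Fin l) (r : Fin a → Fin l) :
    (∀ i j : Fin (a + 1), i ≤ j → (Fin.cons x r : Fin (a + 1) → Fin l) i ≤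
      (Fin.cons x r : Fin (a + 1) → Fin l) j) ↔
      (∀ t, x.val ≤ (r t).val) ∧ ∀ i j : Fin a, i ≤ j → r i ≤ r j := by
  constructor
  · intro h
    refine ⟨fun t => ?_, fun i j hij => ?_⟩
    · have := h 0 t.succ (Fin.zero_le _)
      rwa [Fin.cons_zero, Fin.cons_succ] at this
    · have := h i.succ j.succ (Fin.succ_le_succ_iff.2 hij)
      rwa [Fin.cons_succ, Fin.cons_succ] at this
  · rintro ⟨h1, h2⟩ i j hij
    induction i using Fin.cases with
    | zero =>
      induction j using Fin.cases with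
      | zero => exact le_rfl
      | succ j =>
        rw [Fin.cons_zero, Fin.cons_succ]
        exact h1 j
    | succ i =>
      induction j using Fin.cases with
      | zero => exact absurd hij (by simp [Fin.le_def])
      | succ j =>
        rw [Fin.cons_succ, Fin.cons_succ]
        exact h2 i j (Fin.succ_le_succ_iff.1 hij)

theorem j2_strict {a b l : ℕ} (x y : Fin l) (r : Fin a → Fin l) (s : Fin b → Fin l) :
    (∀ (i : Fin (a + 1)) (j : Fin (b + 1)), i.val = j.val →
      (Fin.cons x r : Fin (a + 1) → Fin l) i < (Fin.cons y s : Fin (b + 1) → Fin l) j) ↔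
      x.val < y.val ∧ ∀ (i : Fin a) (j : Fin b), i.val = j.val → r i < s j := by
  constructor
  · intro h
    refine ⟨?_, fun i j hij => ?_⟩
    · have := h 0 0 rfl
      rwa [Fin.cons_zero, Fin.cons_zero] at this
    · have := h i.succ j.succ (by simp [hij])
      rwa [Fin.cons_succ, Fin.cons_succ] at this
  · rintro ⟨h1, h2⟩ i j hij
    induction i using Fin.cases with
    | zero =>
      induction j using Fin.cases with
      | zero => exact h1
      | succ j => exact absurd hij (by simp)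
    | succ i =>
      induction j using Fin.cases with
      | zero => exact absurd hij (by simp)
      | succ j =>
        rw [Fin.cons_succ, Fin.cons_succ]
        exact h2 i j (by simpa using hij)

theorem j2_low {a l : ℕ} (i : ℕ) (x : Fin l) (r : Fin a → Fin l) :
    (∀ t : Fin (a + 1), i ≤ ((Fin.cons x r : Fin (a + 1) → Fin l) t).val) ↔
      i ≤ x.val ∧ ∀ t, i ≤ (r t).val := by
  rw [Fin.forall_fin_succ]
  rfl

theorem j2_iff {a b l : ℕ} (i k : ℕ) (x y : Fin l) (r : Fin a → Fin l) (s : Fin b → Fin l) :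
    (IsTableau (Fin.cons x r : Fin (a + 1) → Fin l) (Fin.cons y s : Fin (b + 1) → Fin l) ∧
      (∀ t, i ≤ ((Fin.cons x r : Fin (a + 1) → Fin l) t).val) ∧
      ∀ t, k ≤ ((Fin.cons y s : Fin (b + 1) → Fin l) t).val) ↔
      (i ≤ x.val ∧ k ≤ y.val ∧ x.val < y.val) ∧
        (IsTableau r s ∧ (∀ t, x.val ≤ (r t).val) ∧ ∀ t, y.val ≤ (s t).val) := by
  unfold IsTableau
  rw [j2_mono, j2_mono, j2_strict, j2_low, j2_low]
  constructor
  · rintro ⟨⟨⟨h1, h2⟩, ⟨h3, h4⟩, h5, h6⟩, ⟨h7, -⟩, h8, -⟩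
    exact ⟨⟨h7, h8, h5⟩, ⟨h2, h4, h6⟩, h1, h3⟩
  · rintro ⟨⟨h7, h8, h5⟩, ⟨h2, h4, h6⟩, h1, h3⟩
    exact ⟨⟨⟨h1, h2⟩, ⟨h3, h4⟩, h5, h6⟩, ⟨h7, fun t => h7.trans (h1 t)⟩, h8,
      fun t => h8.trans (h3 t)⟩

/-- Split off the first letters `x` of the first row and `y` of the second row. The pair
`(Fin.cons x r, Fin.cons y s)` is a tableau with first row `≥ i` and second row `≥ k` if and only
if `i ≤ x`, `k ≤ y`, `x < y`, `(r, s)` is a tableau, all letters of `r` are `≥ x` and all letters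
of `s` are `≥ y`. -/
theorem TG_succ (a b i k : ℕ) {l : ℕ} (u : Fin l → R) :
    TG (a + 1) (b + 1) i k u = ∑ x : Fin l, ∑ y : Fin l,
      if i ≤ x.val ∧ k ≤ y.val ∧ x.val < y.val then u x * u y * TG a b x.val y.val u else 0 := by
  classical
  unfold TG
  rw [j2_cons]
  refine Finset.sum_congr rfl fun x _ => ?_
  have e1 : ∀ r : Fin a → Fin l, ∑ s : Fin (b + 1) → Fin l,
      (if IsTableau (Fin.cons x r : Fin (a + 1) → Fin l) s ∧
        (∀ t, i ≤ ((Fin.cons x r : Fin (a + 1) → Fin l) t).val) ∧ ∀ t, k ≤ (s t).val then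
      (∏ t, u ((Fin.cons x r : Fin (a + 1) → Fin l) t)) * ∏ t, u (s t) else 0) =
      ∑ y : Fin l, ∑ s : Fin b → Fin l,
      (if IsTableau (Fin.cons x r : Fin (a + 1) → Fin l) (Fin.cons y s : Fin (b + 1) → Fin l) ∧
        (∀ t, i ≤ ((Fin.cons x r : Fin (a + 1) → Fin l) t).val) ∧
        ∀ t, k ≤ ((Fin.cons y s : Fin (b + 1) → Fin l) t).val then
      (∏ t, u ((Fin.cons x r : Fin (a + 1) → Fin l) t)) *
        ∏ t, u ((Fin.cons y s : Fin (b + 1) → Fin l) t) else 0) := by
    intro r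
    rw [j2_cons]
  rw [Finset.sum_congr rfl fun r _ => e1 r, Finset.sum_comm]
  refine Finset.sum_congr rfl fun y _ => ?_
  by_cases h : i ≤ x.val ∧ k ≤ y.val ∧ x.val < y.val
  · rw [if_pos h, Finset.mul_sum]
    refine Finset.sum_congr rfl fun r _ => ?_
    rw [Finset.mul_sum]
    refine Finset.sum_congr rfl fun s _ => ?_
    have e2 := j2_iff i k x y r s
    by_cases h2 : IsTableau r s ∧ (∀ t, x.val ≤ (r t).val) ∧ ∀ t, y.val ≤ (s t).val
    · rw [if_pos h2, if_pos (e2.2 ⟨h, h2⟩), Fin.prod_univ_succ, Fin.prod_univ_succ]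
      simp only [Fin.cons_zero, Fin.cons_succ]
      ring
    · rw [if_neg h2, if_neg fun h3 => h2 (e2.1 h3).2, mul_zero]
  · rw [if_neg h]
    refine Finset.sum_eq_zero fun r _ => Finset.sum_eq_zero fun s _ => ?_
    rw [if_neg]
    intro h3
    exact h ((j2_iff i k x y r s).1 h3).1

/-- Empty second row: `IsTableau r s` says that `r` is monotone. -/
theorem TG_zero (a i k : ℕ) {l : ℕ} (u : Fin l → R) : TG a 0 i k u = HG a i u := by
  classical
  unfold TG HG
  refine Finset.sum_congr rfl fun r _ => ?_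
  rw [Fintype.sum_unique]
  have e : (IsTableau r (default : Fin 0 → Fin l) ∧ (∀ t, i ≤ (r t).val) ∧
      ∀ t, k ≤ ((default : Fin 0 → Fin l) t).val) ↔ (Monotone r ∧ ∀ t, i ≤ (r t).val) := by
    constructor
    · rintro ⟨h1, h2, _⟩
      exact ⟨fun x y hxy => h1.1 x y hxy, h2⟩
    · rintro ⟨h1, h2⟩
      exact ⟨⟨fun x y hxy => h1 hxy, fun x => x.elim0, fun _ y => y.elim0⟩, h2, fun t => t.elim0⟩
  by_cases h : Monotone r ∧ ∀ t, i ≤ (r t).val
  · rw [if_pos h, if_pos (e.2 h)]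
    simp
  · rw [if_neg h, if_neg fun h' => h (e.1 h')]

/-- `tableaux a b l` is the filter of `IsTableau` (`Finset.sum_filter`,
`Fintype.sum_prod_type`). -/
theorem sR_eq_TG (a b : ℕ) {l : ℕ} (u : Fin l → R) : sR a b u = TG a b 0 0 u := by
  classical
  unfold sR TG tableaux
  rw [Finset.sum_filter, Fintype.sum_prod_type]
  refine Finset.sum_congr rfl fun r _ => Finset.sum_congr rfl fun s _ => ?_
  by_cases h : IsTableau r s
  · rw [if_pos h, if_pos ⟨h, fun _ => Nat.zero_le _, fun _ => Nat.zero_le _⟩]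
  · rw [if_neg h, if_neg fun h' => h h'.1]

end Pool.Agent.Lib.H70S
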