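import Pool.Agent.Lib.H70S.J1
import Pool.Agent.Lib.H70S.J2

/-! # Chunk J3 (M): the two-row Jacobi-Trudi formula -/

namespace Pool.Agent.Lib.H70S

open Pool.Agent.SchurTwoRow

variable {R : Type*} [CommRing R]

theorem j3_key {l : ℕ} (α β γ δ : Fin l → R) (i k : ℕ) (hik : i ≤ k) :
    (∑ x : Fin l, ∑ y : Fin l, if i ≤ x.val ∧ k ≤ y.val ∧ x.val < y.val then
        α x * β y - γ y * δ x else 0) =
      (∑ x : Fin l, if i ≤ x.val then α x else 0) * (∑ y : Fin l, if k ≤ y.val then β y else 0) -
      (∑ y : Fin l, if k ≤ y.val then γ y else 0) *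
        (∑ x : Fin l, if i ≤ x.val then δ x else 0) -
      ∑ y : Fin l, if k ≤ y.val then
        β y * (∑ x : Fin l, if y.val ≤ x.val then α x else 0) -
          γ y * (∑ x : Fin l, if y.val ≤ x.val then δ x else 0) else 0 := by
  have h1 : (∑ y : Fin l, if k ≤ y.val then
        β y * (∑ x : Fin l, if y.val ≤ x.val then α x else 0) -
          γ y * (∑ x : Fin l, if y.val ≤ x.val then δ x else 0) else 0) =
      ∑ x : Fin l, ∑ y : Fin l, if k ≤ y.val ∧ y.val ≤ x.val then
        α x * β y - γ y * δ x else 0 := by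
    rw [Finset.sum_comm]
    apply Finset.sum_congr rfl
    intro y _
    by_cases hk : k ≤ y.val
    · simp only [hk, if_true, true_and]
      rw [Finset.mul_sum, Finset.mul_sum, ← Finset.sum_sub_distrib]
      apply Finset.sum_congr rfl
      intro x _
      split_ifs <;> ring
    · simp [hk]
  have h2 : (∑ x : Fin l, if i ≤ x.val then α x else 0) *
      (∑ y : Fin l, if k ≤ y.val then β y else 0) =
      ∑ x : Fin l, ∑ y : Fin l, if i ≤ x.val ∧ k ≤ y.val then α x * β y else 0 := by
    rw [Finset.sum_mul_sum]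
    apply Finset.sum_congr rfl
    intro x _
    apply Finset.sum_congr rfl
    intro y _
    by_cases ha : i ≤ x.val <;> by_cases hb : k ≤ y.val <;> simp [ha, hb]
  have h3 : (∑ y : Fin l, if k ≤ y.val then γ y else 0) *
        (∑ x : Fin l, if i ≤ x.val then δ x else 0) =
      ∑ x : Fin l, ∑ y : Fin l, if i ≤ x.val ∧ k ≤ y.val then γ y * δ x else 0 := by
    rw [Finset.sum_mul_sum, Finset.sum_comm]
    apply Finset.sum_congr rfl
    intro x _
    apply Finset.sum_congr rfl
    intro y _
    by_cases ha : i ≤ x.val <;> by_cases hb : k ≤ y.val <;> simp [ha, hb]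
  rw [h1, h2, h3, ← Finset.sum_sub_distrib, ← Finset.sum_sub_distrib]
  apply Finset.sum_congr rfl
  intro x _
  rw [← Finset.sum_sub_distrib, ← Finset.sum_sub_distrib]
  apply Finset.sum_congr rfl
  intro y _
  by_cases hb : k ≤ y.val
  · by_cases hc : x.val < y.val
    · have hc' : ¬ y.val ≤ x.val := by omega
      by_cases ha : i ≤ x.val <;> simp [ha, hb, hc, hc']
    · have hc' : y.val ≤ x.val := by omega
      have ha : i ≤ x.val := by omega
      simp [ha, hb, hc, hc']
  · simp [hb]

/-- For `i ≤ k`. Induction on `b`, for all `i ≤ k`. Write `H m i = HG m i u`.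

Common step. For `b ≥ 1` (the shape is `(b+c+1, b+1)`), by `TG_succ` and the induction hypothesis
(valid since `x < y`) the left side is
`∑_(x ≥ i, y ≥ k, x < y) u_x u_y (H (b+c) x * H b y - H (b+c+1) y * H (b-1) x)`,
and by `HG_succ` the right side is the same sum without the condition `x < y`, that is
`∑_(x ≥ i) u_x H (b+c) x * ∑_(y ≥ k) u_y H b y - ∑_(y ≥ k) u_y H (b+c+1) y *
∑_(x ≥ i) u_x H (b-1) x`. The difference is the sum over `y ≥ k`, `x ≥ y` (then `x ≥ i`
automatically) of `u_y u_x (H (b+c) x * H b y - H (b+c+1) y * H (b-1) x)`; for fixed `y` the sum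
over `x ≥ y` is `u_y (H (b+c+1) y * H b y - H (b+c+1) y * H b y) = 0` by `HG_succ`.

For `b = 0` (the shape is `(c+1, 1)`): by `TG_succ`, `TG_zero`, `HG_zero` the left side is
`∑_(x ≥ i, y ≥ k, x < y) u_x u_y H c x`, the right side is
`∑_(x ≥ i) u_x H c x * ∑_(y ≥ k) u_y - H (c+2) k`, and
`H (c+2) k = ∑_(y ≥ k) u_y H (c+1) y = ∑_(y ≥ k) u_y ∑_(x ≥ y) u_x H c x`. -/
theorem TG_eq (b c : ℕ) {l : ℕ} (u : Fin l → R) (i k : ℕ) (hik : i ≤ k) :
    TG (b + c + 1) (b + 1) i k u =
      HG (b + c + 1) i u * HG (b + 1) k u - HG (b + c + 2) k u * HG b i u := by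
  induction b generalizing i k with
  | zero =>
    have e1 : 0 + c + 1 = c + 1 := by omega
    have e2 : 0 + c + 2 = c + 1 + 1 := by omega
    rw [e1, e2, TG_succ c 0 i k u]
    have hL : (∑ x : Fin l, ∑ y : Fin l, if i ≤ x.val ∧ k ≤ y.val ∧ x.val < y.val then
        u x * u y * TG c 0 x.val y.val u else 0) =
        ∑ x : Fin l, ∑ y : Fin l, if i ≤ x.val ∧ k ≤ y.val ∧ x.val < y.val then
        (fun x : Fin l => u x * HG c x.val u) x * (fun y : Fin l => u y) y -
          (fun _ : Fin l => (0 : R)) y * (fun _ : Fin l => (0 : R)) x else 0 := by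
      apply Finset.sum_congr rfl
      intro x _
      apply Finset.sum_congr rfl
      intro y _
      rw [TG_zero]
      split_ifs
      · ring
      · rfl
    rw [hL, j3_key _ _ _ _ i k hik]
    simp only [← HG_succ, HG_zero]
    have hb1 : HG (0 + 1) k u = ∑ y : Fin l, if k ≤ y.val then u y else 0 := by
      rw [HG_succ]
      apply Finset.sum_congr rfl
      intro y _
      rw [HG_zero, mul_one]
    rw [hb1, HG_succ (c + 1) k u]
    simp
  | succ b ih =>
    have e1 : b + 1 + c + 1 = (b + c + 1) + 1 := by omega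
    have e2 : b + 1 + c + 2 = (b + c + 2) + 1 := by omega
    rw [e1, e2, TG_succ (b + c + 1) (b + 1) i k u]
    have hL : (∑ x : Fin l, ∑ y : Fin l, if i ≤ x.val ∧ k ≤ y.val ∧ x.val < y.val then
        u x * u y * TG (b + c + 1) (b + 1) x.val y.val u else 0) =
        ∑ x : Fin l, ∑ y : Fin l, if i ≤ x.val ∧ k ≤ y.val ∧ x.val < y.val then
        (fun x : Fin l => u x * HG (b + c + 1) x.val u) x *
          (fun y : Fin l => u y * HG (b + 1) y.val u) y -
          (fun y : Fin l => u y * HG (b + c + 2) y.val u) y *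
          (fun x : Fin l => u x * HG b x.val u) x else 0 := by
      apply Finset.sum_congr rfl
      intro x _
      apply Finset.sum_congr rfl
      intro y _
      split_ifs with h
      · rw [ih x.val y.val (by omega)]
        ring
      · rfl
    rw [hL, j3_key _ _ _ _ i k hik]
    simp only [← HG_succ]
    have hz : (∑ y : Fin l, if k ≤ y.val then
        u y * HG (b + 1) y.val u * HG (b + c + 1 + 1) y.val u -
          u y * HG (b + c + 2) y.val u * HG (b + 1) y.val u else 0) = 0 := by
      apply Finset.sum_eq_zero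
      intro y _
      split_ifs
      · have e3 : b + c + 1 + 1 = b + c + 2 := by omega
        rw [e3]
        ring
      · rfl
    rw [hz]
    ring

/-- The Jacobi-Trudi formula for two rows. -/
theorem jacobi_trudi {a b : ℕ} (hb : 1 ≤ b) (hab : b ≤ a) {l : ℕ} (u : Fin l → R) :
    sR a b u = hR a u * hR b u - hR (a + 1) u * hR (b - 1) u := by
  obtain ⟨b, rfl⟩ : ∃ b', b = b' + 1 := ⟨b - 1, by omega⟩
  obtain ⟨c, rfl⟩ : ∃ c, a = b + c + 1 := ⟨a - (b + 1), by omega⟩
  rw [sR_eq_TG, TG_eq b c u 0 0 le_rfl, hR_eq_HG, hR_eq_HG, hR_eq_HG, hR_eq_HG]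
  rfl

end Pool.Agent.Lib.H70S
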