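import Pool.Agent.Lib.H70S.Defs

/-!
# Words and tableaux over a commutative ring
-/

namespace Pool.Agent.Lib.H70S

open Pool.Agent.SchurTwoRow

variable {R : Type*} [CommRing R]

/-- The complete homogeneous symmetric polynomial. -/
noncomputable def hR (m : ℕ) {l : ℕ} (u : Fin l → R) : R := ∑ r ∈ words m l, ∏ i, u (r i)

/-- The power sum. -/
noncomputable def pR (k : ℕ) {l : ℕ} (u : Fin l → R) : R := ∑ i, u i ^ k

/-- The Schur polynomial of shape `(a, b)`. -/
noncomputable def sR (a b : ℕ) {l : ℕ} (u : Fin l → R) : R :=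
  ∑ T ∈ tableaux a b l, (∏ i, u (T.1 i)) * ∏ j, u (T.2 j)

open Classical in
/-- Words of length `m` with all letters at least `i`. -/
noncomputable def HG (m i : ℕ) {l : ℕ} (u : Fin l → R) : R :=
  ∑ r : Fin m → Fin l, if Monotone r ∧ ∀ t, i ≤ (r t).val then ∏ t, u (r t) else 0

open Classical in
/-- Tableaux of shape `(a, b)`, the first row with letters at least `i`, the second row with
letters at least `k`. -/
noncomputable def TG (a b i k : ℕ) {l : ℕ} (u : Fin l → R) : R :=
  ∑ r : Fin a → Fin l, ∑ s : Fin b → Fin l,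
    if IsTableau r s ∧ (∀ t, i ≤ (r t).val) ∧ ∀ t, k ≤ (s t).val then
      (∏ t, u (r t)) * ∏ t, u (s t) else 0

end Pool.Agent.Lib.H70S
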