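import Pool.Agent.Lib.H70S.Defs

/-! # Chunk K1 (S/M): one change of sign -/

namespace Pool.Agent.Lib.H70S

/-- If `coef a b j l ≥ 0` for `1 ≤ j ≤ J` and `coef a b j l ≤ 0` for `J < j ≤ a + 1`, then
`AA a b (k + 1) l - J * AA a b k l = ∑ (j - J) j ^ (k-1) coef a b j l ≤ 0` (`k ≥ 1`). -/
theorem AA_succ_le {a b l J k : ℕ} (hk : 1 ≤ k)
    (hpos : ∀ j, 1 ≤ j → j ≤ J → j ≤ a + 1 → 0 ≤ coef a b j l)
    (hneg : ∀ j, J < j → j ≤ a + 1 → coef a b j l ≤ 0) :
    AA a b (k + 1) l ≤ (J : ℤ) * AA a b k l := by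
  unfold AA
  rw [Finset.mul_sum]
  refine Finset.sum_le_sum fun j hj => ?_
  obtain ⟨h1, h2⟩ := Finset.mem_Icc.1 hj
  obtain ⟨k, rfl⟩ := Nat.exists_eq_add_of_le' hk
  simp only [Nat.add_sub_cancel]
  rw [pow_succ]
  have hj0 : (0 : ℤ) ≤ (j : ℤ) ^ k := by positivity
  rcases Nat.lt_or_ge J j with h3 | h3
  · have h4 := hneg j h3 h2
    have h5 : (0 : ℤ) ≤ (j : ℤ) - J := by
      have : (J : ℤ) < j := by exact_mod_cast h3
      linarith
    have h6 : (j : ℤ) ^ k * ((j : ℤ) - J) * coef a b j l ≤ 0 :=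
      mul_nonpos_of_nonneg_of_nonpos (mul_nonneg hj0 h5) h4
    linarith
  · have h4 := hpos j h1 h3 h2
    have h5 : (0 : ℤ) ≤ (J : ℤ) - j := by
      have : (j : ℤ) ≤ J := by exact_mod_cast h3
      linarith
    have h6 : 0 ≤ (j : ℤ) ^ k * ((J : ℤ) - j) * coef a b j l :=
      mul_nonneg (mul_nonneg hj0 h5) h4
    linarith

/-- Hence, if moreover `J ≥ 1`, `AA a b K l > 0` and `AA a b (K + 1) l < 0`, then no
`AA a b k l`, `k ≥ 1`, vanishes: for `k ≥ K + 1` all are negative, and if `AA a b k l ≤ 0` for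
some `k ≤ K` then `AA a b K l ≤ 0`. -/
theorem AA_ne_zero {a b l J K : ℕ} (hJ : 1 ≤ J) (hK : 1 ≤ K)
    (hpos : ∀ j, 1 ≤ j → j ≤ J → j ≤ a + 1 → 0 ≤ coef a b j l)
    (hneg : ∀ j, J < j → j ≤ a + 1 → coef a b j l ≤ 0)
    (h0 : 0 < AA a b K l) (h1 : AA a b (K + 1) l < 0) :
    ∀ k, 1 ≤ k → AA a b k l ≠ 0 := by
  have hJ' : (1 : ℤ) ≤ J := by exact_mod_cast hJ
  intro k hk h
  rcases Nat.lt_or_ge K k with h2 | h2
  · have key : ∀ n, AA a b (K + 1 + n) l < 0 := by
      intro n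
      induction n with
      | zero => exact h1
      | succ n ih =>
        have h3 := AA_succ_le (a := a) (b := b) (l := l) (J := J) (k := K + 1 + n) (by omega)
          hpos hneg
        have h4 : (J : ℤ) * AA a b (K + 1 + n) l < 0 := mul_neg_of_pos_of_neg (by linarith) ih
        exact lt_of_le_of_lt h3 h4
    obtain ⟨n, rfl⟩ := Nat.exists_eq_add_of_le (Nat.succ_le_of_lt h2)
    exact (key n).ne h
  · have key : ∀ n, AA a b (k + n) l ≤ 0 := by
      intro n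
      induction n with
      | zero => exact h.le
      | succ n ih =>
        have h3 := AA_succ_le (a := a) (b := b) (l := l) (J := J) (k := k + n) (by omega)
          hpos hneg
        have h4 : (J : ℤ) * AA a b (k + n) l ≤ 0 :=
          mul_nonpos_of_nonneg_of_nonpos (by linarith) ih
        exact h3.trans h4
    obtain ⟨n, rfl⟩ := Nat.exists_eq_add_of_le h2
    exact absurd h0 (not_lt.2 (key n))

end Pool.Agent.Lib.H70S
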