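import Pool.Agent.Lib.H70S.KDefs
import Pool.Agent.Lib.H70S.K1

/-! # Chunk K2 (M): correctness of the kernel check -/

namespace Pool.Agent.Lib.H70S

theorem k2_hq_nat (l m : ℕ) (hl : 1 ≤ l) : hq l m = (l + m - 1).choose m := by
  induction m with
  | zero => simp [hq]
  | succ m ih =>
    rw [hq, ih]
    obtain ⟨n, hn⟩ : ∃ n, l + m = n + 1 := ⟨l + m - 1, by omega⟩
    have e1 : l + m - 1 = n := by omega
    have e2 : l + (m + 1) - 1 = n + 1 := by omega
    rw [e1, e2, hn]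
    have h := Nat.add_one_mul_choose_eq n m
    rw [mul_comm (n.choose m), h, Nat.mul_div_cancel _ (Nat.succ_pos m)]

/-- `m C(l+m-1, m) = l+m-1 over m ...`: `C(l + m, m + 1) = C(l + m - 1, m) (l + m) / (m + 1)`,
exact division (`Nat.succ_mul_choose_eq` or similar). -/
theorem hq_eq (l m : ℕ) (hl : 1 ≤ l) : (hq l m : ℤ) = hh m l := by
  rw [k2_hq_nat l m hl]
  unfold hh
  rw [if_neg (by omega)]
  simp

theorem k2_hh_sub (l a j : ℕ) (hl : 1 ≤ l) :
    hh ((a : ℤ) - j) l = if j ≤ a then (hq l (a - j) : ℤ) else 0 := by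
  split_ifs with h
  · rw [hq_eq l _ hl]
    congr 1
    omega
  · unfold hh
    rw [if_pos (by omega)]

theorem coef_eq {a b j l : ℕ} (hb : 1 ≤ b) (hl : 1 ≤ l) :
    coef a b j l = (uu a b l j : ℤ) - (vv a b l j : ℤ) := by
  have e1 : hh ((a : ℤ) + 1 - j) l = if j ≤ a + 1 then (hq l (a + 1 - j) : ℤ) else 0 := by
    rw [← k2_hh_sub l (a + 1) j hl]
    push_cast
    rfl
  have e2 : hh ((b : ℤ) - 1) l = (hq l (b - 1) : ℤ) := by
    rw [hq_eq l _ hl]
    congr 1
    omega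
  have e3 : hh ((b : ℤ) - 1 - j) l = if j ≤ b - 1 then (hq l (b - 1 - j) : ℤ) else 0 := by
    rw [← k2_hh_sub l (b - 1) j hl]
    congr 1
    omega
  have e4 : hh ((a : ℤ) + 1) l = (hq l (a + 1) : ℤ) := by
    rw [hq_eq l _ hl]
    congr 1
  unfold coef uu vv
  rw [k2_hh_sub l a j hl, k2_hh_sub l b j hl, e1, e2, e3, e4, ← hq_eq l a hl, ← hq_eq l b hl]
  push_cast
  split_ifs <;> ring

theorem k2_wsum (f : ℕ → ℕ) (e n : ℕ) :
    (wsum f e n : ℤ) = ∑ j ∈ Finset.Icc 1 n, (j : ℤ) ^ e * (f j : ℤ) := by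
  induction n with
  | zero => simp [wsum]
  | succ n ih =>
    rw [Finset.sum_Icc_succ_top (by omega), ← ih, wsum]
    push_cast
    rfl

theorem AA_eq_wsum {a b k l : ℕ} (hb : 1 ≤ b) (hl : 1 ≤ l) :
    AA a b k l = (wsum (uu a b l) (k - 1) (a + 1) : ℤ) - (wsum (vv a b l) (k - 1) (a + 1) : ℤ) := by
  rw [k2_wsum, k2_wsum, ← Finset.sum_sub_distrib]
  unfold AA
  refine Finset.sum_congr rfl (fun j _ => ?_)
  rw [coef_eq hb hl]
  ring

theorem k2_leR {f g : ℕ → ℕ} {lo n : ℕ} (h : leR f g lo n = true) :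
    ∀ j, lo < j → j ≤ lo + n → f j ≤ g j := by
  induction n with
  | zero => intro j h1 h2; omega
  | succ n ih =>
    rw [leR, Bool.and_eq_true] at h
    intro j h1 h2
    rcases Nat.lt_or_ge j (lo + n + 1) with hj | hj
    · exact ih h.1 j h1 (by omega)
    · have : j = lo + n + 1 := by omega
      rw [this]
      exact Nat.le_of_ble_eq_true h.2

/-- `AA_ne_zero`. -/
theorem chk_spec {a b J K l : ℕ} (hb : 1 ≤ b) (hl : 1 ≤ l) (hJ : 1 ≤ J) (hJa : J ≤ a + 1)
    (hK : 1 ≤ K) (h : chk a b J K l = true) : ∀ k, 1 ≤ k → AA a b k l ≠ 0 := by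
  unfold chk at h
  rw [Bool.and_eq_true, Bool.and_eq_true, Bool.and_eq_true] at h
  obtain ⟨⟨⟨h1, h2⟩, h3⟩, h4⟩ := h
  refine AA_ne_zero hJ hK ?_ ?_ ?_ ?_
  · intro j j1 j2 _
    have := k2_leR h1 j (by omega) (by omega)
    rw [coef_eq hb hl]
    have : (vv a b l j : ℤ) ≤ (uu a b l j : ℤ) := by exact_mod_cast this
    linarith
  · intro j j1 j2
    have := k2_leR h2 j (by omega) (by omega)
    rw [coef_eq hb hl]
    have : (uu a b l j : ℤ) ≤ (vv a b l j : ℤ) := by exact_mod_cast this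
    linarith
  · rw [AA_eq_wsum hb hl]
    have h3' : wsum (vv a b l) (K - 1) (a + 1) < wsum (uu a b l) (K - 1) (a + 1) :=
      Nat.le_of_ble_eq_true h3
    have : (wsum (vv a b l) (K - 1) (a + 1) : ℤ) < (wsum (uu a b l) (K - 1) (a + 1) : ℤ) := by
      exact_mod_cast h3'
    linarith
  · rw [AA_eq_wsum hb hl, Nat.add_sub_cancel]
    have h4' : wsum (uu a b l) K (a + 1) < wsum (vv a b l) K (a + 1) :=
      Nat.le_of_ble_eq_true h4
    have : (wsum (uu a b l) K (a + 1) : ℤ) < (wsum (vv a b l) K (a + 1) : ℤ) := by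
      exact_mod_cast h4'
    linarith

theorem k2_chkR {a b J K lo n : ℕ} (h : chkR a b J K lo n = true) :
    ∀ l, lo ≤ l → l < lo + n → chk a b J K l = true := by
  induction n with
  | zero => intro l h1 h2; omega
  | succ n ih =>
    rw [chkR, Bool.and_eq_true] at h
    intro l h1 h2
    rcases Nat.lt_or_ge l (lo + n) with hj | hj
    · exact ih h.1 l h1 hj
    · have : l = lo + n := by omega
      rw [this]
      exact h.2

theorem chkL_spec {a b lo : ℕ} (hb : 1 ≤ b) (hlo : 1 ≤ lo) {s : List (ℕ × ℕ × ℕ)}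
    (h : chkL a b lo s = true) :
    ∀ l, lo ≤ l → l < lo + lenL s → ∀ k, 1 ≤ k → AA a b k l ≠ 0 := by
  induction s generalizing lo with
  | nil => intro l h1 h2; simp only [lenL] at h2; omega
  | cons t r ih =>
    obtain ⟨J, K, n⟩ := t
    rw [chkL, Bool.and_eq_true, Bool.and_eq_true, Bool.and_eq_true, Bool.and_eq_true] at h
    obtain ⟨⟨⟨⟨h1, h2⟩, h3⟩, h4⟩, h5⟩ := h
    intro l l1 l2
    rw [lenL] at l2
    rcases Nat.lt_or_ge l (lo + n) with hl | hl
    · exact chk_spec hb (by omega) (Nat.le_of_ble_eq_true h1) (Nat.le_of_ble_eq_true h2)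
        (Nat.le_of_ble_eq_true h3) (k2_chkR h4 l l1 hl)
    · exact ih (lo := lo + n) (by omega) h5 l hl (by omega)

end Pool.Agent.Lib.H70S
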