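import Pool.Agent.Lib.H70S.K2

/-! # Kernel check, part 1 -/

set_option maxRecDepth 100000

namespace Pool.Agent.Lib.H70S

theorem k_4_4_5 : chkL 4 4 5
    [(3, 3, 3), (3, 4, 5), (2, 5, 8), (2, 6, 11), (2, 7, 18), (2, 8, 25), (2, 9, 36),
      (2, 10, 54), (2, 11, 77), (2, 12, 112), (2, 13, 163), (2, 14, 237), (2, 15, 247)] = true := by
  decide +kernel

theorem k_5_2_5 : chkL 5 2 5
    [(4, 4, 1), (4, 5, 2), (4, 6, 3), (4, 7, 3), (4, 8, 5), (4, 9, 5), (4, 10, 8), (4, 11, 10),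
      (4, 12, 12), (4, 13, 16), (4, 14, 21), (4, 15, 27), (4, 16, 34), (4, 17, 45), (4, 18, 57),
      (4, 19, 75), (4, 20, 95), (4, 21, 123), (4, 22, 159), (4, 23, 205), (4, 24, 90)] = true := by
  decide +kernel

theorem k_5_3_5 : chkL 5 3 5
    [(3, 3, 1), (3, 4, 3), (3, 5, 5), (3, 6, 6), (3, 7, 8), (3, 8, 11), (3, 9, 16), (3, 10, 22),
      (3, 11, 30), (3, 12, 41), (3, 13, 56), (3, 14, 78), (3, 15, 106), (3, 16, 146),
      (3, 17, 201), (3, 18, 266)] = true := by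
  decide +kernel

theorem k_6_3_5 : chkL 6 3 5
    [(4, 4, 2), (4, 5, 3), (4, 6, 4), (4, 7, 5), (4, 8, 6), (4, 9, 8), (4, 10, 10), (4, 11, 13),
      (4, 12, 17), (4, 13, 22), (4, 14, 28), (4, 15, 36), (4, 16, 46), (4, 17, 60), (4, 18, 77),
      (4, 19, 99), (4, 20, 127), (4, 21, 164), (4, 22, 211), (4, 23, 58)] = true := by
  decide +kernel

theorem k_7_3_5 : chkL 7 3 5
    [(5, 4, 1), (5, 5, 2), (5, 6, 2), (5, 7, 3), (5, 8, 4), (5, 9, 4), (5, 10, 5), (5, 11, 6),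
      (5, 12, 8), (5, 13, 9), (5, 14, 12), (5, 15, 14), (5, 16, 17), (5, 17, 22), (5, 18, 26),
      (5, 19, 32), (5, 20, 39), (5, 21, 48), (5, 22, 58), (5, 23, 72), (5, 24, 88), (5, 25, 107),
      (5, 26, 132), (5, 27, 161), (5, 28, 124)] = true := by
  decide +kernel

theorem k_10_2_5 : chkL 10 2 5
    [(9, 9, 1), (9, 11, 1), (9, 12, 1), (9, 13, 1), (9, 14, 1), (9, 15, 2), (9, 16, 1),
      (9, 17, 2), (9, 18, 1), (9, 19, 2), (9, 20, 3), (9, 21, 2), (9, 22, 3), (9, 23, 3),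
      (9, 24, 4), (9, 25, 4), (9, 26, 4), (9, 27, 6), (9, 28, 5), (9, 29, 6), (9, 30, 8),
      (9, 31, 8), (9, 32, 8), (9, 33, 10), (9, 34, 11), (9, 35, 13), (9, 36, 14), (9, 37, 16),
      (9, 38, 17), (9, 39, 20), (9, 40, 22), (9, 41, 24), (9, 42, 28), (9, 43, 30), (9, 44, 35),
      (9, 45, 38), (9, 46, 43), (9, 47, 49), (9, 48, 54), (9, 49, 60), (9, 50, 68), (9, 51, 75),
      (9, 52, 85), (9, 53, 95), (9, 54, 106), (9, 55, 6)] = true := by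
  decide +kernel

end Pool.Agent.Lib.H70S
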