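import Pool.Agent.Lib.H70S.K2

/-! # Kernel check, part 2 -/

set_option maxRecDepth 100000

namespace Pool.Agent.Lib.H70S

theorem k_4_2_5 : chkL 4 2 5
    [(3, 4, 3), (3, 5, 4), (3, 6, 5), (3, 7, 7), (3, 8, 11), (3, 9, 14), (3, 10, 21),
      (3, 11, 28), (3, 12, 41), (3, 13, 56), (3, 14, 79), (3, 15, 112), (3, 16, 156),
      (3, 17, 221), (3, 18, 238)] = true := by
  decide +kernel

theorem k_4_3_5 : chkL 4 3 5
    [(3, 3, 2), (3, 4, 1), (2, 4, 3), (2, 5, 7), (2, 6, 9), (2, 7, 15), (2, 8, 20), (2, 9, 31),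
      (2, 10, 44), (2, 11, 63), (2, 12, 93), (2, 13, 134), (2, 14, 194), (2, 15, 283),
      (2, 16, 97)] = true := by
  decide +kernel

theorem k_6_2_5 : chkL 6 2 5
    [(5, 5, 1), (5, 6, 2), (5, 7, 2), (5, 8, 2), (5, 9, 3), (5, 10, 3), (5, 11, 4), (5, 12, 6),
      (5, 13, 6), (5, 14, 8), (5, 15, 10), (5, 16, 12), (5, 17, 14), (5, 18, 18), (5, 19, 22),
      (5, 20, 27), (5, 21, 33), (5, 22, 40), (5, 23, 50), (5, 24, 61), (5, 25, 74), (5, 26, 91),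
      (5, 27, 111), (5, 28, 136), (5, 29, 167), (5, 30, 93)] = true := by
  decide +kernel

theorem k_6_6_5 : chkL 6 6 5
    [(4, 3, 3), (4, 4, 2), (3, 4, 2), (3, 5, 7), (3, 6, 9), (3, 7, 13), (3, 8, 18), (3, 9, 25),
      (3, 10, 33), (3, 11, 46), (3, 12, 63), (3, 13, 86), (3, 14, 117), (3, 15, 160),
      (3, 16, 218), (3, 17, 194)] = true := by
  decide +kernel

theorem k_8_4_5 : chkL 8 4 5
    [(5, 4, 2), (5, 5, 3), (5, 6, 2), (5, 7, 4), (5, 8, 4), (5, 9, 6), (5, 10, 6), (5, 11, 8),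
      (5, 12, 10), (5, 13, 12), (5, 14, 15), (5, 15, 18), (5, 16, 23), (5, 17, 27), (5, 18, 33),
      (5, 19, 41), (5, 20, 49), (5, 21, 61), (5, 22, 75), (5, 23, 91), (5, 24, 111),
      (5, 25, 137), (5, 26, 166), (5, 27, 92)] = true := by
  decide +kernel

theorem k_9_2_5 : chkL 9 2 5
    [(8, 8, 1), (8, 9, 1), (8, 10, 1), (8, 11, 1), (8, 12, 1), (8, 13, 1), (8, 14, 2),
      (8, 15, 2), (8, 16, 2), (8, 17, 2), (8, 18, 3), (8, 19, 3), (8, 20, 3), (8, 21, 4),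
      (8, 22, 5), (8, 23, 5), (8, 24, 5), (8, 25, 7), (8, 26, 7), (8, 27, 9), (8, 28, 9),
      (8, 29, 11), (8, 30, 12), (8, 31, 14), (8, 32, 16), (8, 33, 18), (8, 34, 21), (8, 35, 23),
      (8, 36, 27), (8, 37, 30), (8, 38, 34), (8, 39, 38), (8, 40, 44), (8, 41, 50), (8, 42, 56),
      (8, 43, 65), (8, 44, 72), (8, 45, 83), (8, 46, 94), (8, 47, 106), (8, 48, 108)] = true := by
  decide +kernel

end Pool.Agent.Lib.H70S
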