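import Pool.Agent.Lib.H70S.K2

/-! # Kernel check, part 3 -/

set_option maxRecDepth 100000

namespace Pool.Agent.Lib.H70S

theorem k_3_3_5 : chkL 3 3 5
    [(2, 3, 3), (2, 4, 5)] = true := by
  decide +kernel

theorem k_3_3_14 : chkL 3 3 14
    [(2, 5, 8), (2, 6, 15), (2, 7, 22), (2, 8, 34), (2, 9, 53), (2, 10, 80), (2, 11, 123),
      (2, 12, 184), (2, 13, 278), (2, 14, 190)] = true := by
  decide +kernel

theorem k_5_5_5 : chkL 5 5 5
    [(4, 3, 1), (3, 3, 2), (3, 4, 5), (3, 5, 7), (3, 6, 10), (3, 7, 14), (3, 8, 21), (3, 9, 29),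
      (3, 10, 41), (3, 11, 57), (3, 12, 81), (3, 13, 113), (3, 14, 159), (3, 15, 224),
      (3, 16, 232)] = true := by
  decide +kernel

theorem k_6_5_5 : chkL 6 5 5
    [(4, 3, 2), (4, 4, 1), (3, 4, 3), (3, 5, 6), (3, 6, 9), (3, 7, 11), (3, 8, 16), (3, 9, 22),
      (3, 10, 30), (3, 11, 41), (3, 12, 56), (3, 13, 76), (3, 14, 105), (3, 15, 142),
      (3, 16, 194), (3, 17, 265), (3, 18, 17)] = true := by
  decide +kernel

theorem k_7_2_5 : chkL 7 2 5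
    [(6, 6, 1), (6, 7, 1), (6, 8, 2), (6, 9, 1), (6, 10, 2), (6, 11, 3), (6, 12, 3), (6, 13, 3),
      (6, 14, 4), (6, 15, 5), (6, 16, 5), (6, 17, 7), (6, 18, 8), (6, 19, 9), (6, 20, 11),
      (6, 21, 13), (6, 22, 16), (6, 23, 19), (6, 24, 21), (6, 25, 26), (6, 26, 31), (6, 27, 36),
      (6, 28, 44), (6, 29, 51), (6, 30, 60), (6, 31, 72), (6, 32, 84), (6, 33, 101),
      (6, 34, 118), (6, 35, 141), (6, 36, 98)] = true := by
  decide +kernel

theorem k_7_5_5 : chkL 7 5 5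
    [(4, 3, 2), (4, 4, 3), (4, 5, 5), (3, 6, 6), (3, 7, 9), (3, 8, 12), (3, 9, 15), (3, 10, 20),
      (3, 11, 26), (3, 12, 36), (3, 13, 46), (3, 14, 61), (3, 15, 81), (3, 16, 106),
      (3, 17, 140), (3, 18, 183), (3, 19, 242), (3, 20, 3)] = true := by
  decide +kernel

theorem k_9_3_5 : chkL 9 3 5
    [(7, 5, 1), (7, 6, 1), (7, 7, 1), (7, 8, 1), (7, 9, 2), (7, 10, 2), (7, 11, 2), (7, 12, 3),
      (7, 13, 3), (7, 14, 4), (7, 15, 4), (7, 16, 5), (7, 17, 5), (7, 18, 6), (7, 19, 8),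
      (7, 20, 8), (7, 21, 10), (7, 22, 11), (7, 23, 14), (7, 24, 15), (7, 25, 17), (7, 26, 20),
      (7, 27, 24), (7, 28, 27), (7, 29, 31), (7, 30, 36), (7, 31, 42), (7, 32, 48), (7, 33, 56),
      (7, 34, 64), (7, 35, 74), (7, 36, 86), (7, 37, 99), (7, 38, 115), (7, 39, 132),
      (7, 40, 19)] = true := by
  decide +kernel

end Pool.Agent.Lib.H70S
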