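import Pool.Agent.Lib.H70S.K2

/-! # Kernel check, part 4 -/

set_option maxRecDepth 100000

namespace Pool.Agent.Lib.H70S

theorem k_2_2_5 : chkL 2 2 5
    [(2, 3, 3), (2, 4, 6)] = true := by
  decide +kernel

theorem k_2_2_15 : chkL 2 2 15
    [(2, 5, 11), (2, 6, 19), (2, 7, 34), (2, 8, 59), (2, 9, 102), (2, 10, 178), (2, 11, 307),
      (2, 12, 276)] = true := by
  decide +kernel

theorem k_3_2_5 : chkL 3 2 5
    [(2, 3, 2), (2, 4, 4), (2, 5, 7), (2, 6, 10), (2, 7, 17), (2, 8, 26), (2, 9, 39),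
      (2, 10, 60), (2, 11, 91), (2, 12, 138), (2, 13, 207), (2, 14, 310), (2, 15, 85)] = true := by
  decide +kernel

theorem k_5_4_5 : chkL 5 4 5
    [(3, 3, 2), (3, 4, 4), (3, 5, 7), (3, 6, 9), (3, 7, 12), (3, 8, 18), (3, 9, 25), (3, 10, 35),
      (3, 11, 50), (3, 12, 70), (3, 13, 98), (3, 14, 137), (3, 15, 194), (3, 16, 272),
      (3, 17, 63)] = true := by
  decide +kernel

theorem k_6_4_5 : chkL 6 4 5
    [(4, 3, 1), (3, 4, 4), (3, 5, 4), (3, 6, 7), (3, 7, 8), (3, 8, 12), (3, 9, 16), (3, 10, 21),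
      (3, 11, 28), (3, 12, 39), (3, 13, 51), (3, 14, 69), (3, 15, 93), (3, 16, 125),
      (3, 17, 167), (3, 18, 225), (3, 19, 126)] = true := by
  decide +kernel

theorem k_7_4_5 : chkL 7 4 5
    [(4, 3, 1), (4, 4, 2), (4, 5, 4), (4, 6, 4), (4, 7, 6), (4, 8, 7), (4, 9, 9), (4, 10, 12),
      (4, 11, 15), (4, 12, 19), (4, 13, 25), (4, 14, 32), (4, 15, 40), (4, 16, 52), (4, 17, 67),
      (4, 18, 85), (4, 19, 108), (4, 20, 139), (4, 21, 178), (4, 22, 191)] = true := by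
  decide +kernel

theorem k_8_2_5 : chkL 8 2 5
    [(7, 7, 1), (7, 8, 1), (7, 9, 1), (7, 10, 1), (7, 11, 2), (7, 12, 2), (7, 13, 2), (7, 14, 2),
      (7, 15, 3), (7, 16, 3), (7, 17, 4), (7, 18, 4), (7, 19, 5), (7, 20, 6), (7, 21, 6),
      (7, 22, 8), (7, 23, 9), (7, 24, 10), (7, 25, 12), (7, 26, 14), (7, 27, 16), (7, 28, 18),
      (7, 29, 22), (7, 30, 24), (7, 31, 29), (7, 32, 33), (7, 33, 38), (7, 34, 44), (7, 35, 51),
      (7, 36, 58), (7, 37, 68), (7, 38, 79), (7, 39, 91), (7, 40, 105), (7, 41, 121),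
      (7, 42, 103)] = true := by
  decide +kernel

theorem k_8_3_5 : chkL 8 3 5
    [(6, 5, 2), (6, 6, 1), (6, 7, 2), (6, 8, 2), (6, 9, 3), (6, 10, 3), (6, 11, 3), (6, 12, 4),
      (6, 13, 5), (6, 14, 6), (6, 15, 7), (6, 16, 9), (6, 17, 9), (6, 18, 12), (6, 19, 14),
      (6, 20, 16), (6, 21, 19), (6, 22, 23), (6, 23, 27), (6, 24, 32), (6, 25, 38), (6, 26, 45),
      (6, 27, 53), (6, 28, 63), (6, 29, 75), (6, 30, 88), (6, 31, 104), (6, 32, 123),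
      (6, 33, 146), (6, 34, 62)] = true := by
  decide +kernel

end Pool.Agent.Lib.H70S
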