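import Pool.Agent.Lib.H70S.Defs

/-!
# Kernel-friendly evaluation of the coefficients
-/

namespace Pool.Agent.Lib.H70S

/-- `C(l + m - 1, m)` for `l ≥ 1`. -/
def hq (l : ℕ) : ℕ → ℕ
  | 0 => 1
  | m + 1 => hq l m * (l + m) / (m + 1)

/-- The positive part of `coef a b j l`. -/
def uu (a b l j : ℕ) : ℕ :=
  (if j ≤ a then hq l (a - j) * hq l b else 0) + (if j ≤ b then hq l a * hq l (b - j) else 0)

/-- The negative part of `coef a b j l`. -/
def vv (a b l j : ℕ) : ℕ :=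
  (if j ≤ a + 1 then hq l (a + 1 - j) * hq l (b - 1) else 0) +
    (if j ≤ b - 1 then hq l (a + 1) * hq l (b - 1 - j) else 0)

/-- `∑_(j = 1)^n j ^ e * f j`. -/
def wsum (f : ℕ → ℕ) (e : ℕ) : ℕ → ℕ
  | 0 => 0
  | n + 1 => wsum f e n + (n + 1) ^ e * f (n + 1)

/-- `f j ≤ g j` for `lo < j ≤ lo + n`. -/
def leR (f g : ℕ → ℕ) (lo : ℕ) : ℕ → Bool
  | 0 => true
  | n + 1 => leR f g lo n && Nat.ble (f (lo + n + 1)) (g (lo + n + 1))

/-- The coefficients change sign once, at `J`, and `AA` changes sign between `K` and `K + 1`. -/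
def chk (a b J K l : ℕ) : Bool :=
  leR (vv a b l) (uu a b l) 0 J && leR (uu a b l) (vv a b l) J (a + 1 - J) &&
    Nat.blt (wsum (vv a b l) (K - 1) (a + 1)) (wsum (uu a b l) (K - 1) (a + 1)) &&
    Nat.blt (wsum (uu a b l) K (a + 1)) (wsum (vv a b l) K (a + 1))

/-- `chk` for `lo ≤ l < lo + n`. -/
def chkR (a b J K lo : ℕ) : ℕ → Bool
  | 0 => true
  | n + 1 => chkR a b J K lo n && chk a b J K (lo + n)

/-- A list of segments `(J, K, n)`, the first one starting at `lo`. -/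
def chkL (a b : ℕ) : ℕ → List (ℕ × ℕ × ℕ) → Bool
  | _, [] => true
  | lo, (J, K, n) :: r => Nat.ble 1 J && Nat.ble J (a + 1) && Nat.ble 1 K &&
      chkR a b J K lo n && chkL a b (lo + n) r

/-- The total length of the segments. -/
def lenL : List (ℕ × ℕ × ℕ) → ℕ
  | [] => 0
  | (_, _, n) :: r => n + lenL r

end Pool.Agent.Lib.H70S
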