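import Pool.Agent.Lib.H70S.V4

/-! # Chunk V5 (M): a non-exceptional face of least valuation determines the partition -/

namespace Pool.Agent.Lib.H70S

open Pool.Agent.SchurTwoRow

theorem v5_cancel {M N : Multiset ℕ} {φ g : ℕ → ℕ} (hM : ∀ x ∈ M, g (φ x) = x)
    (hN : ∀ x ∈ N, g (φ x) = x) (h : M.map φ = N.map φ) : M = N := by
  have h2 := congrArg (Multiset.map g) h
  rw [Multiset.map_map, Multiset.map_map] at h2
  have e1 : M.map (g ∘ φ) = M := by
    conv_rhs => rw [← Multiset.map_id' M]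
    exact Multiset.map_congr rfl (fun x hx => hM x hx)
  have e2 : N.map (g ∘ φ) = N := by
    conv_rhs => rw [← Multiset.map_id' N]
    exact Multiset.map_congr rfl (fun x hx => hN x hx)
  rwa [e1, e2] at h2

theorem v5_val {r : ℕ} (hr : r.Prime) {n : ℕ} (f : Fin n → ℕ) (hf : ∀ i, 0 < f i) :
    padicValNat r (∏ i, f i) = ∑ i, padicValNat r (f i) := by
  haveI := Fact.mk hr
  induction n with
  | zero => simp
  | succ n ih =>
    rw [Fin.prod_univ_succ, Fin.sum_univ_succ, padicValNat.mul (hf 0).ne'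
      (Finset.prod_pos fun i _ => hf i.succ).ne', ih (fun i => f i.succ) fun i => hf i.succ]

theorem v5_exists_min {M : Multiset ℕ} (hM : M ≠ 0) (v : ℕ → ℕ) :
    ∃ x ∈ M, ∀ y ∈ M, v x ≤ v y := by
  have hne : M.toFinset.Nonempty := by
    rw [Multiset.toFinset_nonempty]
    exact hM
  obtain ⟨x, hx, h⟩ := Finset.exists_min_image M.toFinset v hne
  exact ⟨x, Multiset.mem_toFinset.mp hx, fun y hy => h y (Multiset.mem_toFinset.mpr hy)⟩

theorem v5_lt_pow {M : Multiset ℕ} {r K : ℕ} (hr : r.Prime) (hK : M.sum ≤ K) :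
    ∀ x ∈ M, x < r ^ K := by
  intro x hx
  have h1 : x ≤ M.sum := Multiset.single_le_sum (fun _ _ => Nat.zero_le _) x hx
  exact lt_of_le_of_lt (h1.trans hK) (Nat.lt_pow_self hr.one_lt)

/-- If the elements of least valuation `m` of `M` and `N` are the same nonempty multiset, then
`M = N`. Let `K` be so large that `r ^ K` exceeds all elements of `M` and `N`, and
`φ x = x * r ^ (K * padicValNat r x)`, which is multiplicative on positive numbers, so
`PRS a b (M.map φ) = PRS a b (N.map φ)` (`PRS_map_map`). Elements of valuation `m` have smaller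
images than all others (`x * r ^ (K m) < r ^ (K (m + 1)) ≤ φ y`), so the smallest elements of
`M.map φ` and `N.map φ` agree; by `eq_of_min` `M.map φ = N.map φ`, and `φ` is injective on
positive numbers (`padicValNat r (φ x) = (K + 1) * padicValNat r x`), `Multiset.map_injOn` or
`Multiset.map_congr` with a left inverse. -/
theorem eq_of_min_face {a b : ℕ} (hb : 1 ≤ b) (hab : b ≤ a) {M N : Multiset ℕ}
    (hM0 : ∀ x ∈ M, 0 < x) (hN0 : ∀ x ∈ N, 0 < x) (hM : 2 ≤ Multiset.card M)
    (hN : 2 ≤ Multiset.card N) (h : PRS a b M = PRS a b N) {r : ℕ} (hr : r.Prime) {m : ℕ}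
    (hm : ∀ x ∈ M, m ≤ padicValNat r x) (hm' : ∀ x ∈ N, m ≤ padicValNat r x)
    (hE : (M.filter fun x => padicValNat r x = m) = N.filter fun x => padicValNat r x = m)
    (hne : (M.filter fun x => padicValNat r x = m) ≠ 0) : M = N := by
  haveI := Fact.mk hr
  obtain ⟨K, hK⟩ : ∃ K, K = M.sum + N.sum + 1 := ⟨_, rfl⟩
  have hKM := v5_lt_pow (M := M) (K := K) hr (by omega)
  have hKN := v5_lt_pow (M := N) (K := K) hr (by omega)
  obtain ⟨φ, hφ⟩ : ∃ φ : ℕ → ℕ, φ = fun x => x * r ^ (K * padicValNat r x) := ⟨_, rfl⟩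
  have hφ' : ∀ x, φ x = x * r ^ (K * padicValNat r x) := fun x => by rw [hφ]
  have hrpos : ∀ k : ℕ, 0 < r ^ k := fun k => pow_pos hr.pos k
  have hφpos : ∀ x, 0 < x → 0 < φ x := fun x hx => by rw [hφ']; exact Nat.mul_pos hx (hrpos _)
  have hmul : ∀ f : Fin (a + b) → ℕ, (∀ i, 0 < f i) → φ (∏ i, f i) = ∏ i, φ (f i) := by
    intro f hf
    rw [hφ', v5_val hr f hf, Finset.mul_sum, ← Finset.prod_pow_eq_pow_sum, ← Finset.prod_mul_distrib]
    exact Finset.prod_congr rfl (fun i _ => (hφ' _).symm)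
  have e1 := PRS_map_map hb hab hM0 φ φ (fun x hx => hφpos x (hM0 x hx))
    (fun f hf => hmul f (fun i => hM0 _ (hf i)))
  have e2 := PRS_map_map hb hab hN0 φ φ (fun x hx => hφpos x (hN0 x hx))
    (fun f hf => hmul f (fun i => hN0 _ (hf i)))
  obtain ⟨s, hs, hsmin⟩ := v5_exists_min hne (fun x => x)
  have hsM := Multiset.mem_filter.mp hs
  have hsN := Multiset.mem_filter.mp (hE ▸ hs)
  have hle : ∀ L : Multiset ℕ, (∀ x ∈ L, 0 < x) → (∀ x ∈ L, m ≤ padicValNat r x) →
      (L.filter fun x => padicValNat r x = m) = (M.filter fun x => padicValNat r x = m) →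
      ∀ x ∈ L, φ s ≤ φ x := by
    intro L hL0 hLm hLE x hx
    rw [hφ', hφ', hsM.2]
    rcases (hLm x hx).eq_or_lt with hv | hv
    · rw [← hv]
      apply Nat.mul_le_mul_right
      apply hsmin
      rw [← hLE]
      exact Multiset.mem_filter.mpr ⟨hx, hv.symm⟩
    · have h1 : s < r ^ K := hKM s hsM.1
      calc s * r ^ (K * m) ≤ r ^ K * r ^ (K * m) := Nat.mul_le_mul_right _ h1.le
        _ = r ^ (K * (m + 1)) := by rw [← pow_add]; congr 1; ring
        _ ≤ r ^ (K * padicValNat r x) :=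
            Nat.pow_le_pow_right hr.pos (Nat.mul_le_mul_left _ hv)
        _ ≤ x * r ^ (K * padicValNat r x) := Nat.le_mul_of_pos_left _ (hL0 x hx)
  have key : M.map φ = N.map φ := by
    apply eq_of_min hb hab (s := φ s)
    · intro x hx
      obtain ⟨z, hz, rfl⟩ := Multiset.mem_map.mp hx
      exact hφpos z (hM0 z hz)
    · intro x hx
      obtain ⟨z, hz, rfl⟩ := Multiset.mem_map.mp hx
      exact hφpos z (hN0 z hz)
    · rwa [Multiset.card_map]
    · rwa [Multiset.card_map]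
    · rw [e1, e2, h]
    · exact Multiset.mem_map.mpr ⟨s, hsM.1, rfl⟩
    · exact Multiset.mem_map.mpr ⟨s, hsN.1, rfl⟩
    · intro x hx
      obtain ⟨z, hz, rfl⟩ := Multiset.mem_map.mp hx
      exact hle M hM0 hm rfl z hz
    · intro x hx
      obtain ⟨z, hz, rfl⟩ := Multiset.mem_map.mp hx
      exact hle N hN0 hm' hE.symm z hz
  have hinv : ∀ x, 0 < x → φ x / r ^ (K * (padicValNat r (φ x) / (K + 1))) = x := by
    intro x hx
    have hv : padicValNat r (φ x) = (K + 1) * padicValNat r x := by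
      rw [hφ', padicValNat.mul hx.ne' (hrpos _).ne', padicValNat.prime_pow]
      ring
    rw [hv, Nat.mul_div_cancel_left _ (Nat.succ_pos K), hφ', Nat.mul_div_cancel _ (hrpos _)]
  exact v5_cancel (g := fun z => z / r ^ (K * (padicValNat r z / (K + 1))))
    (fun x hx => hinv x (hM0 x hx)) (fun x hx => hinv x (hN0 x hx)) key

theorem v5_minFace {M : Multiset ℕ} {r x₀ : ℕ} (hx₀ : x₀ ∈ M)
    (hmin : ∀ y ∈ M, padicValNat r x₀ ≤ padicValNat r y) :
    minFace r M = M.filter fun x => padicValNat r x = padicValNat r x₀ := by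
  unfold minFace
  refine Multiset.filter_congr (fun x hx => ?_)
  constructor
  · intro h
    exact le_antisymm (h x₀ hx₀) (hmin x hx)
  · intro h y hy
    rw [h]
    exact hmin y hy

/-- `min_valuation`, `PRS_face` (the two faces have the same `PRS`), `PRS_inj`,
`eq_of_min_face`. The least valuation `m` of `M`: `minFace r M = M.filter (padicValNat r · = m)`
for the minimum `m` over `M` (`Multiset.filter_congr`). -/
theorem eq_of_minFace {a b : ℕ} (hb : 1 ≤ b) (hab : b ≤ a) {M N : Multiset ℕ}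
    (hM0 : ∀ x ∈ M, 0 < x) (hN0 : ∀ x ∈ N, 0 < x) (hM : 2 ≤ Multiset.card M)
    (hN : 2 ≤ Multiset.card N) (h : PRS a b M = PRS a b N) (hsum : M.sum = N.sum) {r : ℕ}
    (hr : r.Prime) (h2 : 2 ≤ Multiset.card (minFace r M))
    (hE : Multiset.card (minFace r M) ∉ Exc a b) : M = N := by
  haveI := Fact.mk hr
  have hMne : M ≠ 0 := by
    intro h0
    rw [h0] at hM
    simp at hM
  have hNne : N ≠ 0 := by
    intro h0
    rw [h0] at hN
    simp at hN
  obtain ⟨x₀, hx₀, hmx⟩ := v5_exists_min hMne (padicValNat r)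
  obtain ⟨y₀, hy₀, hmy⟩ := v5_exists_min hNne (padicValNat r)
  rw [v5_minFace hx₀ hmx] at h2 hE
  obtain ⟨hmm, hN2⟩ := min_valuation hb hab hM0 hN0 hN h hsum hr hmx hmy ⟨y₀, hy₀, rfl⟩ h2
  rw [← hmm] at hN2 hmy
  have hw : ∀ x y : ℕ, 0 < x → 0 < y →
      ((padicValNat r (x * y) : ℕ) : ℤ) = (padicValNat r x : ℕ) + (padicValNat r y : ℕ) := by
    intro x y hx hy
    rw [padicValNat.mul hx.ne' hy.ne']
    push_cast
    rfl
  have hfM := PRS_face hb hab hM0 (fun x => ((padicValNat r x : ℕ) : ℤ)) hw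
    ((padicValNat r x₀ : ℕ) : ℤ) (fun x hx => by exact_mod_cast hmx x hx)
  have hfN := PRS_face hb hab hN0 (fun x => ((padicValNat r x : ℕ) : ℤ)) hw
    ((padicValNat r x₀ : ℕ) : ℤ) (fun x hx => by exact_mod_cast hmy x hx)
  have hcongr : ∀ L : Multiset ℕ,
      L.filter (fun x => ((padicValNat r x : ℕ) : ℤ) = ((padicValNat r x₀ : ℕ) : ℤ))
      = L.filter (fun x => padicValNat r x = padicValNat r x₀) := fun L =>
    Multiset.filter_congr (fun x _ => Nat.cast_inj)
  rw [hcongr] at hfM hfN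
  rw [h, hfN] at hfM
  have hEE := PRS_inj hb hab (fun x hx => hM0 x (Multiset.mem_filter.mp hx).1)
    (fun x hx => hN0 x (Multiset.mem_filter.mp hx).1) h2 hN2 hE hfM.symm
  refine eq_of_min_face hb hab hM0 hN0 hM hN h hr hmx hmy hEE ?_
  intro h0
  rw [h0] at h2
  simp at h2

end Pool.Agent.Lib.H70S
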