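import Pool.Agent.Lib.H70S.V6

/-! # Chunk V7 (M): a non-exceptional face of greatest valuation determines the partition -/

namespace Pool.Agent.Lib.H70S

open Pool.Agent.SchurTwoRow

theorem v7_cancel {M N : Multiset ℕ} {φ g : ℕ → ℕ} (hM : ∀ x ∈ M, g (φ x) = x)
    (hN : ∀ x ∈ N, g (φ x) = x) (h : M.map φ = N.map φ) : M = N := by
  have h2 := congrArg (Multiset.map g) h
  rw [Multiset.map_map, Multiset.map_map] at h2
  have e1 : M.map (g ∘ φ) = M := by
    conv_rhs => rw [← Multiset.map_id' M]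
    exact Multiset.map_congr rfl (fun x hx => hM x hx)
  have e2 : N.map (g ∘ φ) = N := by
    conv_rhs => rw [← Multiset.map_id' N]
    exact Multiset.map_congr rfl (fun x hx => hN x hx)
  rwa [e1, e2] at h2

theorem v7_val {r : ℕ} (hr : r.Prime) {n : ℕ} (f : Fin n → ℕ) (hf : ∀ i, 0 < f i) :
    padicValNat r (∏ i, f i) = ∑ i, padicValNat r (f i) := by
  haveI := Fact.mk hr
  induction n with
  | zero => simp
  | succ n ih =>
    rw [Fin.prod_univ_succ, Fin.sum_univ_succ, padicValNat.mul (hf 0).ne'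
      (Finset.prod_pos fun i _ => hf i.succ).ne', ih (fun i => f i.succ) fun i => hf i.succ]

theorem v7_exists_min {M : Multiset ℕ} (hM : M ≠ 0) (v : ℕ → ℕ) :
    ∃ x ∈ M, ∀ y ∈ M, v x ≤ v y := by
  have hne : M.toFinset.Nonempty := by
    rw [Multiset.toFinset_nonempty]
    exact hM
  obtain ⟨x, hx, h⟩ := Finset.exists_min_image M.toFinset v hne
  exact ⟨x, Multiset.mem_toFinset.mp hx, fun y hy => h y (Multiset.mem_toFinset.mpr hy)⟩

theorem v7_exists_max {M : Multiset ℕ} (hM : M ≠ 0) (v : ℕ → ℕ) :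
    ∃ x ∈ M, ∀ y ∈ M, v y ≤ v x := by
  have hne : M.toFinset.Nonempty := by
    rw [Multiset.toFinset_nonempty]
    exact hM
  obtain ⟨x, hx, h⟩ := Finset.exists_max_image M.toFinset v hne
  exact ⟨x, Multiset.mem_toFinset.mp hx, fun y hy => h y (Multiset.mem_toFinset.mpr hy)⟩

theorem v7_lt_pow {M : Multiset ℕ} {r K : ℕ} (hr : r.Prime) (hK : M.sum ≤ K) :
    ∀ x ∈ M, x < r ^ K := by
  intro x hx
  have h1 : x ≤ M.sum := Multiset.single_le_sum (fun _ _ => Nat.zero_le _) x hx
  exact lt_of_le_of_lt (h1.trans hK) (Nat.lt_pow_self hr.one_lt)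

/-- If the elements of greatest valuation `m` of `M` and `N` are the same nonempty multiset, then
`M = N`. Let `K` be so large that `r ^ K` exceeds all elements of `M` and `N`,
`φ x = x * r ^ (K * (m - padicValNat r x))` and
`Φ z = z * r ^ (K * ((a + b) * m - padicValNat r z))` (natural subtraction; valuations of
elements are `≤ m`), `PRS_map_map`. Elements of valuation `m` have smaller images than all
others: `φ x = x < r ^ K ≤ φ y`. Then `eq_of_min` for `M.map φ`, `N.map φ`, and `φ` is injective on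
the positive numbers of valuation `≤ m` if `K ≥ 2`
(`padicValNat r (φ x) = padicValNat r x + K (m - padicValNat r x)`). -/
theorem eq_of_max_face {a b : ℕ} (hb : 1 ≤ b) (hab : b ≤ a) {M N : Multiset ℕ}
    (hM0 : ∀ x ∈ M, 0 < x) (hN0 : ∀ x ∈ N, 0 < x) (hM : 2 ≤ Multiset.card M)
    (hN : 2 ≤ Multiset.card N) (h : PRS a b M = PRS a b N) {r : ℕ} (hr : r.Prime) {m : ℕ}
    (hm : ∀ x ∈ M, padicValNat r x ≤ m) (hm' : ∀ x ∈ N, padicValNat r x ≤ m)
    (hE : (M.filter fun x => padicValNat r x = m) = N.filter fun x => padicValNat r x = m)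
    (hne : (M.filter fun x => padicValNat r x = m) ≠ 0) : M = N := by
  haveI := Fact.mk hr
  obtain ⟨K, hK⟩ : ∃ K, K = M.sum + N.sum + 2 := ⟨_, rfl⟩
  have hKM := v7_lt_pow (M := M) (K := K) hr (by omega)
  obtain ⟨φ, hφ⟩ : ∃ φ : ℕ → ℕ, φ = fun x => x * r ^ (K * (m - padicValNat r x)) := ⟨_, rfl⟩
  have hφ' : ∀ x, φ x = x * r ^ (K * (m - padicValNat r x)) := fun x => by rw [hφ]
  obtain ⟨Φ, hΦ⟩ : ∃ Φ : ℕ → ℕ, Φ = fun z => z * r ^ (K * ((a + b) * m - padicValNat r z)) :=
    ⟨_, rfl⟩
  have hΦ' : ∀ x, Φ x = x * r ^ (K * ((a + b) * m - padicValNat r x)) := fun x => by rw [hΦ]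
  have hrpos : ∀ k : ℕ, 0 < r ^ k := fun k => pow_pos hr.pos k
  have hφpos : ∀ x, 0 < x → 0 < φ x := fun x hx => by rw [hφ']; exact Nat.mul_pos hx (hrpos _)
  have hmul : ∀ f : Fin (a + b) → ℕ, (∀ i, 0 < f i) → (∀ i, padicValNat r (f i) ≤ m) →
      Φ (∏ i, f i) = ∏ i, φ (f i) := by
    intro f hf hfm
    have e0 : (a + b) * m - ∑ i, padicValNat r (f i) = ∑ i, (m - padicValNat r (f i)) := by
      have e00 : ∑ i, (m - padicValNat r (f i)) + ∑ i, padicValNat r (f i) = (a + b) * m := by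
        rw [← Finset.sum_add_distrib]
        have : ∀ i ∈ (Finset.univ : Finset (Fin (a + b))),
            m - padicValNat r (f i) + padicValNat r (f i) = m := fun i _ =>
          Nat.sub_add_cancel (hfm i)
        rw [Finset.sum_congr rfl this]
        simp
      omega
    rw [hΦ', v7_val hr f hf, e0, Finset.mul_sum, ← Finset.prod_pow_eq_pow_sum,
      ← Finset.prod_mul_distrib]
    exact Finset.prod_congr rfl (fun i _ => (hφ' _).symm)
  have e1 := PRS_map_map hb hab hM0 φ Φ (fun x hx => hφpos x (hM0 x hx))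
    (fun f hf => hmul f (fun i => hM0 _ (hf i)) (fun i => hm _ (hf i)))
  have e2 := PRS_map_map hb hab hN0 φ Φ (fun x hx => hφpos x (hN0 x hx))
    (fun f hf => hmul f (fun i => hN0 _ (hf i)) (fun i => hm' _ (hf i)))
  obtain ⟨s, hs, hsmin⟩ := v7_exists_min hne (fun x => x)
  have hsM := Multiset.mem_filter.mp hs
  have hsN := Multiset.mem_filter.mp (hE ▸ hs)
  have hφs : φ s = s := by rw [hφ', hsM.2]; simp
  have hle : ∀ L : Multiset ℕ, (∀ x ∈ L, 0 < x) → (∀ x ∈ L, padicValNat r x ≤ m) →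
      (L.filter fun x => padicValNat r x = m) = (M.filter fun x => padicValNat r x = m) →
      ∀ x ∈ L, φ s ≤ φ x := by
    intro L hL0 hLm hLE x hx
    rw [hφs, hφ']
    rcases (hLm x hx).eq_or_lt with hv | hv
    · rw [hv, Nat.sub_self, Nat.mul_zero, pow_zero, Nat.mul_one]
      apply hsmin
      rw [← hLE]
      exact Multiset.mem_filter.mpr ⟨hx, hv⟩
    · have h1 : s < r ^ K := hKM s hsM.1
      calc s ≤ r ^ K := h1.le
        _ ≤ r ^ (K * (m - padicValNat r x)) :=
            Nat.pow_le_pow_right hr.pos (Nat.le_mul_of_pos_right _ (by omega))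
        _ ≤ x * r ^ (K * (m - padicValNat r x)) := Nat.le_mul_of_pos_left _ (hL0 x hx)
  have key : M.map φ = N.map φ := by
    apply eq_of_min hb hab (s := φ s)
    · intro x hx
      obtain ⟨z, hz, rfl⟩ := Multiset.mem_map.mp hx
      exact hφpos z (hM0 z hz)
    · intro x hx
      obtain ⟨z, hz, rfl⟩ := Multiset.mem_map.mp hx
      exact hφpos z (hN0 z hz)
    · rwa [Multiset.card_map]
    · rwa [Multiset.card_map]
    · rw [e1, e2, h]
    · exact Multiset.mem_map.mpr ⟨s, hsM.1, rfl⟩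
    · exact Multiset.mem_map.mpr ⟨s, hsN.1, rfl⟩
    · intro x hx
      obtain ⟨z, hz, rfl⟩ := Multiset.mem_map.mp hx
      exact hle M hM0 hm rfl z hz
    · intro x hx
      obtain ⟨z, hz, rfl⟩ := Multiset.mem_map.mp hx
      exact hle N hN0 hm' hE.symm z hz
  have hinv : ∀ x, 0 < x → padicValNat r x ≤ m →
      φ x / r ^ (K * (m - (K * m - padicValNat r (φ x)) / (K - 1))) = x := by
    intro x hx hxm
    have hv : padicValNat r (φ x) = padicValNat r x + K * (m - padicValNat r x) := by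
      rw [hφ', padicValNat.mul hx.ne' (hrpos _).ne', padicValNat.prime_pow]
    obtain ⟨d, hd⟩ : ∃ d, m = padicValNat r x + d := ⟨m - padicValNat r x, by omega⟩
    obtain ⟨k, hk⟩ : ∃ k, K = k + 1 + 1 := ⟨M.sum + N.sum, by omega⟩
    have h1 : K * m - padicValNat r (φ x) = (K - 1) * padicValNat r x := by
      rw [hv, hk]
      have e3 : m - padicValNat r x = d := by omega
      rw [e3, hd]
      have e4 : (k + 1 + 1) * (padicValNat r x + d)
          = (k + 1) * padicValNat r x + (padicValNat r x + (k + 1 + 1) * d) := by ring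
      rw [e4, Nat.add_sub_cancel, Nat.add_sub_cancel]
    rw [h1, Nat.mul_div_cancel_left _ (by omega), hφ', Nat.mul_div_cancel _ (hrpos _)]
  exact v7_cancel (g := fun z => z / r ^ (K * (m - (K * m - padicValNat r z) / (K - 1))))
    (fun x hx => hinv x (hM0 x hx) (hm x hx)) (fun x hx => hinv x (hN0 x hx) (hm' x hx)) key

theorem v7_maxFace {M : Multiset ℕ} {r x₀ : ℕ} (hx₀ : x₀ ∈ M)
    (hmax : ∀ y ∈ M, padicValNat r y ≤ padicValNat r x₀) :
    maxFace r M = M.filter fun x => padicValNat r x = padicValNat r x₀ := by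
  unfold maxFace
  refine Multiset.filter_congr (fun x hx => ?_)
  constructor
  · intro h
    exact le_antisymm (hmax x hx) (h x₀ hx₀)
  · intro h y hy
    rw [h]
    exact hmax y hy

/-- By `map_valuation` the greatest valuations agree and are attained equally often; the faces
have the same `PRS` by `PRS_face` with `w = -padicValNat r`; `PRS_inj`, `eq_of_max_face`. -/
theorem eq_of_maxFace {a b : ℕ} (hb : 1 ≤ b) (hab : b ≤ a) {M N : Multiset ℕ}
    (hM0 : ∀ x ∈ M, 0 < x) (hN0 : ∀ x ∈ N, 0 < x) (hM : 2 ≤ Multiset.card M)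
    (hN : 2 ≤ Multiset.card N) (h : PRS a b M = PRS a b N) (hsum : M.sum = N.sum) {r : ℕ}
    (hr : r.Prime) (h2 : 2 ≤ Multiset.card (maxFace r M))
    (hE : Multiset.card (maxFace r M) ∉ Exc a b) : M = N := by
  haveI := Fact.mk hr
  have hMne : M ≠ 0 := by
    intro h0
    rw [h0] at hM
    simp at hM
  obtain ⟨x₀, hx₀, hmx⟩ := v7_exists_max hMne (padicValNat r)
  rw [v7_maxFace hx₀ hmx] at h2 hE
  have hval := map_valuation hb hab hM0 hN0 hM hN h hsum hr
  have hmy : ∀ y ∈ N, padicValNat r y ≤ padicValNat r x₀ := by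
    intro y hy
    have h1 : padicValNat r y ∈ N.map (padicValNat r) := Multiset.mem_map_of_mem _ hy
    rw [← hval] at h1
    obtain ⟨z, hz, hzy⟩ := Multiset.mem_map.mp h1
    rw [← hzy]
    exact hmx z hz
  have hcard : Multiset.card (M.filter fun x => padicValNat r x = padicValNat r x₀)
      = Multiset.card (N.filter fun x => padicValNat r x = padicValNat r x₀) := by
    have h1 := congrArg (fun L => Multiset.card (L.filter fun v => v = padicValNat r x₀)) hval
    simp only [Multiset.filter_map, Multiset.card_map] at h1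
    exact h1
  have hN2 : 2 ≤ Multiset.card (N.filter fun x => padicValNat r x = padicValNat r x₀) := by
    rw [← hcard]; exact h2
  have hw : ∀ x y : ℕ, 0 < x → 0 < y →
      (-((padicValNat r (x * y) : ℕ) : ℤ)) = -(padicValNat r x : ℕ) + -(padicValNat r y : ℕ) := by
    intro x y hx hy
    rw [padicValNat.mul hx.ne' hy.ne']
    push_cast
    ring
  have hfM := PRS_face hb hab hM0 (fun x => -((padicValNat r x : ℕ) : ℤ)) hw
    (-((padicValNat r x₀ : ℕ) : ℤ)) (fun x hx => by
      have := hmx x hx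
      have : ((padicValNat r x : ℕ) : ℤ) ≤ ((padicValNat r x₀ : ℕ) : ℤ) := by exact_mod_cast this
      linarith)
  have hfN := PRS_face hb hab hN0 (fun x => -((padicValNat r x : ℕ) : ℤ)) hw
    (-((padicValNat r x₀ : ℕ) : ℤ)) (fun x hx => by
      have := hmy x hx
      have : ((padicValNat r x : ℕ) : ℤ) ≤ ((padicValNat r x₀ : ℕ) : ℤ) := by exact_mod_cast this
      linarith)
  have hcongr : ∀ L : Multiset ℕ,
      L.filter (fun x => -((padicValNat r x : ℕ) : ℤ) = -((padicValNat r x₀ : ℕ) : ℤ))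
      = L.filter (fun x => padicValNat r x = padicValNat r x₀) := fun L =>
    Multiset.filter_congr (fun x _ => by rw [neg_inj, Nat.cast_inj])
  rw [hcongr] at hfM hfN
  rw [h, hfN] at hfM
  have hEE := PRS_inj hb hab (fun x hx => hM0 x (Multiset.mem_filter.mp hx).1)
    (fun x hx => hN0 x (Multiset.mem_filter.mp hx).1) h2 hN2 hE hfM.symm
  refine eq_of_max_face hb hab hM0 hN0 hM hN h hr hmx hmy hEE ?_
  intro h0
  rw [h0] at h2
  simp at h2

end Pool.Agent.Lib.H70S
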