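import Pool.Agent.Lib.H70S.V1

/-! # Chunk Z1 (S): two parts equal to one -/

namespace Pool.Agent.Lib.H70S

open Pool.Agent.SchurTwoRow

/-- `prs_alternative` (in `SchurTwoRow/Alternative.lean`). In the case `Lower a b p.parts q.parts`
we have `p.parts = s ::ₘ S ::ₘ M'` with `s < t ≤ W < S` and all elements of `M'` at least `S > 1`,
so at most one part of `p` is `1`; in the case `Lower a b q.parts p.parts` the parts of `p` are
`≥ t > s ≥ 1`. -/
theorem eq_of_two_ones {a b n : ℕ} (hb : 1 ≤ b) (hab : b ≤ a) {p q : n.Partition}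
    (hp : 2 ≤ Multiset.card p.parts) (hq : 2 ≤ Multiset.card q.parts)
    (h1 : 2 ≤ p.parts.count 1) (h : prs a b p = prs a b q) : p = q := by
  rcases prs_alternative hb hab hp hq h with h2 | h2 | h2
  · exact Nat.Partition.ext h2
  · exfalso
    obtain ⟨s, S, t, W, M', N', hs, hst, htW, hWS, _, hM, _, hM', _⟩ := h2
    rw [hM, Multiset.count_cons, Multiset.count_cons,
      Multiset.count_eq_zero_of_notMem (fun h3 => by have := hM' 1 h3; omega),
      if_neg (by omega : ¬ 1 = S)] at h1
    split_ifs at h1 <;> omega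
  · exfalso
    obtain ⟨s, S, t, W, M', N', hs, hst, htW, hWS, _, _, hN, _, hN'⟩ := h2
    rw [hN, Multiset.count_cons, Multiset.count_cons,
      Multiset.count_eq_zero_of_notMem (fun h3 => by have := hN' 1 h3; omega),
      if_neg (by omega : ¬ 1 = W), if_neg (by omega : ¬ 1 = t)] at h1
    omega

end Pool.Agent.Lib.H70S
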