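import Pool.Agent.Lib.H70S.P4
import Pool.Agent.Lib.H70S.V5
import Pool.Agent.Lib.H70S.V7
import Pool.Agent.Lib.H70S.F8
import Pool.Agent.Lib.H70S.Z1
import Pool.Agent.Lib.H70S.K3a
import Pool.Agent.Lib.H70S.K3b
import Pool.Agent.Lib.H70S.K3c
import Pool.Agent.Lib.H70S.K3d

/-!
# Schur partition maps of two-row shapes: final assembly
-/

namespace Pool.Agent.Lib.H70S

open Pool.Agent.SchurTwoRow

theorem not_exc_of_ne_zero {a b l : ℕ} (h : ∀ k, 1 ≤ k → AA a b k l ≠ 0) : l ∉ Exc a b := by
  rintro ⟨k, hk, _, h0⟩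
  exact h k (by omega) h0

/-- The exceptional lengths between `5` and `1000` of the shapes with at most twelve boxes. -/
theorem small_shapes {a b l : ℕ} (hb : 2 ≤ b) (hab : b ≤ a) (hs : a + b ≤ 12)
    (hl5 : 5 ≤ l) (hl : l ≤ 1000) (hE : l ∈ Exc a b) :
    (a = 2 ∧ b = 2 ∧ l = 14) ∨ (a = 3 ∧ b = 3 ∧ l = 13) := by
  by_contra hcon
  push Not at hcon
  obtain ⟨hc1, hc2⟩ := hcon
  refine not_exc_of_ne_zero ?_ hE
  have hb6 : b ≤ 6 := by omega
  have ha10 : a ≤ 10 := by omega
  interval_cases b
  · have ha : a ≤ 10 := by omega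
    interval_cases a
    · rcases Nat.lt_or_ge l 14 with h | h
      · exact chkL_spec (by norm_num) (by norm_num) k_2_2_5 l hl5 (by simp [lenL]; omega)
      · have h14 : l ≠ 14 := hc1 rfl rfl
        exact chkL_spec (by norm_num) (by norm_num) k_2_2_15 l (by omega) (by simp [lenL]; omega)
    · exact chkL_spec (by norm_num) (by norm_num) k_3_2_5 l hl5 (by simp [lenL]; omega)
    · exact chkL_spec (by norm_num) (by norm_num) k_4_2_5 l hl5 (by simp [lenL]; omega)
    · exact chkL_spec (by norm_num) (by norm_num) k_5_2_5 l hl5 (by simp [lenL]; omega)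
    · exact chkL_spec (by norm_num) (by norm_num) k_6_2_5 l hl5 (by simp [lenL]; omega)
    · exact chkL_spec (by norm_num) (by norm_num) k_7_2_5 l hl5 (by simp [lenL]; omega)
    · exact chkL_spec (by norm_num) (by norm_num) k_8_2_5 l hl5 (by simp [lenL]; omega)
    · exact chkL_spec (by norm_num) (by norm_num) k_9_2_5 l hl5 (by simp [lenL]; omega)
    · exact chkL_spec (by norm_num) (by norm_num) k_10_2_5 l hl5 (by simp [lenL]; omega)
  · have ha : a ≤ 9 := by omega
    interval_cases a
    · rcases Nat.lt_or_ge l 13 with h | h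
      · exact chkL_spec (by norm_num) (by norm_num) k_3_3_5 l hl5 (by simp [lenL]; omega)
      · have h13 : l ≠ 13 := hc2 rfl rfl
        exact chkL_spec (by norm_num) (by norm_num) k_3_3_14 l (by omega) (by simp [lenL]; omega)
    · exact chkL_spec (by norm_num) (by norm_num) k_4_3_5 l hl5 (by simp [lenL]; omega)
    · exact chkL_spec (by norm_num) (by norm_num) k_5_3_5 l hl5 (by simp [lenL]; omega)
    · exact chkL_spec (by norm_num) (by norm_num) k_6_3_5 l hl5 (by simp [lenL]; omega)
    · exact chkL_spec (by norm_num) (by norm_num) k_7_3_5 l hl5 (by simp [lenL]; omega)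
    · exact chkL_spec (by norm_num) (by norm_num) k_8_3_5 l hl5 (by simp [lenL]; omega)
    · exact chkL_spec (by norm_num) (by norm_num) k_9_3_5 l hl5 (by simp [lenL]; omega)
  · have ha : a ≤ 8 := by omega
    interval_cases a
    · exact chkL_spec (by norm_num) (by norm_num) k_4_4_5 l hl5 (by simp [lenL]; omega)
    · exact chkL_spec (by norm_num) (by norm_num) k_5_4_5 l hl5 (by simp [lenL]; omega)
    · exact chkL_spec (by norm_num) (by norm_num) k_6_4_5 l hl5 (by simp [lenL]; omega)
    · exact chkL_spec (by norm_num) (by norm_num) k_7_4_5 l hl5 (by simp [lenL]; omega)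
    · exact chkL_spec (by norm_num) (by norm_num) k_8_4_5 l hl5 (by simp [lenL]; omega)
  · have ha : a ≤ 7 := by omega
    interval_cases a
    · exact chkL_spec (by norm_num) (by norm_num) k_5_5_5 l hl5 (by simp [lenL]; omega)
    · exact chkL_spec (by norm_num) (by norm_num) k_6_5_5 l hl5 (by simp [lenL]; omega)
    · exact chkL_spec (by norm_num) (by norm_num) k_7_5_5 l hl5 (by simp [lenL]; omega)
  · have ha : a ≤ 6 := by omega
    interval_cases a
    · exact chkL_spec (by norm_num) (by norm_num) k_6_6_5 l hl5 (by simp [lenL]; omega)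

/-- The main theorem. -/
theorem main {a b n : ℕ} (hb : 1 ≤ b) (hab : b ≤ a) {p q : n.Partition}
    (hp : 2 ≤ Multiset.card p.parts) (hq : 2 ≤ Multiset.card q.parts)
    (h : prs a b p = prs a b q)
    (hc : Multiset.card p.parts ≤ 4 ∨ Multiset.card p.parts ∉ Exc a b ∨
      2 ≤ p.parts.count 1 ∨
      ∃ r : ℕ, r.Prime ∧
        ((2 ≤ Multiset.card (minFace r p.parts) ∧ Multiset.card (minFace r p.parts) ∉ Exc a b) ∨
         (2 ≤ Multiset.card (maxFace r p.parts) ∧
            Multiset.card (maxFace r p.parts) ∉ Exc a b))) : p = q := by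
  have hp0 : ∀ x ∈ p.parts, 0 < x := fun x hx => p.parts_pos hx
  have hq0 : ∀ x ∈ q.parts, 0 < x := fun x hx => q.parts_pos hx
  have hsum : p.parts.sum = q.parts.sum := by rw [p.parts_sum, q.parts_sum]
  have h' : PRS a b p.parts = PRS a b q.parts := h
  rcases hc with hc | hc | hc | ⟨r, hr, hc | hc⟩
  · exact Nat.Partition.ext (eq_of_card_le_four hb hab hp0 hq0 hp hq hc hsum h')
  · exact Nat.Partition.ext (PRS_inj hb hab hp0 hq0 hp hq hc h')
  · exact eq_of_two_ones hb hab hp hq hc h
  · exact Nat.Partition.ext (eq_of_minFace hb hab hp0 hq0 hp hq h' hsum hr hc.1 hc.2)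
  · exact Nat.Partition.ext (eq_of_maxFace hb hab hp0 hq0 hp hq h' hsum hr hc.1 hc.2)

end Pool.Agent.Lib.H70S
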