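import Pool.Agent.Lib.H70S.Defs

/-! # Chunk P1 (S/M): size of the coefficients -/

namespace Pool.Agent.Lib.H70S

/-- `hh` is nonnegative, and `C(l + m - 1, m) ≤ l ^ m` for `l ≥ 1`
(`∏_(i < m) (l + i) ≤ m! l ^ m`, induction on `m`). -/
theorem hh_nonneg (m : ℤ) (l : ℕ) : 0 ≤ hh m l := by
  unfold hh
  split_ifs
  · exact le_refl _
  · positivity

theorem hh_le (m : ℕ) {l : ℕ} (hl : 1 ≤ l) : hh m l ≤ (l : ℤ) ^ m := by
  have key : (l + m - 1).choose m ≤ l ^ m := by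
    induction m with
    | zero => simp
    | succ m ih =>
      have h1 := Nat.add_one_mul_choose_eq (l + m - 1) m
      have h2 : l + m - 1 + 1 = l + m := by omega
      rw [h2] at h1
      have h3 : l + (m + 1) - 1 = l + m := by omega
      rw [h3]
      have h4 : (l + m).choose (m + 1) * (m + 1) ≤ l ^ (m + 1) * (m + 1) := by
        rw [← h1]
        calc (l + m) * (l + m - 1).choose m ≤ (l * (m + 1)) * l ^ m := by
              refine Nat.mul_le_mul ?_ ih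
              nlinarith
          _ = l ^ (m + 1) * (m + 1) := by ring
      exact Nat.le_of_mul_le_mul_right h4 (Nat.succ_pos m)
  unfold hh
  rw [if_neg (by omega), Int.toNat_natCast]
  exact_mod_cast key

theorem one_le_hh (m : ℕ) {l : ℕ} (hl : 1 ≤ l) : 1 ≤ hh m l := by
  unfold hh
  rw [if_neg (by omega), Int.toNat_natCast]
  have : 0 < (l + m - 1).choose m := Nat.choose_pos (by omega)
  exact_mod_cast this

theorem p1_prod {l : ℕ} (hl : 1 ≤ l) (m n : ℤ) (N : ℕ) (h : m + n ≤ N) :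
    0 ≤ hh m l * hh n l ∧ hh m l * hh n l ≤ (l : ℤ) ^ N := by
  have hl' : (1 : ℤ) ≤ l := by exact_mod_cast hl
  refine ⟨mul_nonneg (hh_nonneg _ _) (hh_nonneg _ _), ?_⟩
  by_cases hm : m < 0
  · have h1 : hh m l = 0 := by rw [hh, if_pos hm]
    rw [h1, zero_mul]
    positivity
  by_cases hn : n < 0
  · have h1 : hh n l = 0 := by rw [hh, if_pos hn]
    rw [h1, mul_zero]
    positivity
  obtain ⟨m', rfl⟩ := Int.eq_ofNat_of_zero_le (not_lt.mp hm)
  obtain ⟨n', rfl⟩ := Int.eq_ofNat_of_zero_le (not_lt.mp hn)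
  have h1 := hh_le m' hl
  have h2 := hh_le n' hl
  have h3 : hh (m' : ℤ) l * hh (n' : ℤ) l ≤ (l : ℤ) ^ m' * (l : ℤ) ^ n' :=
    mul_le_mul h1 h2 (hh_nonneg _ _) (by positivity)
  refine h3.trans ?_
  rw [← pow_add]
  exact pow_le_pow_right₀ hl' (by exact_mod_cast h)

/-- For `1 ≤ j ≤ a`: each of the four products is between `0` and `l ^ (a + b - 1)`. -/
theorem abs_coef_le {a b j l : ℕ} (hb : 1 ≤ b) (hab : b ≤ a) (hj : 1 ≤ j) (hja : j ≤ a)
    (hl : 1 ≤ l) : |coef a b j l| ≤ 2 * (l : ℤ) ^ (a + b - 1) := by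
  have h1 := p1_prod hl ((a : ℤ) - j) b (a + b - 1) (by omega)
  have h2 := p1_prod hl (a : ℤ) ((b : ℤ) - j) (a + b - 1) (by omega)
  have h3 := p1_prod hl ((a : ℤ) + 1 - j) ((b : ℤ) - 1) (a + b - 1) (by omega)
  have h4 := p1_prod hl ((a : ℤ) + 1) ((b : ℤ) - 1 - j) (a + b - 1) (by omega)
  unfold coef
  rw [abs_le]
  constructor <;> linarith [h1.1, h1.2, h2.1, h2.2, h3.1, h3.2, h4.1, h4.2]

/-- The last coefficient is `- h_(b-1) ≤ -1`. -/
theorem coef_last {a b l : ℕ} (hb : 1 ≤ b) (hab : b ≤ a) (hl : 1 ≤ l) :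
    coef a b (a + 1) l ≤ -1 := by
  unfold coef
  have h1 : hh ((a : ℤ) - ((a + 1 : ℕ) : ℤ)) l = 0 := by
    rw [hh, if_pos (by push_cast; omega)]
  have h2 : hh ((b : ℤ) - ((a + 1 : ℕ) : ℤ)) l = 0 := by
    rw [hh, if_pos (by push_cast; omega)]
  have h3 : hh ((b : ℤ) - 1 - ((a + 1 : ℕ) : ℤ)) l = 0 := by
    rw [hh, if_pos (by push_cast; omega)]
  have h4 : (a : ℤ) + 1 - ((a + 1 : ℕ) : ℤ) = ((0 : ℕ) : ℤ) := by push_cast; ring
  have h5 : (b : ℤ) - 1 = ((b - 1 : ℕ) : ℤ) := by omega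
  rw [h1, h2, h3, h4, h5]
  have h6 := one_le_hh 0 hl
  have h7 := one_le_hh (b - 1) hl
  nlinarith

end Pool.Agent.Lib.H70S
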