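import Pool.Agent.Lib.H70S.P1

/-! # Chunk P2 (S/M): for large `k` the last term dominates -/

namespace Pool.Agent.Lib.H70S

/-- If `2 a * a ^ (k-1) * l ^ (a+b-1) < (a+1) ^ (k-1)` then `AA a b k l < 0`: the terms
`1 ≤ j ≤ a` are together at most `a * a ^ (k-1) * 2 l ^ (a+b-1)` in absolute value. -/
theorem AA_neg {a b k l : ℕ} (hb : 1 ≤ b) (hab : b ≤ a) (hl : 1 ≤ l)
    (h : 2 * (a : ℤ) * (a : ℤ) ^ (k - 1) * (l : ℤ) ^ (a + b - 1) < ((a : ℤ) + 1) ^ (k - 1)) :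
    AA a b k l < 0 := by
  unfold AA
  rw [Finset.sum_Icc_succ_top (by omega)]
  have h1 : ∑ j ∈ Finset.Icc 1 a, (j : ℤ) ^ (k - 1) * coef a b j l ≤
      ∑ _j ∈ Finset.Icc 1 a, (a : ℤ) ^ (k - 1) * (2 * (l : ℤ) ^ (a + b - 1)) := by
    refine Finset.sum_le_sum fun j hj => ?_
    rw [Finset.mem_Icc] at hj
    have h2 := abs_coef_le hb hab hj.1 hj.2 hl
    have h3 : (j : ℤ) ^ (k - 1) ≤ (a : ℤ) ^ (k - 1) :=
      pow_le_pow_left₀ (by positivity) (by exact_mod_cast hj.2) _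
    have h4 : (0 : ℤ) ≤ (j : ℤ) ^ (k - 1) := by positivity
    calc (j : ℤ) ^ (k - 1) * coef a b j l ≤ (j : ℤ) ^ (k - 1) * |coef a b j l| :=
          mul_le_mul_of_nonneg_left (le_abs_self _) h4
      _ ≤ (a : ℤ) ^ (k - 1) * (2 * (l : ℤ) ^ (a + b - 1)) :=
          mul_le_mul h3 h2 (abs_nonneg _) (by positivity)
  rw [Finset.sum_const, Nat.card_Icc, nsmul_eq_mul] at h1
  have h5 : ((a + 1 - 1 : ℕ) : ℤ) = a := by simp
  rw [h5] at h1
  have h6 := coef_last hb hab hl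
  have h7 : (0 : ℤ) ≤ ((a + 1 : ℕ) : ℤ) ^ (k - 1) := by positivity
  have h8 : ((a + 1 : ℕ) : ℤ) ^ (k - 1) * coef a b (a + 1) l ≤
      ((a + 1 : ℕ) : ℤ) ^ (k - 1) * (-1) := mul_le_mul_of_nonneg_left h6 h7
  push_cast at h8 h1 ⊢
  linarith

/-- A zero satisfies `k - 1 ≤ (a + 1) (log (2 a) + (a + b - 1) log l)`: otherwise, since
`log (1 + 1 / a) ≥ 1 / (a + 1)` (`Real.one_sub_inv_le_log_of_pos` or `Real.log_le_sub_one_of_pos`
at `a / (a + 1)`), the hypothesis of `AA_neg` holds (take logarithms). -/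
theorem k_le_of_AA_eq_zero {a b k l : ℕ} (hb : 1 ≤ b) (hab : b ≤ a) (hl : 1 ≤ l) (hk : 1 ≤ k)
    (h : AA a b k l = 0) :
    (k : ℝ) - 1 ≤ (a + 1) * (Real.log (2 * a) + (a + b - 1) * Real.log l) := by
  by_contra hcon
  push Not at hcon
  have ha1 : 1 ≤ a := hb.trans hab
  have ha : (0 : ℝ) < a := by exact_mod_cast ha1
  have hl' : (0 : ℝ) < l := by exact_mod_cast hl
  have hlog : 1 / ((a : ℝ) + 1) ≤ Real.log (a + 1) - Real.log a := by
    rw [← Real.log_div (by positivity) (by positivity)]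
    have h1 := Real.one_sub_inv_le_log_of_pos (x := ((a : ℝ) + 1) / a) (by positivity)
    have h2 : 1 - (((a : ℝ) + 1) / a)⁻¹ = 1 / ((a : ℝ) + 1) := by
      field_simp
      ring
    rwa [h2] at h1
  have hk' : ((k - 1 : ℕ) : ℝ) = (k : ℝ) - 1 := by
    rw [Nat.cast_sub hk]
    simp
  have hab' : ((a + b - 1 : ℕ) : ℝ) = (a : ℝ) + b - 1 := by
    rw [Nat.cast_sub (by omega)]
    push_cast
    ring
  have hlt : (2 * (a : ℝ) * (a : ℝ) ^ (k - 1) * (l : ℝ) ^ (a + b - 1)) <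
      ((a : ℝ) + 1) ^ (k - 1) := by
    rw [← Real.log_lt_log_iff (by positivity) (by positivity)]
    rw [Real.log_mul (by positivity) (by positivity), Real.log_mul (by positivity) (by positivity),
      Real.log_pow, Real.log_pow, Real.log_pow, hk', hab']
    have hk0 : (0 : ℝ) ≤ (k : ℝ) - 1 := by
      rw [← hk']
      positivity
    have h3 := mul_le_mul_of_nonneg_left hlog hk0
    have h4 : Real.log (2 * a) + ((a : ℝ) + b - 1) * Real.log l < ((k : ℝ) - 1) * (1 / ((a : ℝ) + 1)) := by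
      rw [mul_one_div, lt_div_iff₀ (by positivity)]
      linarith
    linarith
  have hneg := AA_neg (k := k) hb hab hl (by exact_mod_cast hlt)
  omega

end Pool.Agent.Lib.H70S
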