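import Pool.Agent.Lib.H70S.P1

/-! # Chunk P3 (M): for fixed `k ≥ 2` there are at most `a + b - 1` zeros -/

namespace Pool.Agent.Lib.H70S

theorem p3_hh_one (m : ℤ) : hh m 1 = if m < 0 then 0 else 1 := by
  unfold hh
  split_ifs with h
  · rfl
  · have : 1 + m.toNat - 1 = m.toNat := by omega
    rw [this, Nat.choose_self]
    rfl

/-- values of a polynomial of degree at most `N` -/
def P3Poly (f : ℕ → ℤ) (N : ℕ) : Prop :=
  ∃ P : Polynomial ℚ, P.natDegree ≤ N ∧ ∀ l : ℕ, 1 ≤ l → P.eval (l : ℚ) = (f l : ℚ)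

theorem p3_sub {f g : ℕ → ℤ} {N : ℕ} (hf : P3Poly f N) (hg : P3Poly g N) :
    P3Poly (fun l => f l - g l) N := by
  obtain ⟨P, hP, hP'⟩ := hf
  obtain ⟨Q, hQ, hQ'⟩ := hg
  refine ⟨P - Q, (Polynomial.natDegree_sub_le P Q).trans (max_le hP hQ), fun l hl => ?_⟩
  rw [Polynomial.eval_sub, hP' l hl, hQ' l hl]
  push_cast
  ring

theorem p3_add {f g : ℕ → ℤ} {N : ℕ} (hf : P3Poly f N) (hg : P3Poly g N) :
    P3Poly (fun l => f l + g l) N := by
  obtain ⟨P, hP, hP'⟩ := hf
  obtain ⟨Q, hQ, hQ'⟩ := hg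
  refine ⟨P + Q, (Polynomial.natDegree_add_le P Q).trans (max_le hP hQ), fun l hl => ?_⟩
  rw [Polynomial.eval_add, hP' l hl, hQ' l hl]
  push_cast
  ring

theorem p3_const {f : ℕ → ℤ} {N : ℕ} (c : ℤ) (hf : P3Poly f N) :
    P3Poly (fun l => c * f l) N := by
  obtain ⟨P, hP, hP'⟩ := hf
  refine ⟨Polynomial.C (c : ℚ) * P, (Polynomial.natDegree_C_mul_le _ _).trans hP, fun l hl => ?_⟩
  rw [Polynomial.eval_mul, Polynomial.eval_C, hP' l hl]
  push_cast
  ring

theorem p3_zero {f : ℕ → ℤ} {N : ℕ} (h : ∀ l, f l = 0) : P3Poly f N :=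
  ⟨0, by simp, fun l _ => by rw [h l]; simp⟩

theorem p3_nat (m : ℕ) : P3Poly (fun l => hh (m : ℤ) l) m := by
  induction m with
  | zero =>
    refine ⟨1, by simp, fun l _ => ?_⟩
    simp [hh]
  | succ m ih =>
    obtain ⟨P, hP, hP'⟩ := ih
    refine ⟨Polynomial.C (1 / ((m : ℚ) + 1)) * (P * (Polynomial.X + Polynomial.C (m : ℚ))), ?_,
      fun l hl => ?_⟩
    · refine (Polynomial.natDegree_C_mul_le _ _).trans ?_
      refine Polynomial.natDegree_mul_le.trans ?_
      have : (Polynomial.X + Polynomial.C (m : ℚ)).natDegree ≤ 1 := by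
        rw [Polynomial.natDegree_X_add_C]
      omega
    · rw [Polynomial.eval_mul, Polynomial.eval_C, Polynomial.eval_mul, hP' l hl,
        Polynomial.eval_add, Polynomial.eval_X, Polynomial.eval_C]
      have h1 := Nat.add_one_mul_choose_eq (l + m - 1) m
      have h2 : l + m - 1 + 1 = l + m := by omega
      rw [h2] at h1
      have h3 : l + (m + 1) - 1 = l + m := by omega
      have e1 : hh ((m : ℕ) : ℤ) l = ((l + m - 1).choose m : ℤ) := by
        rw [hh, if_neg (by omega), Int.toNat_natCast]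
      have e2 : hh ((m + 1 : ℕ) : ℤ) l = ((l + m).choose (m + 1) : ℤ) := by
        rw [hh, if_neg (by omega), Int.toNat_natCast, h3]
      show 1 / ((m : ℚ) + 1) * (((hh ((m : ℕ) : ℤ) l : ℤ) : ℚ) * ((l : ℚ) + m)) =
        ((hh ((m + 1 : ℕ) : ℤ) l : ℤ) : ℚ)
      rw [e1, e2]
      have h4 : ((l : ℚ) + m) * ((l + m - 1).choose m : ℚ) =
          ((l + m).choose (m + 1) : ℚ) * ((m : ℚ) + 1) := by exact_mod_cast h1
      have h5 : (m : ℚ) + 1 ≠ 0 := by positivity
      rw [Int.cast_natCast, Int.cast_natCast]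
      field_simp
      linarith

theorem p3_prod (m n : ℤ) (N : ℕ) (h : m + n ≤ N) :
    P3Poly (fun l => hh m l * hh n l) N := by
  by_cases hm : m < 0
  · exact p3_zero fun l => by rw [hh, if_pos hm, zero_mul]
  by_cases hn : n < 0
  · exact p3_zero fun l => by
      have : hh n l = 0 := by rw [hh, if_pos hn]
      rw [this, mul_zero]
  obtain ⟨m', rfl⟩ := Int.eq_ofNat_of_zero_le (not_lt.mp hm)
  obtain ⟨n', rfl⟩ := Int.eq_ofNat_of_zero_le (not_lt.mp hn)
  obtain ⟨P, hP, hP'⟩ := p3_nat m'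
  obtain ⟨Q, hQ, hQ'⟩ := p3_nat n'
  refine ⟨P * Q, Polynomial.natDegree_mul_le.trans (by omega), fun l hl => ?_⟩
  rw [Polynomial.eval_mul, hP' l hl, hQ' l hl]
  push_cast
  ring

theorem p3_sum {ι : Type*} (s : Finset ι) (f : ι → ℕ → ℤ) {N : ℕ}
    (h : ∀ i ∈ s, P3Poly (f i) N) : P3Poly (fun l => ∑ i ∈ s, f i l) N := by
  classical
  induction s using Finset.induction_on with
  | empty => exact p3_zero fun l => by simp
  | insert i s hi ih =>
    have h1 := p3_add (h i (Finset.mem_insert_self _ _))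
      (ih fun j hj => h j (Finset.mem_insert_of_mem hj))
    obtain ⟨P, hP, hP'⟩ := h1
    refine ⟨P, hP, fun l hl => ?_⟩
    rw [hP' l hl]
    show ((f i l + ∑ i ∈ s, f i l : ℤ) : ℚ) = ((∑ i ∈ insert i s, f i l : ℤ) : ℚ)
    rw [Finset.sum_insert hi]

/-- At `l = 1`: `hh m 1 = 1` for `m ≥ 0`, so `coef a b j 1` is `1` for `j = b`, `-1` for
`j = a + 1` and `0` otherwise (`1 ≤ j ≤ a + 1`). -/
theorem AA_one_right {a b k : ℕ} (hb : 1 ≤ b) (hab : b ≤ a) :
    AA a b k 1 = (b : ℤ) ^ (k - 1) - ((a : ℤ) + 1) ^ (k - 1) := by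
  have key : ∀ j ∈ Finset.Icc 1 (a + 1), (j : ℤ) ^ (k - 1) * coef a b j 1 =
      (if j = b then (b : ℤ) ^ (k - 1) else 0) - (if j = a + 1 then ((a : ℤ) + 1) ^ (k - 1) else 0) := by
    intro j hj
    rw [Finset.mem_Icc] at hj
    unfold coef
    simp only [p3_hh_one]
    by_cases h1 : j = b
    · have h2 : ¬ j = a + 1 := by omega
      rw [if_pos h1, if_neg h2, if_neg (by omega), if_neg (by omega), if_neg (by omega),
        if_neg (by omega), if_neg (by omega), if_neg (by omega), if_neg (by omega),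
        if_pos (by omega), h1]
      ring
    · by_cases h2 : j = a + 1
      · rw [if_neg h1, if_pos h2, if_pos (by omega), if_neg (by omega), if_neg (by omega),
          if_pos (by omega), if_neg (by omega), if_neg (by omega), if_neg (by omega),
          if_pos (by omega), h2]
        push_cast
        ring
      · rw [if_neg h1, if_neg h2, if_neg (show ¬ ((a : ℤ) - j < 0) by omega),
          if_neg (show ¬ ((b : ℤ) < 0) by omega), if_neg (show ¬ ((a : ℤ) < 0) by omega),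
          if_neg (show ¬ ((a : ℤ) + 1 - j < 0) by omega), if_neg (show ¬ ((b : ℤ) - 1 < 0) by omega),
          if_neg (show ¬ ((a : ℤ) + 1 < 0) by omega)]
        by_cases h3 : j < b
        · rw [if_neg (by omega), if_neg (by omega)]
          ring
        · rw [if_pos (by omega), if_pos (by omega)]
          ring
  unfold AA
  rw [Finset.sum_congr rfl key, Finset.sum_sub_distrib, Finset.sum_ite_eq', Finset.sum_ite_eq',
    if_pos (by rw [Finset.mem_Icc]; omega), if_pos (by rw [Finset.mem_Icc]; omega)]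

/-- For `m ≥ 0` and `l ≥ 1` the number `hh m l = l (l + 1) ⋯ (l + m - 1) / m!` is the value at `l`
of a polynomial of degree at most `m` (`ascPochhammer`, `Nat.ascFactorial_eq_factorial_mul_choose`
or an induction). Hence `AA a b k l` is the value at `l` of a polynomial of degree at most
`a + b - 1` (in each product of `coef a b j` with `j ≥ 1` the two indices add up to
`a + b - j`). -/
theorem exists_poly {a b : ℕ} (hb : 1 ≤ b) (hab : b ≤ a) (k : ℕ) :
    ∃ P : Polynomial ℚ, P.natDegree ≤ a + b - 1 ∧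
      ∀ l : ℕ, 1 ≤ l → P.eval (l : ℚ) = (AA a b k l : ℚ) := by
  have h : P3Poly (fun l => AA a b k l) (a + b - 1) := by
    unfold AA
    refine p3_sum _ _ fun j hj => ?_
    rw [Finset.mem_Icc] at hj
    refine p3_const _ ?_
    unfold coef
    exact p3_sub (p3_sub (p3_add (p3_prod _ _ _ (by omega)) (p3_prod _ _ _ (by omega)))
      (p3_prod _ _ _ (by omega))) (p3_prod _ _ _ (by omega))
  exact h

/-- The polynomial is not zero by `AA_one_right` (`k ≥ 2`, `b < a + 1`), and has at most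
`a + b - 1` roots (`Polynomial.card_roots'`, `Polynomial.roots`). -/
theorem zeros_finite {a b k : ℕ} (hb : 1 ≤ b) (hab : b ≤ a) (hk : 2 ≤ k) :
    {l : ℕ | 1 ≤ l ∧ AA a b k l = 0}.Finite ∧
      {l : ℕ | 1 ≤ l ∧ AA a b k l = 0}.ncard ≤ a + b - 1 := by
  obtain ⟨P, hP, hP'⟩ := exists_poly hb hab k
  have hP0 : P ≠ 0 := by
    intro h0
    have h1 := hP' 1 le_rfl
    rw [h0, Polynomial.eval_zero, AA_one_right hb hab] at h1
    have h2 : (b : ℤ) ^ (k - 1) < ((a : ℤ) + 1) ^ (k - 1) :=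
      pow_lt_pow_left₀ (by omega) (by omega) (by omega)
    have h3 : (b : ℤ) ^ (k - 1) - ((a : ℤ) + 1) ^ (k - 1) = 0 := by exact_mod_cast h1.symm
    omega
  have hsub : (fun l : ℕ => (l : ℚ)) '' {l : ℕ | 1 ≤ l ∧ AA a b k l = 0} ⊆
      (P.roots.toFinset : Set ℚ) := by
    rintro _ ⟨l, ⟨hl, hl0⟩, rfl⟩
    rw [Finset.mem_coe, Multiset.mem_toFinset, Polynomial.mem_roots hP0, Polynomial.IsRoot.def]
    show P.eval (l : ℚ) = 0
    rw [hP' l hl, hl0, Int.cast_zero]
  have hfin : ((fun l : ℕ => (l : ℚ)) '' {l : ℕ | 1 ≤ l ∧ AA a b k l = 0}).Finite :=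
    (Finset.finite_toSet _).subset hsub
  refine ⟨hfin.of_finite_image Nat.cast_injective.injOn, ?_⟩
  rw [← Set.ncard_image_of_injective _ (Nat.cast_injective (R := ℚ))]
  refine (Set.ncard_le_ncard hsub (Finset.finite_toSet _)).trans ?_
  rw [Set.ncard_coe_finset]
  exact (Multiset.toFinset_card_le _).trans ((Polynomial.card_roots' P).trans hP)

end Pool.Agent.Lib.H70S
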