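import Pool.Agent.Lib.H70S.P2
import Pool.Agent.Lib.H70S.P3

/-! # Chunk P4 (S/M): the exceptional set is thin -/

namespace Pool.Agent.Lib.H70S

/-- `Exc a b ∩ [1, L]` is contained in the union over the integers `k ≥ 2` with
`k - 1 ≤ B := (a + 1) (log (2 a) + (a + b - 1) log L)` of the sets of `zeros_finite`; there are at
most `B` such `k` (`⌊B⌋₊`), each set has at most `a + b - 1` elements. -/
theorem exc_count {a b : ℕ} (hb : 1 ≤ b) (hab : b ≤ a) {L : ℕ} (hL : 1 ≤ L) :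
    ((Exc a b ∩ Set.Icc 1 L).ncard : ℝ) ≤
      (a + b - 1) * ((a + 1) * (Real.log (2 * a) + (a + b - 1) * Real.log L)) := by
  obtain ⟨B, hB⟩ : ∃ B : ℝ, B = ((a : ℝ) + 1) * (Real.log (2 * a) + (a + b - 1) * Real.log L) :=
    ⟨_, rfl⟩
  rw [← hB]
  have ha1 : (1 : ℝ) ≤ a := by exact_mod_cast hb.trans hab
  have hb1 : (1 : ℝ) ≤ b := by exact_mod_cast hb
  have hL1 : (1 : ℝ) ≤ L := by exact_mod_cast hL
  have hlogL : 0 ≤ Real.log L := Real.log_nonneg hL1
  have hlog2 : 0 ≤ Real.log (2 * a) := Real.log_nonneg (by linarith)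
  have hB0 : 0 ≤ B := by
    rw [hB]
    have h1 : 0 ≤ ((a : ℝ) + b - 1) * Real.log L := mul_nonneg (by linarith) hlogL
    exact mul_nonneg (by linarith) (by linarith)
  let Z : ℕ → Finset ℕ := fun k =>
    if hk : 2 ≤ k then (zeros_finite (k := k) hb hab hk).1.toFinset else ∅
  have hZ : ∀ k, (Z k).card ≤ a + b - 1 := by
    intro k
    by_cases hk : 2 ≤ k
    · have h1 : Z k = (zeros_finite (k := k) hb hab hk).1.toFinset := dif_pos hk
      rw [h1, ← Set.ncard_eq_toFinset_card _ (zeros_finite (k := k) hb hab hk).1]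
      exact (zeros_finite (k := k) hb hab hk).2
    · have h1 : Z k = ∅ := dif_neg hk
      rw [h1, Finset.card_empty]
      exact Nat.zero_le _
  have hsub : Exc a b ∩ Set.Icc 1 L ⊆
      (((Finset.Icc 2 (⌊B⌋₊ + 1)).biUnion Z : Finset ℕ) : Set ℕ) := by
    rintro l ⟨⟨k, hk2, hkl, hk0⟩, hl1, hlL⟩
    have h1 := k_le_of_AA_eq_zero hb hab hl1 (by omega) hk0
    have h2 : Real.log l ≤ Real.log L :=
      Real.log_le_log (by exact_mod_cast hl1) (by exact_mod_cast hlL)
    have h3 : (k : ℝ) - 1 ≤ B := by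
      rw [hB]
      refine h1.trans ?_
      refine mul_le_mul_of_nonneg_left ?_ (by linarith)
      have := mul_le_mul_of_nonneg_left h2 (show 0 ≤ (a : ℝ) + b - 1 by linarith)
      linarith
    have h4 : k - 1 ≤ ⌊B⌋₊ := by
      rw [Nat.le_floor_iff hB0, Nat.cast_sub (by omega)]
      simpa using h3
    rw [Finset.mem_coe, Finset.mem_biUnion]
    refine ⟨k, by rw [Finset.mem_Icc]; omega, ?_⟩
    have h5 : Z k = (zeros_finite (k := k) hb hab hk2).1.toFinset := dif_pos hk2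
    rw [h5, Set.Finite.mem_toFinset]
    exact ⟨hl1, hk0⟩
  have hcard : (Exc a b ∩ Set.Icc 1 L).ncard ≤ ⌊B⌋₊ * (a + b - 1) := by
    refine (Set.ncard_le_ncard hsub (Finset.finite_toSet _)).trans ?_
    rw [Set.ncard_coe_finset]
    refine Finset.card_biUnion_le.trans ?_
    refine (Finset.sum_le_sum fun k _ => hZ k).trans ?_
    rw [Finset.sum_const, Nat.card_Icc, smul_eq_mul]
    exact Nat.mul_le_mul_right _ (by omega)
  have h1 : ((Exc a b ∩ Set.Icc 1 L).ncard : ℝ) ≤ (⌊B⌋₊ : ℝ) * ((a + b - 1 : ℕ) : ℝ) := by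
    exact_mod_cast hcard
  have h2 : ((a + b - 1 : ℕ) : ℝ) = (a : ℝ) + b - 1 := by
    rw [Nat.cast_sub (by omega)]
    push_cast
    ring
  rw [h2] at h1
  refine h1.trans ?_
  rw [mul_comm]
  exact mul_le_mul_of_nonneg_left (Nat.floor_le hB0) (by linarith)

end Pool.Agent.Lib.H70S
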