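import Pool.Agent.Lib.H70S.SDefs

/-! # Chunk S1 (S/M): exponential series and the multiset `prsFun` -/

namespace Pool.Agent.Lib.H70S

open Pool.Agent.SchurTwoRow

theorem s1_EE (z : ℝ) : EE z = PowerSeries.rescale z (PowerSeries.exp ℝ) := by
  ext n
  rw [coeff_EE, PowerSeries.coeff_rescale, PowerSeries.coeff_exp]
  simp [div_eq_mul_inv]

/-- Binomial theorem (`PowerSeries.coeff_mul`, `add_pow`), or `EE z = rescale z (exp ℝ)` and
`PowerSeries.exp_mul_exp_eq_exp_add`. -/
theorem EE_add (x y : ℝ) : EE (x + y) = EE x * EE y := by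
  rw [s1_EE, s1_EE, s1_EE, PowerSeries.exp_mul_exp_eq_exp_add]

theorem EE_zero : EE 0 = 1 := by
  ext n
  rw [coeff_EE, PowerSeries.coeff_one]
  cases n with
  | zero => simp
  | succ n => simp

theorem EE_pow (z : ℝ) (j : ℕ) : EE z ^ j = EE (j * z) := by
  induction j with
  | zero => rw [pow_zero, Nat.cast_zero, zero_mul, EE_zero]
  | succ j ih => rw [pow_succ, ih, ← EE_add, Nat.cast_succ, add_mul, one_mul]

theorem EE_sum {ι : Type*} (s : Finset ι) (x : ι → ℝ) : ∏ i ∈ s, EE (x i) = EE (∑ i ∈ s, x i) := by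
  classical
  induction s using Finset.induction_on with
  | empty => rw [Finset.prod_empty, Finset.sum_empty, EE_zero]
  | insert a s ha ih => rw [Finset.prod_insert ha, Finset.sum_insert ha, ih, EE_add]

/-- `log` of the product over the boxes is the sum of the logarithms. -/
theorem sR_EE (a b : ℕ) {l : ℕ} (x : Fin l → ℕ) (hx : ∀ i, 0 < x i) :
    sR a b (fun i => EE (Real.log (x i))) =
      ((prsFun a b x).map fun m : ℕ => EE (Real.log m)).sum := by
  unfold sR prsFun
  rw [Multiset.map_map]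
  change _ = ∑ T ∈ tableaux a b l, _
  apply Finset.sum_congr rfl
  intro T _
  rw [Function.comp_apply, EE_sum, EE_sum, ← EE_add]
  congr 1
  have hne : ∀ i, ((x i : ℕ) : ℝ) ≠ 0 := fun i => by exact_mod_cast (hx i).ne'
  push_cast
  rw [Real.log_mul (Finset.prod_ne_zero_iff.mpr (fun i _ => hne _)) (Finset.prod_ne_zero_iff.mpr (fun i _ => hne _)),
    Real.log_prod (fun i _ => hne _), Real.log_prod (fun i _ => hne _)]

/-- The coefficients of the power sums of the exponential series. -/
theorem coeff_pR_EE (j n : ℕ) {l : ℕ} (x : Fin l → ℝ) :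
    PowerSeries.coeff n (pR j fun i => EE (x i)) =
      (j : ℝ) ^ n * ((∑ i, x i ^ n) / (n.factorial : ℝ)) := by
  unfold pR
  rw [map_sum, Finset.sum_div, Finset.mul_sum]
  apply Finset.sum_congr rfl
  intro i _
  rw [EE_pow, coeff_EE, mul_pow, mul_div_assoc]

end Pool.Agent.Lib.H70S
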