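import Pool.Agent.Lib.H70S.S1
import Pool.Agent.Lib.H70S.N1

/-! # Chunk S2 (M): values at `l` ones -/

namespace Pool.Agent.Lib.H70S

open Pool.Agent.SchurTwoRow

theorem s2_hh (m l : ℕ) : hh (m : ℤ) l = ((l + m - 1).choose m : ℤ) := by
  unfold hh
  rw [if_neg (by omega), Int.toNat_natCast]

theorem s2_hockey (L n : ℕ) : ∑ i ∈ Finset.range (n + 1), (L + i).choose i = (L + n + 1).choose n := by
  induction n with
  | zero => simp
  | succ n ih =>
    rw [Finset.sum_range_succ, ih, show L + (n + 1) + 1 = (L + n + 1) + 1 by ring, Nat.choose_succ_succ,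
      show L + (n + 1) = L + n + 1 by ring]

/-- Newton's identity at `l` ones for the numbers `hh m l = C(l + m - 1, m)`:
`m C(l+m-1, m) = l ∑_(i < m) C(l + (m-1-i) - 1, m-1-i)`. Induction on `m` (hockey stick:
`∑_(i < m) hh i l = hh (m-1) (l+1)` and `m C(l+m-1, m) = l C(l+m-1, m-1)`); the case `l = 0` is
separate: both sides are `0`. -/
theorem hh_newton (m l : ℕ) :
    (m : ℤ) * hh m l = (l : ℤ) * ∑ i ∈ Finset.range m, hh ((m - 1 - i : ℕ) : ℤ) l := by
  cases m with
  | zero => simp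
  | succ n =>
    cases l with
    | zero =>
      rw [s2_hh, Nat.choose_eq_zero_of_lt (by omega)]
      simp
    | succ L =>
      have h1 : ∑ i ∈ Finset.range (n + 1), hh ((n + 1 - 1 - i : ℕ) : ℤ) (L + 1) =
          ∑ i ∈ Finset.range (n + 1), hh ((i : ℕ) : ℤ) (L + 1) :=
        Finset.sum_range_reflect (fun i => hh ((i : ℕ) : ℤ) (L + 1)) (n + 1)
      have h2 : ∑ i ∈ Finset.range (n + 1), hh ((i : ℕ) : ℤ) (L + 1) = (((L + n + 1).choose n : ℕ) : ℤ) := by
        rw [← s2_hockey, Nat.cast_sum]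
        apply Finset.sum_congr rfl
        intro i _
        rw [s2_hh, show L + 1 + i - 1 = L + i by omega]
      rw [h1, h2, s2_hh, show L + 1 + (n + 1) - 1 = L + n + 1 by omega]
      have h3 := Nat.choose_succ_right_eq (L + n + 1) n
      rw [show L + n + 1 - n = L + 1 by omega] at h3
      have h4 : (((L + n + 1).choose (n + 1) * (n + 1) : ℕ) : ℤ) = (((L + n + 1).choose n * (L + 1) : ℕ) : ℤ) := by
        rw [h3]
      push_cast at h4 ⊢
      linarith

/-- Over a field of characteristic zero, `hR m (1, …, 1) = hh m l`: strong induction on `m` with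
`newtonR` (all power sums are `l`) and `hh_newton`. -/
theorem hR_one (m l : ℕ) : hR m (fun _ : Fin l => (1 : ℝ)) = (hh m l : ℝ) := by
  induction m using Nat.strong_induction_on with
  | _ m ih =>
    rcases Nat.eq_zero_or_pos m with rfl | hm
    · rw [hR_zero, s2_hh]
      simp
    · have h1 := newtonR m (fun _ : Fin l => (1 : ℝ))
      have h2 : ∑ i ∈ Finset.range m, pR (i + 1) (fun _ : Fin l => (1 : ℝ)) * hR (m - 1 - i) (fun _ : Fin l => (1 : ℝ)) =
          ((((l : ℤ) * ∑ i ∈ Finset.range m, hh ((m - 1 - i : ℕ) : ℤ) l : ℤ)) : ℝ) := by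
        push_cast
        rw [Finset.mul_sum]
        apply Finset.sum_congr rfl
        intro i hi
        rw [Finset.mem_range] at hi
        rw [ih (m - 1 - i) (by omega)]
        congr 1
        unfold pR
        simp
      rw [h2, ← hh_newton] at h1
      push_cast at h1
      have hm' : (m : ℝ) ≠ 0 := by exact_mod_cast hm.ne'
      exact mul_left_cancel₀ hm' h1

/-- The constant coefficient is a ring homomorphism and `EE z` has constant coefficient `1`
(`map_sum`, `map_prod`), so this is `hR_one`. -/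
theorem coeff_zero_hR_EE (m : ℕ) {l : ℕ} (x : Fin l → ℝ) :
    PowerSeries.coeff 0 (hR m fun i => EE (x i)) = (hh m l : ℝ) := by
  rw [← hR_one, PowerSeries.coeff_zero_eq_constantCoeff_apply]
  unfold hR
  rw [map_sum]
  apply Finset.sum_congr rfl
  intro r _
  rw [map_prod]
  apply Finset.prod_congr rfl
  intro i _
  rw [← PowerSeries.coeff_zero_eq_constantCoeff_apply, coeff_EE]
  simp

/-- The numbers `DD k m l` satisfy Newton's recursion
`m DD_m = ∑_(j = 1)^m (j ^ k h_(m-j) + l DD_(m-j))`. Proof: by `hh_newton`,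
`∑_(j=1)^m l DD_(m-j) = ∑_(i=1)^(m-1) i ^ (k-1) ∑_(j=1)^(m-i) l h_(m-i-j) =
∑_i i ^ (k-1) (m-i) h_(m-i)` (exchange of the order of summation), and
`j ^ k = j ^ (k-1) j`. -/
theorem DD_newton (k m l : ℕ) (hk : 1 ≤ k) :
    (m : ℤ) * DD k m l = ∑ j ∈ Finset.Icc 1 m,
      ((j : ℤ) ^ k * hh ((m - j : ℕ) : ℤ) l + (l : ℤ) * DD k (m - j) l) := by
  have hsub : ∀ n : ℕ, ∀ j ∈ Finset.Icc 1 n, (((n - j : ℕ)) : ℤ) = (n : ℤ) - j := by
    intro n j hj
    rw [Finset.mem_Icc] at hj
    push_cast [hj.2]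
    ring
  have hN : ∀ n : ℕ, (l : ℤ) * ∑ j ∈ Finset.Icc 1 n, hh ((n : ℤ) - j) l = n * hh n l := by
    intro n
    rw [hh_newton]
    congr 1
    have h1 : Finset.Icc 1 n = Finset.Ico 1 (n + 1) := by
      ext t
      rw [Finset.mem_Icc, Finset.mem_Ico]
      omega
    rw [h1, Finset.sum_Ico_eq_sum_range, Nat.add_sub_cancel]
    apply Finset.sum_congr rfl
    intro i hi
    rw [Finset.mem_range] at hi
    congr 1
    push_cast
    omega
  have h1 : ∑ j ∈ Finset.Icc 1 m, (l : ℤ) * DD k (m - j) l =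
      ∑ i ∈ Finset.Icc 1 m, (i : ℤ) ^ (k - 1) * (((m - i : ℕ) : ℤ) * hh ((m - i : ℕ) : ℤ) l) := by
    unfold DD
    have e1 : ∀ j ∈ Finset.Icc 1 m, (l : ℤ) * ∑ i ∈ Finset.Icc 1 (m - j), (i : ℤ) ^ (k - 1) * hh (((m - j : ℕ) : ℤ) - i) l =
        ∑ i ∈ Finset.Icc 1 (m - j), (i : ℤ) ^ (k - 1) * ((l : ℤ) * hh (((m - i : ℕ) : ℤ) - j) l) := by
      intro j hj
      rw [Finset.mul_sum]
      apply Finset.sum_congr rfl
      intro i hi
      rw [Finset.mem_Icc] at hi hj
      have e2 : (((m - j : ℕ)) : ℤ) - i = (((m - i : ℕ)) : ℤ) - j := by omega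
      rw [e2]
      ring
    rw [Finset.sum_congr rfl e1]
    rw [Finset.sum_comm' (t' := Finset.Icc 1 m) (s' := fun i => Finset.Icc 1 (m - i)) (by
      intro j i
      simp only [Finset.mem_Icc]
      omega)]
    apply Finset.sum_congr rfl
    intro i _
    rw [← Finset.mul_sum, ← Finset.mul_sum, hN]
  rw [Finset.sum_add_distrib, h1, ← Finset.sum_add_distrib]
  unfold DD
  rw [Finset.mul_sum]
  apply Finset.sum_congr rfl
  intro j hj
  rw [hsub m j hj]
  obtain ⟨k', rfl⟩ : ∃ k', k = k' + 1 := ⟨k - 1, by omega⟩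
  rw [Nat.add_sub_cancel, pow_succ]
  ring

end Pool.Agent.Lib.H70S
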