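import Pool.Agent.Lib.H70S.S2

/-! # Chunk S3 (M): the first coefficient in which two complete symmetric series differ -/

namespace Pool.Agent.Lib.H70S

open Pool.Agent.SchurTwoRow

/-- Products of two pairs of power series which agree below degree `k ≥ 1`
(`PowerSeries.coeff_mul`: in the sum over the antidiagonal of `k` only the two extreme terms
differ). -/
theorem coeff_mul_sub {A A' B B' : PowerSeries ℝ} {k : ℕ} (hk : 1 ≤ k)
    (hA : ∀ n < k, PowerSeries.coeff n A = PowerSeries.coeff n A')
    (hB : ∀ n < k, PowerSeries.coeff n B = PowerSeries.coeff n B') :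
    (∀ n < k, PowerSeries.coeff n (A * B) = PowerSeries.coeff n (A' * B')) ∧
      PowerSeries.coeff k (A * B) - PowerSeries.coeff k (A' * B') =
        (PowerSeries.coeff k A - PowerSeries.coeff k A') * PowerSeries.coeff 0 B +
        PowerSeries.coeff 0 A * (PowerSeries.coeff k B - PowerSeries.coeff k B') := by
  constructor
  · intro n hn
    rw [PowerSeries.coeff_mul, PowerSeries.coeff_mul]
    refine Finset.sum_congr rfl fun p hp => ?_
    rw [Finset.HasAntidiagonal.mem_antidiagonal] at hp
    rw [hA p.1 (by omega), hB p.2 (by omega)]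
  · rw [PowerSeries.coeff_mul, PowerSeries.coeff_mul, ← Finset.sum_sub_distrib]
    have h1 : ∀ p ∈ Finset.HasAntidiagonal.antidiagonal k,
        PowerSeries.coeff p.1 A * PowerSeries.coeff p.2 B -
          PowerSeries.coeff p.1 A' * PowerSeries.coeff p.2 B' =
        (if p = (k, 0) then (PowerSeries.coeff k A - PowerSeries.coeff k A') *
          PowerSeries.coeff 0 B else 0) +
        (if p = (0, k) then PowerSeries.coeff 0 A *
          (PowerSeries.coeff k B - PowerSeries.coeff k B') else 0) := by
      rintro ⟨i, j⟩ hp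
      rw [Finset.HasAntidiagonal.mem_antidiagonal] at hp
      by_cases hi : i = k
      · have hj : j = 0 := by simp only at hp; omega
        subst hi hj
        have h2 : ((i, 0) : ℕ × ℕ) ≠ (0, i) := by
          intro h
          rw [Prod.mk.injEq] at h
          omega
        rw [if_pos rfl, if_neg h2, add_zero, hB 0 (by omega)]
        ring
      · by_cases hj : j = k
        · have hi0 : i = 0 := by simp only at hp; omega
          subst hi0 hj
          have h2 : ((0, j) : ℕ × ℕ) ≠ (j, 0) := by
            intro h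
            rw [Prod.mk.injEq] at h
            omega
          rw [if_pos rfl, if_neg h2, zero_add, hA 0 (by omega)]
          ring
        · have h2 : ((i, j) : ℕ × ℕ) ≠ (k, 0) := by
            intro h
            rw [Prod.mk.injEq] at h
            omega
          have h3 : ((i, j) : ℕ × ℕ) ≠ (0, k) := by
            intro h
            rw [Prod.mk.injEq] at h
            omega
          simp only at hp
          rw [if_neg h2, if_neg h3]
          simp only
          rw [hA i (by omega), hB j (by omega)]
          ring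
    rw [Finset.sum_congr rfl h1, Finset.sum_add_distrib, Finset.sum_ite_eq', Finset.sum_ite_eq',
      if_pos (by simp), if_pos (by simp)]

theorem s3_sum (m : ℕ) (f : ℕ → ℝ) :
    ∑ j ∈ Finset.Icc 1 m, f j = ∑ i ∈ Finset.range m, f (i + 1) := by
  induction m with
  | zero => simp
  | succ m ih => rw [Finset.sum_Icc_succ_top (by omega), Finset.sum_range_succ, ih]

theorem s3_coeff (m n : ℕ) {l : ℕ} (x : Fin l → ℝ) :
    (m : ℝ) * PowerSeries.coeff n (hR m fun i => EE (x i)) =
      ∑ i ∈ Finset.range m, PowerSeries.coeff n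
        (pR (i + 1) (fun i => EE (x i)) * hR (m - 1 - i) (fun i => EE (x i))) := by
  have h1 := congrArg (PowerSeries.coeff n) (newtonR m fun i => EE (x i))
  rw [map_sum, ← nsmul_eq_mul, map_nsmul, nsmul_eq_mul] at h1
  exact h1

/-- Let `x`, `y` have the same power sums of degree `< k` (`k ≥ 1`). Strong induction on `m` with
Newton's identity `newtonR` (compare the coefficients of `X ^ n`, `n ≤ k`, of both sides;
`coeff_pR_EE`, `coeff_zero_hR_EE`, `coeff_mul_sub`): the coefficient of `X ^ k` of
`pR j` differs by `j ^ k δ`, `δ = (∑ x ^ k - ∑ y ^ k) / k!`, its constant coefficient is `l`, so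
`m (difference of h_m) = ∑_(j=1)^m (j ^ k δ h_(m-j) + l (difference of h_(m-j)))`, and
`DD_newton` says that `δ DD k m l` satisfies the same recursion. -/
theorem coeff_hR_sub {l : ℕ} (x y : Fin l → ℝ) (k : ℕ) (hk : 1 ≤ k)
    (h : ∀ n < k, ∑ i, x i ^ n = ∑ i, y i ^ n) (m : ℕ) :
    (∀ n < k, PowerSeries.coeff n (hR m fun i => EE (x i)) =
      PowerSeries.coeff n (hR m fun i => EE (y i))) ∧
    PowerSeries.coeff k (hR m fun i => EE (x i)) -
      PowerSeries.coeff k (hR m fun i => EE (y i)) =
      ((∑ i, x i ^ k - ∑ i, y i ^ k) / (k.factorial : ℝ)) * (DD k m l : ℝ) := by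
  induction m using Nat.strong_induction_on with
  | _ m ih =>
    obtain ⟨δ, hδ⟩ : ∃ δ, δ = (∑ i, x i ^ k - ∑ i, y i ^ k) / (k.factorial : ℝ) := ⟨_, rfl⟩
    rw [← hδ]
    rw [← hδ] at ih
    rcases Nat.eq_zero_or_pos m with hm | hm
    · subst hm
      rw [hR_zero, hR_zero]
      refine ⟨fun n _ => rfl, ?_⟩
      simp [DD]
    have hm0 : (m : ℝ) ≠ 0 := by exact_mod_cast hm.ne'
    have hP : ∀ j, ∀ n < k, PowerSeries.coeff n (pR j fun i => EE (x i)) =
        PowerSeries.coeff n (pR j fun i => EE (y i)) := by
      intro j n hn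
      rw [coeff_pR_EE, coeff_pR_EE, h n hn]
    have hlt : ∀ i ∈ Finset.range m, m - 1 - i < m := fun i _ => by omega
    constructor
    · intro n hn
      apply mul_left_cancel₀ hm0
      rw [s3_coeff, s3_coeff]
      refine Finset.sum_congr rfl fun i hi => ?_
      exact (coeff_mul_sub hk (hP (i + 1)) (ih _ (hlt i hi)).1).1 n hn
    · apply mul_left_cancel₀ hm0
      have h1 : (m : ℝ) * (DD k m l : ℝ) = ∑ i ∈ Finset.range m,
          (((i + 1 : ℕ) : ℝ) ^ k * (hh ((m - 1 - i : ℕ) : ℤ) l : ℝ) +
            (l : ℝ) * (DD k (m - 1 - i) l : ℝ)) := by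
        have h2 := congrArg (Int.cast : ℤ → ℝ) (DD_newton k m l hk)
        push_cast at h2
        rw [h2, s3_sum m (fun j => (j : ℝ) ^ k * (hh ((m - j : ℕ) : ℤ) l : ℝ) +
            (l : ℝ) * (DD k (m - j) l : ℝ))]
        refine Finset.sum_congr rfl fun i _ => ?_
        have h3 : m - (i + 1) = m - 1 - i := by omega
        rw [h3]
      rw [mul_sub, s3_coeff, s3_coeff, ← Finset.sum_sub_distrib]
      have h4 : ∀ i ∈ Finset.range m, PowerSeries.coeff k
            (pR (i + 1) (fun i => EE (x i)) * hR (m - 1 - i) (fun i => EE (x i))) -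
          PowerSeries.coeff k
            (pR (i + 1) (fun i => EE (y i)) * hR (m - 1 - i) (fun i => EE (y i))) =
          δ * (((i + 1 : ℕ) : ℝ) ^ k * (hh ((m - 1 - i : ℕ) : ℤ) l : ℝ) +
            (l : ℝ) * (DD k (m - 1 - i) l : ℝ)) := by
        intro i hi
        rw [(coeff_mul_sub hk (hP (i + 1)) (ih _ (hlt i hi)).1).2, (ih _ (hlt i hi)).2,
          coeff_zero_hR_EE, coeff_pR_EE, coeff_pR_EE, coeff_pR_EE, hδ]
        simp only [pow_zero, Nat.factorial_zero, Nat.cast_one, Finset.sum_const, Finset.card_univ,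
          Fintype.card_fin, nsmul_eq_mul, mul_one, div_one, one_mul]
        ring
      rw [Finset.sum_congr rfl h4, ← Finset.mul_sum, ← h1]
      ring

end Pool.Agent.Lib.H70S
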