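import Pool.Agent.Lib.H70S.S3
import Pool.Agent.Lib.H70S.J3

/-! # Chunk S4 (S/M): the coefficient of `p_k` in the `k`-th moment -/

namespace Pool.Agent.Lib.H70S

open Pool.Agent.SchurTwoRow

theorem s4_ext (k l : ℕ) {m n : ℕ} (h : m ≤ n) :
    ∑ j ∈ Finset.Icc 1 n, (j : ℤ) ^ (k - 1) * hh ((m : ℤ) - j) l = DD k m l := by
  unfold DD
  symm
  refine Finset.sum_subset (Finset.Icc_subset_Icc_right h) fun j hj hj' => ?_
  rw [Finset.mem_Icc] at hj hj'
  have h1 : m < j := by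
    by_contra hcon
    exact hj' ⟨hj.1, not_lt.1 hcon⟩
  have h2 : (m : ℤ) - j < 0 := by
    have : (m : ℤ) < j := by exact_mod_cast h1
    linarith
  rw [hh, if_pos h2, mul_zero]

/-- `AA a b k l = D_a h_b + h_a D_b - D_(a+1) h_(b-1) - h_(a+1) D_(b-1)`: in the definition of
`AA` the terms with a negative index vanish (`hh` is `0` there), so each of the four sums over
`1 ≤ j ≤ a + 1` is one of the sums `DD` (`b ≤ a`, and `hh (b - 1) l` is `hh ((b-1 : ℕ)) l`). -/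
theorem AA_eq {a b : ℕ} (hb : 1 ≤ b) (hab : b ≤ a) (k l : ℕ) :
    AA a b k l = DD k a l * hh b l + hh a l * DD k b l -
      DD k (a + 1) l * hh ((b - 1 : ℕ) : ℤ) l - hh ((a + 1 : ℕ) : ℤ) l * DD k (b - 1) l := by
  rw [← s4_ext k l (m := a) (n := a + 1) (by omega), ← s4_ext k l (m := b) (n := a + 1) (by omega),
    ← s4_ext k l (m := a + 1) (n := a + 1) le_rfl,
    ← s4_ext k l (m := b - 1) (n := a + 1) (by omega)]
  unfold AA coef
  rw [Finset.sum_mul, Finset.mul_sum, Finset.sum_mul, Finset.mul_sum, ← Finset.sum_add_distrib,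
    ← Finset.sum_sub_distrib, ← Finset.sum_sub_distrib]
  refine Finset.sum_congr rfl fun j _ => ?_
  have h1 : ((b - 1 : ℕ) : ℤ) = (b : ℤ) - 1 := by push_cast [Nat.cast_sub hb]; ring
  have h2 : ((a + 1 : ℕ) : ℤ) = (a : ℤ) + 1 := by push_cast; ring
  rw [h1, h2]
  ring

/-- From `jacobi_trudi`, `coeff_hR_sub`, `coeff_mul_sub` and `coeff_zero_hR_EE`: the coefficients
of `X ^ k` of the two Schur series differ by `δ * AA a b k l`, `δ = (∑ x ^ k - ∑ y ^ k) / k!`. -/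
theorem AA_mul_eq_zero {a b : ℕ} (hb : 1 ≤ b) (hab : b ≤ a) {l : ℕ} (x y : Fin l → ℝ)
    (hS : sR a b (fun i => EE (x i)) = sR a b (fun i => EE (y i))) (k : ℕ) (hk : 1 ≤ k)
    (h : ∀ n < k, ∑ i, x i ^ n = ∑ i, y i ^ n) :
    (AA a b k l : ℝ) * (∑ i, x i ^ k - ∑ i, y i ^ k) = 0 := by
  obtain ⟨δ, hδ⟩ : ∃ δ, δ = (∑ i, x i ^ k - ∑ i, y i ^ k) / (k.factorial : ℝ) := ⟨_, rfl⟩
  have hA := fun m => coeff_hR_sub x y k hk h m
  rw [← hδ] at hA
  rw [jacobi_trudi hb hab, jacobi_trudi hb hab] at hS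
  have h0 := congrArg (PowerSeries.coeff k) hS
  rw [map_sub, map_sub] at h0
  have h1 := (coeff_mul_sub hk (hA a).1 (hA b).1).2
  have h2 := (coeff_mul_sub hk (hA (a + 1)).1 (hA (b - 1)).1).2
  rw [(hA a).2, (hA b).2, coeff_zero_hR_EE, coeff_zero_hR_EE] at h1
  rw [(hA (a + 1)).2, (hA (b - 1)).2, coeff_zero_hR_EE, coeff_zero_hR_EE] at h2
  have h3 : (AA a b k l : ℝ) * δ = 0 := by
    rw [AA_eq hb hab k l]
    push_cast
    push_cast at h1 h2
    linear_combination h0 - h1 + h2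
  have h4 : (k.factorial : ℝ) ≠ 0 := by exact_mod_cast k.factorial_ne_zero
  have h5 : ∑ i, x i ^ k - ∑ i, y i ^ k = δ * (k.factorial : ℝ) := by
    rw [hδ, div_mul_cancel₀ _ h4]
  rw [h5, ← mul_assoc, h3, zero_mul]

end Pool.Agent.Lib.H70S
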