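import Pool.Agent.Lib.H70S.S4

/-! # Chunk S5 (S/M): the case `k = 1` -/

namespace Pool.Agent.Lib.H70S

open Pool.Agent.SchurTwoRow

theorem s5_DD (m l : ℕ) : (l : ℤ) * DD 1 m l = (m : ℤ) * hh m l := by
  rw [hh_newton]
  congr 1
  unfold DD
  have key : ∀ (n : ℕ) (f : ℕ → ℤ), ∑ j ∈ Finset.Icc 1 n, f j = ∑ i ∈ Finset.range n, f (i + 1) := by
    intro n f
    induction n with
    | zero => simp
    | succ n ih => rw [Finset.sum_Icc_succ_top (by omega), Finset.sum_range_succ, ih]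
  rw [key]
  refine Finset.sum_congr rfl fun i hi => ?_
  rw [Finset.mem_range] at hi
  have h1 : (m : ℤ) - ((i + 1 : ℕ) : ℤ) = ((m - 1 - i : ℕ) : ℤ) := by omega
  rw [h1, Nat.sub_self, pow_zero, one_mul]

theorem s5_pos {a b l : ℕ} (hb : 1 ≤ b) (hab : b ≤ a) (hl : 2 ≤ l) :
    0 < hh a l * hh b l - hh ((a + 1 : ℕ) : ℤ) l * hh ((b - 1 : ℕ) : ℤ) l := by
  obtain ⟨l, rfl⟩ : ∃ l', l = l' + 2 := ⟨l - 2, by omega⟩
  have h1 := jacobi_trudi hb hab (fun _ : Fin (l + 2) => (1 : ℝ))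
  rw [hR_one, hR_one, hR_one, hR_one] at h1
  have h2 : sR a b (fun _ : Fin (l + 2) => (1 : ℝ)) = ((tableaux a b (l + 2)).card : ℝ) := by
    unfold sR
    simp
  have h3 : 0 < (tableaux a b (l + 2)).card := by
    rw [Finset.card_pos]
    refine ⟨(fun _ => 0, fun _ => 1), ?_⟩
    rw [mem_tableaux]
    refine ⟨fun _ _ _ => le_rfl, fun _ _ _ => le_rfl, fun _ _ _ => ?_⟩
    exact Fin.zero_lt_one
  rw [h2] at h1
  have h4 : (0 : ℝ) < ((tableaux a b (l + 2)).card : ℝ) := by exact_mod_cast h3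
  rw [h1] at h4
  exact_mod_cast h4

/-- By `hh_newton`, `l * DD 1 m l = m * hh m l`, so by `AA_eq`
`l * AA a b 1 l = (a + b) * (h_a h_b - h_(a+1) h_(b-1))` at `l` ones, and the last factor is the
number of tableaux (`jacobi_trudi` and `hR_one` at `u = 1`), which is positive for `l ≥ 2`
(the tableau with first row `0` and second row `1`). -/
theorem AA_one_pos {a b : ℕ} (hb : 1 ≤ b) (hab : b ≤ a) {l : ℕ} (hl : 2 ≤ l) :
    0 < AA a b 1 l := by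
  have h1 := AA_eq hb hab 1 l
  have h2 := s5_DD a l
  have h3 := s5_DD b l
  have h4 := s5_DD (a + 1) l
  have h5 := s5_DD (b - 1) l
  have h6 := s5_pos hb hab hl
  have h7 : (l : ℤ) * AA a b 1 l = ((a : ℤ) + b) *
      (hh a l * hh b l - hh ((a + 1 : ℕ) : ℤ) l * hh ((b - 1 : ℕ) : ℤ) l) := by
    have h8 : ((b - 1 : ℕ) : ℤ) = (b : ℤ) - 1 := by omega
    have h9 : ((a + 1 : ℕ) : ℤ) = (a : ℤ) + 1 := by push_cast; ring
    rw [h1]
    have e1 : (l : ℤ) * (DD 1 a l * hh b l + hh a l * DD 1 b l -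
        DD 1 (a + 1) l * hh ((b - 1 : ℕ) : ℤ) l - hh ((a + 1 : ℕ) : ℤ) l * DD 1 (b - 1) l) =
        (l * DD 1 a l) * hh b l + hh a l * (l * DD 1 b l) -
        (l * DD 1 (a + 1) l) * hh ((b - 1 : ℕ) : ℤ) l -
        hh ((a + 1 : ℕ) : ℤ) l * (l * DD 1 (b - 1) l) := by ring
    rw [e1, h2, h3, h4, h5]
    have e2 : (((b - 1 : ℕ) : ℤ)) * hh ((b - 1 : ℕ) : ℤ) l =
      ((b : ℤ) - 1) * hh ((b - 1 : ℕ) : ℤ) l := by rw [h8]
    have e3 : (((a + 1 : ℕ) : ℤ)) * hh ((a + 1 : ℕ) : ℤ) l =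
      ((a : ℤ) + 1) * hh ((a + 1 : ℕ) : ℤ) l := by rw [h9]
    rw [e2, e3]
    ring
  have h8 : (0 : ℤ) < l := by omega
  have h9 : (0 : ℤ) < (l : ℤ) * AA a b 1 l := by
    rw [h7]
    exact mul_pos (by omega) h6
  by_contra hcon
  have h10 := mul_nonpos_of_nonneg_of_nonpos h8.le (not_lt.1 hcon)
  linarith

end Pool.Agent.Lib.H70S
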