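import Pool.Agent.Lib.H70S.JDefs

/-!
# Exponential series
-/

namespace Pool.Agent.Lib.H70S

open Pool.Agent.SchurTwoRow

/-- The power series `exp (z X)`. -/
noncomputable def EE (z : ℝ) : PowerSeries ℝ := PowerSeries.mk fun n => z ^ n / (n.factorial : ℝ)

theorem coeff_EE (z : ℝ) (n : ℕ) : PowerSeries.coeff n (EE z) = z ^ n / (n.factorial : ℝ) := by
  simp [EE]

/-- `∑_(j = 1)^m j ^ (k - 1) h_(m-j)` at `l` ones. -/
def DD (k m l : ℕ) : ℤ := ∑ j ∈ Finset.Icc 1 m, (j : ℤ) ^ (k - 1) * hh ((m : ℤ) - j) l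

end Pool.Agent.Lib.H70S
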