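import Pool.Agent.Lib.H70S.V1

/-! # Chunk V2 (M): a common smallest element -/

namespace Pool.Agent.Lib.H70S

open Pool.Agent.SchurTwoRow

/-- A multiset as a nonincreasing function. -/
theorem v2_sorted (M : Multiset ℕ) {l : ℕ} (h : Multiset.card M = l) :
    ∃ x : Fin l → ℕ, (∀ i j, i ≤ j → x j ≤ x i) ∧ (Finset.univ.val.map x) = M := by
  have hl : (M.sort (fun x y => y ≤ x)).length = l := by rw [v1_length, h]
  subst hl
  refine ⟨(M.sort (fun x y => y ≤ x)).get, ?_, ?_⟩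
  · intro i j hij
    rcases eq_or_lt_of_le hij with h1 | h1
    · rw [h1]
    · have h2 : (M.sort (fun x y => y ≤ x)).Pairwise (fun x y => y ≤ x) := Multiset.pairwise_sort _ _
      exact List.pairwise_iff_get.1 h2 i j h1
  · rw [v1_map_get, Multiset.sort_eq]

/-- `eq_of_last` (in `SchurTwoRow/Bottom.lean`) for multisets: take the sorted functions (as in
`PRS`), which have the same length by `card_eq_of_PRS`; their last entries are the smallest
elements. (`a = b' + 1 + c`, `b = b' + 1`.) -/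
theorem eq_of_min {a b : ℕ} (hb : 1 ≤ b) (hab : b ≤ a) {M N : Multiset ℕ}
    (hM0 : ∀ x ∈ M, 0 < x) (hN0 : ∀ x ∈ N, 0 < x) (hM : 2 ≤ Multiset.card M)
    (hN : 2 ≤ Multiset.card N) (h : PRS a b M = PRS a b N) {s : ℕ} (hsM : s ∈ M) (hsN : s ∈ N)
    (hminM : ∀ x ∈ M, s ≤ x) (hminN : ∀ x ∈ N, s ≤ x) : M = N := by
  have hc := card_eq_of_PRS hb hM hN h
  obtain ⟨k, hk⟩ : ∃ k, Multiset.card M = k + 2 := ⟨Multiset.card M - 2, by omega⟩
  obtain ⟨x, hx, hxM⟩ := v2_sorted M hk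
  obtain ⟨y, hy, hyN⟩ := v2_sorted N (hc.symm.trans hk)
  have hxm : ∀ i, x i ∈ M := fun i => by
    rw [← hxM]; exact Multiset.mem_map_of_mem _ (Finset.mem_univ_val i)
  have hym : ∀ i, y i ∈ N := fun i => by
    rw [← hyN]; exact Multiset.mem_map_of_mem _ (Finset.mem_univ_val i)
  have hlast : ∀ {z : Fin (k + 2) → ℕ} {L : Multiset ℕ}, (∀ i j, i ≤ j → z j ≤ z i) →
      (Finset.univ.val.map z) = L → (∀ i, z i ∈ L) → s ∈ L → (∀ x ∈ L, s ≤ x) →
      z (Fin.last (k + 1)) = s := by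
    intro z L hz hzL hzm hsL hmin
    rw [← hzL, Multiset.mem_map] at hsL
    obtain ⟨i, _, hi⟩ := hsL
    exact le_antisymm (hi ▸ hz _ _ (Fin.le_last i)) (hmin _ (hzm _))
  obtain ⟨b, rfl⟩ : ∃ b', b = b' + 1 := ⟨b - 1, by omega⟩
  obtain ⟨c, rfl⟩ : ∃ c, a = b + 1 + c := ⟨a - (b + 1), by omega⟩
  have e1 : PRS (b + 1 + c) (b + 1) M = prsFun (b + 1 + c) (b + 1) x := by
    conv_lhs => rw [← hxM]
    exact PRS_map hb hab fun i => hM0 _ (hxm i)
  have e2 : PRS (b + 1 + c) (b + 1) N = prsFun (b + 1 + c) (b + 1) y := by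
    conv_lhs => rw [← hyN]
    exact PRS_map hb hab fun i => hN0 _ (hym i)
  rw [e1, e2] at h
  have h3 := eq_of_last hx hy (fun i => hM0 _ (hxm i)) (fun i => hN0 _ (hym i)) h
    ((hlast hx hxM hxm hsM hminM).trans (hlast hy hyN hym hsN hminN).symm)
  rw [← hxM, ← hyN, h3]

end Pool.Agent.Lib.H70S
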