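import Pool.Agent.Lib.H70S.V1

/-! # Chunk V3 (M): faces -/

namespace Pool.Agent.Lib.H70S

open Pool.Agent.SchurTwoRow

theorem v3_weight_prod {w : ℕ → ℤ} (hw : ∀ x y, 0 < x → 0 < y → w (x * y) = w x + w y)
    {ι : Type} (s : Finset ι) (f : ι → ℕ) (hf : ∀ i ∈ s, 0 < f i) :
    w (∏ i ∈ s, f i) = ∑ i ∈ s, w (f i) := by
  classical
  induction s using Finset.induction_on with
  | empty =>
    have h1 := hw 1 1 one_pos one_pos
    rw [mul_one] at h1
    rw [Finset.prod_empty, Finset.sum_empty]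
    omega
  | insert i s hi ih =>
    rw [Finset.prod_insert hi, Finset.sum_insert hi,
      hw _ _ (hf i (Finset.mem_insert_self i s))
        (Finset.prod_pos fun j hj => hf j (Finset.mem_insert_of_mem hj)),
      ih fun j hj => hf j (Finset.mem_insert_of_mem hj)]

theorem v3_wt {w : ℕ → ℤ} (hw : ∀ x y, 0 < x → 0 < y → w (x * y) = w x + w y)
    {a b l : ℕ} {x : Fin l → ℕ} (hx : ∀ i, 0 < x i) (T : (Fin a → Fin l) × (Fin b → Fin l)) :
    w (wt x T) = (∑ i, w (x (T.1 i))) + ∑ j, w (x (T.2 j)) := by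
  unfold wt
  rw [hw _ _ (Finset.prod_pos fun i _ => hx _) (Finset.prod_pos fun i _ => hx _),
    v3_weight_prod hw _ _ fun i _ => hx _, v3_weight_prod hw _ _ fun i _ => hx _]

theorem v3_wt_eq_iff {w : ℕ → ℤ} (hw : ∀ x y, 0 < x → 0 < y → w (x * y) = w x + w y) {c : ℤ}
    {a b l : ℕ} {x : Fin l → ℕ} (hx : ∀ i, 0 < x i) (hc : ∀ i, c ≤ w (x i))
    (T : (Fin a → Fin l) × (Fin b → Fin l)) :
    w (wt x T) = (a + b) * c ↔ (∀ i, w (x (T.1 i)) = c) ∧ ∀ j, w (x (T.2 j)) = c := by
  have e1 : ∀ {n : ℕ} (r : Fin n → Fin l), ∑ i, (w (x (r i)) - c) = (∑ i, w (x (r i))) - n * c := by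
    intro n r
    rw [Finset.sum_sub_distrib, Finset.sum_const, Finset.card_univ, Fintype.card_fin, nsmul_eq_mul]
  have e2 : ∀ {n : ℕ} (r : Fin n → Fin l), 0 ≤ ∑ i, (w (x (r i)) - c) := fun r =>
    Finset.sum_nonneg fun i _ => by have := hc (r i); omega
  have e3 : ∀ {n : ℕ} (r : Fin n → Fin l), ∑ i, (w (x (r i)) - c) = 0 → ∀ i, w (x (r i)) = c := by
    intro n r h i
    rw [Finset.sum_eq_zero_iff_of_nonneg (fun i _ => by have := hc (r i); omega)] at h
    have := h i (Finset.mem_univ i)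
    omega
  rw [v3_wt hw hx]
  constructor
  · intro h
    have h1 := e1 T.1
    have h2 := e1 T.2
    have h3 := e2 T.1
    have h4 := e2 T.2
    have h5 : (∑ i, (w (x (T.1 i)) - c)) + ∑ j, (w (x (T.2 j)) - c) = 0 := by
      rw [h1, h2]
      linear_combination h
    exact ⟨e3 T.1 (by omega), e3 T.2 (by omega)⟩
  · rintro ⟨h1, h2⟩
    rw [Finset.sum_congr rfl fun i _ => h1 i, Finset.sum_congr rfl fun i _ => h2 i,
      Finset.sum_const, Finset.sum_const, Finset.card_univ, Finset.card_univ, Fintype.card_fin,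
      Fintype.card_fin, nsmul_eq_mul, nsmul_eq_mul]
    ring

/-- Let `w` be additive on products of positive numbers (for example a valuation or its negative)
and `w ≥ c` on `M`. The elements of `PRS a b M` of weight `(a + b) c` are exactly the elements of
`PRS a b E`, `E` the elements of `M` of weight `c`. Proof: by `PRS_map` order the elements of `M`
as a function `x : Fin l → ℕ` whose first `s = card E` values are the elements of `E`
(`M = E + F`, `Fin.append` or `Multiset.map` over `Fin (s + t)`); a tableau has weight `(a+b) c` if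
and only if all its letters are `< s`, and these tableaux are the tableaux on `s` letters
(`Fin.castLE`, as in `card_tableaux_lt`). -/
theorem PRS_face {a b : ℕ} (hb : 1 ≤ b) (hab : b ≤ a) {M : Multiset ℕ} (hM0 : ∀ x ∈ M, 0 < x)
    (w : ℕ → ℤ) (hw : ∀ x y, 0 < x → 0 < y → w (x * y) = w x + w y) (c : ℤ)
    (hc : ∀ x ∈ M, c ≤ w x) :
    (PRS a b M).filter (fun z => w z = (a + b) * c) = PRS a b (M.filter fun x => w x = c) := by
  classical
  obtain ⟨s, hs⟩ : ∃ s, Multiset.card (M.filter fun x => w x = c) = s := ⟨_, rfl⟩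
  obtain ⟨t, ht⟩ : ∃ t, Multiset.card (M.filter fun x => ¬ w x = c) = t := ⟨_, rfl⟩
  obtain ⟨xE, hxE⟩ := v1_exists_fun _ hs
  obtain ⟨xF, hxF⟩ := v1_exists_fun _ ht
  have hEm : ∀ i, xE i ∈ M.filter fun x => w x = c := fun i => by
    rw [← hxE]; exact Multiset.mem_map_of_mem _ (Finset.mem_univ_val i)
  have hFm : ∀ i, xF i ∈ M.filter fun x => ¬ w x = c := fun i => by
    rw [← hxF]; exact Multiset.mem_map_of_mem _ (Finset.mem_univ_val i)
  have hxM : (Finset.univ.val.map (Fin.append xE xF)) = M := by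
    have h1 : ∀ {m n : ℕ} (u : Fin m → ℕ) (v : Fin n → ℕ),
        (Finset.univ.val.map (Fin.append u v)) = (Finset.univ.val.map u) + (Finset.univ.val.map v) := by
      intro m n u v
      have h2 : ∀ (m : ℕ) (w : Fin m → ℕ), (Finset.univ.val.map w) = (List.ofFn w : Multiset ℕ) := by
        intro m w
        rw [Fin.univ_def]
        simp [List.ofFn_eq_map]
      rw [h2, h2, h2, List.ofFn_fin_append, Multiset.coe_add]
    rw [h1, hxE, hxF, Multiset.filter_add_not]
  have hx0 : ∀ i, 0 < Fin.append xE xF i := by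
    intro i
    refine Fin.addCases (fun i => ?_) (fun i => ?_) i
    · rw [Fin.append_left]; exact hM0 _ (Multiset.mem_of_mem_filter (hEm i))
    · rw [Fin.append_right]; exact hM0 _ (Multiset.mem_of_mem_filter (hFm i))
  have hxc : ∀ i, c ≤ w (Fin.append xE xF i) := by
    intro i
    refine Fin.addCases (fun i => ?_) (fun i => ?_) i
    · rw [Fin.append_left]; exact hc _ (Multiset.mem_of_mem_filter (hEm i))
    · rw [Fin.append_right]; exact hc _ (Multiset.mem_of_mem_filter (hFm i))
  have hlt : ∀ i : Fin (s + t), w (Fin.append xE xF i) = c ↔ i.val < s := by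
    intro i
    refine Fin.addCases (fun i => ?_) (fun i => ?_) i
    · rw [Fin.append_left]
      exact ⟨fun _ => i.isLt, fun _ => (Multiset.mem_filter.1 (hEm i)).2⟩
    · rw [Fin.append_right]
      constructor
      · intro h; exact absurd h (Multiset.mem_filter.1 (hFm i)).2
      · intro h
        rw [Fin.val_natAdd] at h
        omega
  have e1 : PRS a b M = prsFun a b (Fin.append xE xF) := by
    conv_lhs => rw [← hxM]
    exact PRS_map hb hab hx0
  have e2 : PRS a b (M.filter fun x => w x = c) = prsFun a b xE := by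
    conv_lhs => rw [← hxE]
    exact PRS_map hb hab fun i => hM0 _ (Multiset.mem_of_mem_filter (hEm i))
  rw [e1, e2, prsFun_eq, prsFun_eq, Multiset.filter_map]
  let emb : ((Fin a → Fin s) × (Fin b → Fin s)) ↪ ((Fin a → Fin (s + t)) × (Fin b → Fin (s + t))) :=
    ⟨fun T => (fun i => Fin.castAdd t (T.1 i), fun j => Fin.castAdd t (T.2 j)), by
      intro T T' h
      have h1 := congrArg Prod.fst h
      have h2 := congrArg Prod.snd h
      refine Prod.ext (funext fun i => ?_) (funext fun i => ?_)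
      · exact Fin.castAdd_injective s t (congrFun h1 i)
      · exact Fin.castAdd_injective s t (congrFun h2 i)⟩
  have hfil : (tableaux a b (s + t)).filter (fun T => w (wt (Fin.append xE xF) T) = (a + b) * c) =
      (tableaux a b s).map emb := by
    ext T
    rw [Finset.mem_filter, Finset.mem_map, v3_wt_eq_iff hw hx0 hxc, mem_tableaux]
    constructor
    · rintro ⟨⟨h1, h2, h3⟩, h4, h5⟩
      refine ⟨(fun i => ⟨(T.1 i).val, (hlt _).1 (h4 i)⟩, fun i => ⟨(T.2 i).val, (hlt _).1 (h5 i)⟩),
        ?_, ?_⟩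
      · rw [mem_tableaux]
        exact ⟨fun i j hij => h1 i j hij, fun i j hij => h2 i j hij, fun i j hij => h3 i j hij⟩
      · refine Prod.ext (funext fun i => ?_) (funext fun i => ?_)
        · rfl
        · rfl
    · rintro ⟨T', hT', rfl⟩
      rw [mem_tableaux] at hT'
      refine ⟨⟨fun i j hij => hT'.1 i j hij, fun i j hij => hT'.2.1 i j hij,
        fun i j hij => hT'.2.2 i j hij⟩, fun i => ?_, fun j => ?_⟩
      · rw [hlt]; exact (T'.1 i).isLt
      · rw [hlt]; exact (T'.2 j).isLt
  have hfil2 := congrArg Finset.val hfil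
  rw [Finset.filter_val, Finset.map_val] at hfil2
  have hfil3 : Multiset.filter ((fun z => w z = (a + b) * c) ∘ wt (Fin.append xE xF))
      (tableaux a b (s + t)).val = (tableaux a b s).val.map emb := hfil2
  rw [hfil3, Multiset.map_map]
  refine Multiset.map_congr rfl fun T _ => ?_
  unfold wt
  show (∏ i, Fin.append xE xF (Fin.castAdd t (T.1 i))) * ∏ j, Fin.append xE xF (Fin.castAdd t (T.2 j)) = _
  simp only [Fin.append_left]

/-- Every element of `PRS a b M` has weight at least `(a + b) c`. -/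
theorem le_weight {a b : ℕ} {M : Multiset ℕ} (hM0 : ∀ x ∈ M, 0 < x)
    (w : ℕ → ℤ) (hw : ∀ x y, 0 < x → 0 < y → w (x * y) = w x + w y) (c : ℤ)
    (hc : ∀ x ∈ M, c ≤ w x) : ∀ z ∈ PRS a b M, (a + b) * c ≤ w z := by
  intro z hz
  obtain ⟨f, hf, rfl⟩ := mem_PRS hz
  rw [v3_weight_prod hw _ _ fun i _ => hM0 _ (hf i)]
  have h1 : ∑ _i : Fin (a + b), c ≤ ∑ i, w (f i) := Finset.sum_le_sum fun i _ => hc _ (hf i)
  rw [Finset.sum_const, Finset.card_univ, Fintype.card_fin, nsmul_eq_mul] at h1
  push_cast at h1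
  exact h1

end Pool.Agent.Lib.H70S
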