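import Pool.Agent.Lib.H70S.V2
import Pool.Agent.Lib.H70S.V3

/-! # Chunk V4 (M): the least valuation -/

namespace Pool.Agent.Lib.H70S

open Pool.Agent.SchurTwoRow

/-- An element of `PRS a b M` of the least possible weight exists if the least valuation is
attained twice. -/
theorem v4_exists {a b : ℕ} (hb : 1 ≤ b) (hab : b ≤ a) {M : Multiset ℕ}
    (hM0 : ∀ x ∈ M, 0 < x) {r : ℕ} (hr : r.Prime) {m : ℕ}
    (hm : ∀ x ∈ M, m ≤ padicValNat r x)
    (h2 : 2 ≤ Multiset.card (M.filter fun x => padicValNat r x = m)) :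
    ∃ z ∈ PRS a b M, padicValNat r z = (a + b) * m := by
  haveI : Fact r.Prime := ⟨hr⟩
  have hw : ∀ x y : ℕ, 0 < x → 0 < y →
      ((padicValNat r (x * y) : ℕ) : ℤ) = (padicValNat r x : ℕ) + (padicValNat r y : ℕ) := by
    intro x y hx hy
    rw [padicValNat.mul hx.ne' hy.ne']
    push_cast
    rfl
  have hf := PRS_face hb hab hM0 (fun x => ((padicValNat r x : ℕ) : ℤ)) hw (m : ℤ)
    (fun x hx => by exact_mod_cast hm x hx)
  have hcongr : M.filter (fun x => ((padicValNat r x : ℕ) : ℤ) = (m : ℤ))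
      = M.filter (fun x => padicValNat r x = m) :=
    Multiset.filter_congr (fun x _ => Nat.cast_inj)
  rw [hcongr] at hf
  have hne : PRS a b (M.filter fun x => padicValNat r x = m) ≠ 0 := PRS_ne_zero h2
  rw [← hf] at hne
  obtain ⟨z, hz⟩ := Multiset.exists_mem_of_ne_zero hne
  rw [Multiset.mem_filter] at hz
  refine ⟨z, hz.1, ?_⟩
  have h3 := hz.2
  exact_mod_cast h3

theorem v4_le {a b : ℕ} {M : Multiset ℕ}
    (hM0 : ∀ x ∈ M, 0 < x) {r : ℕ} (hr : r.Prime) {m : ℕ}
    (hm : ∀ x ∈ M, m ≤ padicValNat r x) : ∀ z ∈ PRS a b M, (a + b) * m ≤ padicValNat r z := by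
  haveI : Fact r.Prime := ⟨hr⟩
  have hw : ∀ x y : ℕ, 0 < x → 0 < y →
      ((padicValNat r (x * y) : ℕ) : ℤ) = (padicValNat r x : ℕ) + (padicValNat r y : ℕ) := by
    intro x y hx hy
    rw [padicValNat.mul hx.ne' hy.ne']
    push_cast
    rfl
  intro z hz
  have h := le_weight hM0 (fun x => ((padicValNat r x : ℕ) : ℤ)) hw (m : ℤ)
    (fun x hx => by exact_mod_cast hm x hx) z hz
  exact_mod_cast h

theorem v4_small {a b : ℕ} (hb : 1 ≤ b) (hab : b ≤ a) {M : Multiset ℕ}
    (hM0 : ∀ x ∈ M, 0 < x) {r : ℕ} (hr : r.Prime) {m : ℕ}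
    (hm : ∀ x ∈ M, m ≤ padicValNat r x)
    (h2 : Multiset.card (M.filter fun x => padicValNat r x = m) < 2) :
    ∀ z ∈ PRS a b M, padicValNat r z ≠ (a + b) * m := by
  haveI : Fact r.Prime := ⟨hr⟩
  have hw : ∀ x y : ℕ, 0 < x → 0 < y →
      ((padicValNat r (x * y) : ℕ) : ℤ) = (padicValNat r x : ℕ) + (padicValNat r y : ℕ) := by
    intro x y hx hy
    rw [padicValNat.mul hx.ne' hy.ne']
    push_cast
    rfl
  have hf := PRS_face hb hab hM0 (fun x => ((padicValNat r x : ℕ) : ℤ)) hw (m : ℤ)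
    (fun x hx => by exact_mod_cast hm x hx)
  have hcongr : M.filter (fun x => ((padicValNat r x : ℕ) : ℤ) = (m : ℤ))
      = M.filter (fun x => padicValNat r x = m) :=
    Multiset.filter_congr (fun x _ => Nat.cast_inj)
  rw [hcongr, PRS_small hb hab h2] at hf
  intro z hz he
  have hmem : z ∈ (PRS a b M).filter
      (fun z => ((padicValNat r z : ℕ) : ℤ) = ((a : ℤ) + b) * (m : ℤ)) := by
    rw [Multiset.mem_filter]
    refine ⟨hz, ?_⟩
    rw [he]
    push_cast
    rfl
  rw [hf] at hmem
  exact Multiset.notMem_zero _ hmem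

/-- Let `r` be a prime, `M`, `N` with equal `PRS` and equal sum, `m` the least valuation on `M`
and `m'` the least valuation on `N`, both attained. If `m` is attained at least twice on `M`, then
`m = m'` and `m'` is attained at least twice on `N`.

Proof (`w = padicValNat r`, additive by `padicValNat.mul`). `PRS a b M` has an element of weight
`(a+b) m` (`PRS_face`, `PRS_ne_zero`), so by `le_weight` for `N`, `(a+b) m' ≤ (a+b) m`, `m' ≤ m`.
If `m'` is attained at least twice on `N`, the same argument gives `m ≤ m'`. Otherwise it is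
attained exactly once, by `y₀`; then no element of `PRS a b N` has weight `(a+b) m'`
(`PRS_face`, `PRS_small`), so `m' < m`, and `r ^ (m'+1)` divides all elements of `M` and all
elements of `N` except `y₀`, so it divides `M.sum = N.sum` and `y₀`, a contradiction. -/
theorem min_valuation {a b : ℕ} (hb : 1 ≤ b) (hab : b ≤ a) {M N : Multiset ℕ}
    (hM0 : ∀ x ∈ M, 0 < x) (hN0 : ∀ x ∈ N, 0 < x) (hN : 2 ≤ Multiset.card N)
    (h : PRS a b M = PRS a b N) (hsum : M.sum = N.sum) {r : ℕ} (hr : r.Prime) {m m' : ℕ}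
    (hm : ∀ x ∈ M, m ≤ padicValNat r x) (hm' : ∀ x ∈ N, m' ≤ padicValNat r x)
    (hN' : ∃ y ∈ N, padicValNat r y = m')
    (h2 : 2 ≤ Multiset.card (M.filter fun x => padicValNat r x = m)) :
    m = m' ∧ 2 ≤ Multiset.card (N.filter fun x => padicValNat r x = m') := by
  haveI : Fact r.Prime := ⟨hr⟩
  have hab0 : 0 < a + b := by omega
  obtain ⟨z, hz, hzv⟩ := v4_exists hb hab hM0 hr hm h2
  have hmm : m' ≤ m := by
    have h1 := v4_le (a := a) (b := b) hN0 hr hm' z (h ▸ hz)
    rw [hzv] at h1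
    exact Nat.le_of_mul_le_mul_left h1 hab0
  by_cases hc : 2 ≤ Multiset.card (N.filter fun x => padicValNat r x = m')
  · refine ⟨le_antisymm ?_ hmm, hc⟩
    obtain ⟨z', hz', hzv'⟩ := v4_exists hb hab hN0 hr hm' hc
    have h1 := v4_le (a := a) (b := b) hM0 hr hm z' (h.symm ▸ hz')
    rw [hzv'] at h1
    exact Nat.le_of_mul_le_mul_left h1 hab0
  · exfalso
    have hne := v4_small hb hab hN0 hr hm' (not_le.mp hc) z (h ▸ hz)
    rw [hzv] at hne
    have hlt : m' < m := lt_of_le_of_ne hmm (fun he => hne (by rw [he]))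
    obtain ⟨y, hy, hyv⟩ := hN'
    -- all other elements of `N` have larger valuation
    have hrest : ∀ x ∈ N.erase y, r ^ (m' + 1) ∣ x := by
      intro x hx
      have hxN : x ∈ N := Multiset.mem_of_mem_erase hx
      have hx0 : x ≠ 0 := (hN0 x hxN).ne'
      rw [padicValNat_dvd_iff_le hx0]
      have h1 := hm' x hxN
      rcases Nat.lt_or_ge m' (padicValNat r x) with h3 | h3
      · exact h3
      · exfalso
        have h4 : padicValNat r x = m' := le_antisymm h3 h1
        apply hc
        have h5 : N = y ::ₘ N.erase y := (Multiset.cons_erase hy).symm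
        rw [h5, Multiset.filter_cons_of_pos (p := fun x => padicValNat r x = m') _ hyv,
          Multiset.card_cons]
        have h6 : x ∈ (N.erase y).filter (fun x => padicValNat r x = m') :=
          Multiset.mem_filter.mpr ⟨hx, h4⟩
        have h7 : 0 < Multiset.card ((N.erase y).filter (fun x => padicValNat r x = m')) :=
          Multiset.card_pos_iff_exists_mem.mpr ⟨x, h6⟩
        omega
    have hM : r ^ (m' + 1) ∣ M.sum := by
      refine Multiset.dvd_sum ?_
      intro x hx
      rw [padicValNat_dvd_iff_le (hM0 x hx).ne']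
      exact le_trans hlt (hm x hx)
    have hNs : N.sum = y + (N.erase y).sum := by
      rw [← Multiset.sum_cons, Multiset.cons_erase hy]
    rw [hsum, hNs, Nat.dvd_add_left (Multiset.dvd_sum hrest)] at hM
    rw [padicValNat_dvd_iff_le (hN0 y hy).ne', hyv] at hM
    omega

end Pool.Agent.Lib.H70S
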