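import Pool.Agent.Lib.H70S.V4

/-! # Chunk V6 (M): the multisets of valuations agree -/

namespace Pool.Agent.Lib.H70S

open Pool.Agent.SchurTwoRow

theorem v6_exists_min {M : Multiset ℕ} (hM : 2 ≤ Multiset.card M) (v : ℕ → ℕ) :
    ∃ x ∈ M, ∀ y ∈ M, v x ≤ v y := by
  have hne : M.toFinset.Nonempty := by
    rw [Multiset.toFinset_nonempty]
    intro h
    rw [h] at hM
    simp at hM
  obtain ⟨x, hx, h⟩ := Finset.exists_min_image M.toFinset v hne
  exact ⟨x, Multiset.mem_toFinset.mp hx, fun y hy => h y (Multiset.mem_toFinset.mpr hy)⟩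

/-- If the least valuation `m` of `M` is attained exactly once, then it is the valuation of the
sum. -/
theorem v6_not_dvd {M : Multiset ℕ} (hM0 : ∀ x ∈ M, 0 < x) {r : ℕ} (hr : r.Prime) {m : ℕ}
    (hm : ∀ x ∈ M, m ≤ padicValNat r x) {x₀ : ℕ} (hx₀ : x₀ ∈ M) (hv : padicValNat r x₀ = m)
    (h1 : ¬ 2 ≤ Multiset.card (M.filter fun x => padicValNat r x = m)) :
    ¬ r ^ (m + 1) ∣ M.sum := by
  haveI := Fact.mk hr
  obtain ⟨M', rfl⟩ := Multiset.exists_cons_of_mem hx₀
  rw [Multiset.filter_cons_of_pos (p := fun x => padicValNat r x = m) _ hv,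
    Multiset.card_cons] at h1
  have h0 : Multiset.card (M'.filter fun x => padicValNat r x = m) = 0 := by omega
  rw [Multiset.card_eq_zero, Multiset.filter_eq_nil] at h0
  have hd : r ^ (m + 1) ∣ M'.sum := by
    apply Multiset.dvd_sum
    intro y hy
    have h2 := hm y (Multiset.mem_cons_of_mem hy)
    have h3 := h0 y hy
    rw [padicValNat_dvd_iff]
    right
    omega
  rw [Multiset.sum_cons]
  intro h
  have h4 : r ^ (m + 1) ∣ x₀ := (Nat.dvd_add_left hd).mp h
  rw [padicValNat_dvd_iff] at h4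
  have h5 := hM0 x₀ (Multiset.mem_cons_self _ _)
  rcases h4 with h4 | h4
  · omega
  · omega

theorem v6_min_eq {a b : ℕ} (hb : 1 ≤ b) (hab : b ≤ a) {M N : Multiset ℕ}
    (hM0 : ∀ x ∈ M, 0 < x) (hN0 : ∀ x ∈ N, 0 < x) (hM : 2 ≤ Multiset.card M)
    (hN : 2 ≤ Multiset.card N) (h : PRS a b M = PRS a b N) (hsum : M.sum = N.sum) {r : ℕ}
    (hr : r.Prime) {m m' : ℕ}
    (hm : ∀ x ∈ M, m ≤ padicValNat r x) (hm' : ∀ x ∈ N, m' ≤ padicValNat r x)
    {x₀ : ℕ} (hx₀ : x₀ ∈ M) (hx₀v : padicValNat r x₀ = m)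
    {y₀ : ℕ} (hy₀ : y₀ ∈ N) (hy₀v : padicValNat r y₀ = m') : m = m' := by
  haveI := Fact.mk hr
  by_cases h2 : 2 ≤ Multiset.card (M.filter fun x => padicValNat r x = m)
  · exact (min_valuation hb hab hM0 hN0 hN h hsum hr hm hm' ⟨y₀, hy₀, hy₀v⟩ h2).1
  by_cases h3 : 2 ≤ Multiset.card (N.filter fun x => padicValNat r x = m')
  · exact (min_valuation hb hab hN0 hM0 hM h.symm hsum.symm hr hm' hm ⟨x₀, hx₀, hx₀v⟩ h3).1.symm
  have h4 := v6_not_dvd hM0 hr hm hx₀ hx₀v h2
  have h5 := v6_not_dvd hN0 hr hm' hy₀ hy₀v h3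
  rcases lt_trichotomy m m' with h6 | h6 | h6
  · exfalso
    apply h4
    rw [hsum]
    apply Multiset.dvd_sum
    intro y hy
    have := hm' y hy
    rw [padicValNat_dvd_iff]
    right
    omega
  · exact h6
  · exfalso
    apply h5
    rw [← hsum]
    apply Multiset.dvd_sum
    intro y hy
    have := hm y hy
    rw [padicValNat_dvd_iff]
    right
    omega

theorem v6_prod {r : ℕ} (hr : r.Prime) {n : ℕ} (f : Fin n → ℕ) (hf : ∀ i, 0 < f i) :
    r ^ padicValNat r (∏ i, f i) = ∏ i, r ^ padicValNat r (f i) := by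
  haveI := Fact.mk hr
  induction n with
  | zero => simp
  | succ n ih =>
    rw [Fin.prod_univ_succ, Fin.prod_univ_succ, padicValNat.mul (hf 0).ne'
      (Finset.prod_pos fun i _ => hf i.succ).ne', pow_add, ih (fun i => f i.succ)
      fun i => hf i.succ]

/-- The least valuations of `M` and `N` agree: if one of them is attained at least twice, this is
`min_valuation` (in one of the two directions); if both are attained exactly once, by `x₀`, `y₀`,
then they are both the valuation of `M.sum = N.sum` (the other elements are divisible by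
`r ^ (m + 1)`). Then the multisets `M.map ψ`, `N.map ψ`, `ψ x = r ^ padicValNat r x`
(multiplicative), have the same `PRS` (`PRS_map_map`) and the same smallest element
`r ^ m`, so they agree by `eq_of_min`; now apply `padicValNat r` (`padicValNat.prime_pow`). -/
theorem map_valuation {a b : ℕ} (hb : 1 ≤ b) (hab : b ≤ a) {M N : Multiset ℕ}
    (hM0 : ∀ x ∈ M, 0 < x) (hN0 : ∀ x ∈ N, 0 < x) (hM : 2 ≤ Multiset.card M)
    (hN : 2 ≤ Multiset.card N) (h : PRS a b M = PRS a b N) (hsum : M.sum = N.sum) {r : ℕ}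
    (hr : r.Prime) : M.map (padicValNat r) = N.map (padicValNat r) := by
  haveI := Fact.mk hr
  obtain ⟨x₀, hx₀, hmx⟩ := v6_exists_min hM (padicValNat r)
  obtain ⟨y₀, hy₀, hmy⟩ := v6_exists_min hN (padicValNat r)
  have hmm := v6_min_eq hb hab hM0 hN0 hM hN h hsum hr hmx hmy hx₀ rfl hy₀ rfl
  have hpos : ∀ k : ℕ, 0 < r ^ k := fun k => pow_pos hr.pos k
  have e1 : PRS a b (M.map fun x => r ^ padicValNat r x) =
      (PRS a b M).map fun x => r ^ padicValNat r x :=
    PRS_map_map hb hab hM0 _ _ (fun x _ => hpos _)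
      (fun f hf => v6_prod hr f fun i => hM0 _ (hf i))
  have e2 : PRS a b (N.map fun x => r ^ padicValNat r x) =
      (PRS a b N).map fun x => r ^ padicValNat r x :=
    PRS_map_map hb hab hN0 _ _ (fun x _ => hpos _)
      (fun f hf => v6_prod hr f fun i => hN0 _ (hf i))
  have hpM : ∀ x ∈ M.map fun x => r ^ padicValNat r x, 0 < x := by
    intro x hx
    obtain ⟨z, _, rfl⟩ := Multiset.mem_map.mp hx
    exact hpos _
  have hpN : ∀ x ∈ N.map fun x => r ^ padicValNat r x, 0 < x := by
    intro x hx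
    obtain ⟨z, _, rfl⟩ := Multiset.mem_map.mp hx
    exact hpos _
  have key : (M.map fun x => r ^ padicValNat r x) = N.map fun x => r ^ padicValNat r x := by
    apply eq_of_min hb hab hpM hpN (by rwa [Multiset.card_map]) (by rwa [Multiset.card_map])
      (by rw [e1, e2, h]) (s := r ^ padicValNat r x₀)
    · exact Multiset.mem_map.mpr ⟨x₀, hx₀, rfl⟩
    · exact Multiset.mem_map.mpr ⟨y₀, hy₀, by simp only [hmm]⟩
    · intro x hx
      obtain ⟨z, hz, rfl⟩ := Multiset.mem_map.mp hx
      exact Nat.pow_le_pow_right hr.pos (hmx z hz)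
    · intro x hx
      obtain ⟨z, hz, rfl⟩ := Multiset.mem_map.mp hx
      rw [hmm]
      exact Nat.pow_le_pow_right hr.pos (hmy z hz)
  have key2 := congrArg (Multiset.map (padicValNat r)) key
  rw [Multiset.map_map, Multiset.map_map] at key2
  have e3 : (padicValNat r ∘ fun x => r ^ padicValNat r x) = padicValNat r := by
    funext x
    simp only [Function.comp_apply]
    exact padicValNat.prime_pow _
  rwa [e3] at key2

end Pool.Agent.Lib.H70S
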